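import Pool.Agent.T2h26.TL.Stm
import Pool.Agent.R109.GT.E

/-! Project TL, part BND: a bound for plateaus gives a bound for all nodes. -/

set_option autoImplicit false

open MeasureTheory Set
open scoped ENNReal

namespace Pool.Agent.T2h26.TL.BND

open R109.GT

theorem first_sub (w : ℕ → ℤ → ℤ) (N : ℕ) (j : ℤ) (m n : ℕ) :
    Es w N m ∩ first w N j n ⊆ Es w n m := by
  rintro x ⟨⟨T, hT, hx⟩, hf⟩
  refine ⟨T, hT, fun k hk => ⟨?_, (hx k hk).2⟩⟩
  by_contra hcon
  exact hf.2.2.2 k (hx k hk).1 (by omega) (hx k hk).2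

theorem GG_sub_first (w : ℕ → ℤ → ℤ) (N : ℕ) (j : ℤ) (m : ℕ) (hm : 1 ≤ m) :
    GG w N j m ⊆ ⋃ n, tak w '' (Es w N m ∩ first w N j n) := by
  rintro _ ⟨x, ⟨hE, hJ⟩, rfl⟩
  obtain ⟨T, hT, hx⟩ := hE
  have hne : T.Nonempty := by
    rw [← Finset.card_pos]
    omega
  obtain ⟨k, hk⟩ := hne
  classical
  have hex : ∃ n, N ≤ n ∧ S w n x = 0 := ⟨k, hx k hk⟩
  refine mem_iUnion.2 ⟨Nat.find hex, x, ⟨⟨T, hT, hx⟩, hJ, (Nat.find_spec hex).1,
    (Nat.find_spec hex).2, ?_⟩, rfl⟩
  intro a ha hlt h0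
  exact Nat.find_min hex hlt ⟨ha, h0⟩

theorem first_le (hSCA : S_SCA) (w : ℕ → ℤ → ℤ) (hw : Sgn w) (m : ℕ) (C : ℝ≥0∞)
    (h : ∀ w' : ℕ → ℤ → ℤ, Sgn w' → volume (GG w' 0 0 m) ≤ C) (N : ℕ) (j : ℤ) (n : ℕ) :
    volume (tak w '' (Es w N m ∩ first w N j n)) ≤ C * volume (first w N j n) := by
  have hU : first w N j n = ⋃ i : ℤ, first w N j n ∩ J n i := by
    ext x
    simp only [mem_iUnion, mem_inter_iff]
    exact ⟨fun hx => ⟨⌊(2:ℝ) ^ n * x⌋, hx, rfl⟩, fun ⟨_, hx, _⟩ => hx⟩
  have hd : Pairwise (Function.onFun Disjoint fun i : ℤ => first w N j n ∩ J n i) := by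
    intro i i' hi
    exact (PC.J_disj n hi).mono inter_subset_right inter_subset_right
  have hm : ∀ i : ℤ, MeasurableSet (first w N j n ∩ J n i) := fun i =>
    (PC.measurableSet_first w N j n).inter (PC.measurableSet_J n i)
  have hI : tak w '' (Es w N m ∩ first w N j n) =
      ⋃ i : ℤ, tak w '' (Es w N m ∩ (first w N j n ∩ J n i)) := by
    conv_lhs => rw [hU]
    rw [inter_iUnion, image_iUnion]
  calc volume (tak w '' (Es w N m ∩ first w N j n))
      = volume (⋃ i : ℤ, tak w '' (Es w N m ∩ (first w N j n ∩ J n i))) := by rw [hI]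
    _ ≤ ∑' i : ℤ, volume (tak w '' (Es w N m ∩ (first w N j n ∩ J n i))) :=
        measure_iUnion_le _
    _ ≤ ∑' i : ℤ, C * volume (first w N j n ∩ J n i) := by
        refine ENNReal.tsum_le_tsum fun i => ?_
        rcases PC.first_inter_J w N j n i with he | ⟨_, h2, h3⟩
        · rw [he]
          simp
        · have h4 : tak w '' (Es w N m ∩ (first w N j n ∩ J n i)) ⊆ GG w n i m := by
            refine image_mono ?_
            rintro x ⟨hx1, hx2, hx3⟩
            exact ⟨first_sub w N j m n ⟨hx1, hx2⟩, hx3⟩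
          obtain ⟨g1, g2, _⟩ := hSCA w hw n i h2
          rw [h3, vol_J, mul_comm]
          refine (measure_mono (h3 ▸ h4)).trans ?_
          rw [g2 m, E.vol_affine]
          gcongr
          exact h _ g1
    _ = C * ∑' i : ℤ, volume (first w N j n ∩ J n i) := ENNReal.tsum_mul_left
    _ = C * volume (⋃ i : ℤ, first w N j n ∩ J n i) := by rw [measure_iUnion hd hm]
    _ = C * volume (first w N j n) := by rw [← hU]

theorem t_BND (hSCA : S_SCA) : S_BND := by
  intro m hm C h w hw N j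
  calc volume (GG w N j m) ≤ volume (⋃ n, tak w '' (Es w N m ∩ first w N j n)) :=
        measure_mono (GG_sub_first w N j m hm)
    _ ≤ ∑' n, volume (tak w '' (Es w N m ∩ first w N j n)) := measure_iUnion_le _
    _ ≤ ∑' n, C * volume (first w N j n) :=
        ENNReal.tsum_le_tsum fun n => first_le hSCA w hw m C h N j n
    _ = C * ∑' n, volume (first w N j n) := ENNReal.tsum_mul_left
    _ = C * volume (⋃ n, first w N j n) := by
        rw [measure_iUnion (PC.first_disj w N j) (PC.measurableSet_first w N j)]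
    _ ≤ C * volume (J N j) := by
        gcongr
        exact iUnion_subset fun n x hx => hx.1

end Pool.Agent.T2h26.TL.BND
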