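import Pool.Agent.T2h26.TL.Stm

/-! Project TL, part CPT: compactness. -/

set_option autoImplicit false

open MeasureTheory Set Filter
open scoped ENNReal NNReal

namespace Pool.Agent.T2h26.TL.CPT

open R109.GT

theorem Es_anti (w : ℕ → ℤ → ℤ) (N : ℕ) {m m' : ℕ} (h : m ≤ m') : Es w N m' ⊆ Es w N m := by
  rintro x ⟨T, hT, hx⟩
  obtain ⟨T', hT', hc⟩ := Finset.exists_subset_card_eq (hT ▸ h : m ≤ T.card)
  exact ⟨T', hc, fun n hn => hx n (hT' hn)⟩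

theorem GG_anti (w : ℕ → ℤ → ℤ) (N : ℕ) (j : ℤ) : Antitone (GG w N j) := fun _ _ h =>
  image_mono (inter_subset_inter_left _ (Es_anti w N h))

theorem El_sub (w : ℕ → ℤ → ℤ) (m L : ℕ) : El w m L ⊆ Es w 0 m := by
  rintro x ⟨T, hT, hx⟩
  exact ⟨T, hT, fun n hn => ⟨Nat.zero_le _, (hx n hn).2⟩⟩

theorem MM_ne_top : MM ≠ ⊤ := by
  have h : MM ≤ 2 := by
    refine (iInf_le _ 0).trans (iSup_le fun w => ?_)
    have hsub : GG w.1 0 0 0 ⊆ Icc (-1 : ℝ) 1 := by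
      rintro _ ⟨x, -, rfl⟩
      exact abs_le.1 (bound w.1 w.2 x)
    refine (measure_mono hsub).trans ?_
    rw [Real.volume_Icc]
    norm_num
  exact ne_top_of_le_ne_top (by norm_num) h

theorem exists_near (h0 : MM ≠ 0) (m : ℕ) (δ : ℝ≥0∞) (hδ : δ ≠ 0) :
    ∃ w : ℕ → ℤ → ℤ, Sgn w ∧ MM ≤ volume (GG w 0 0 m) + δ := by
  by_contra hcon
  push Not at hcon
  have h1 : Mm m ≤ MM - δ := iSup_le fun w =>
    ENNReal.le_sub_of_add_le_right (ne_top_of_le_ne_top MM_ne_top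
      (le_add_self.trans (hcon w.1 w.2).le)) (hcon w.1 w.2).le
  have h2 : MM - δ < MM := ENNReal.sub_lt_self MM_ne_top h0 hδ
  exact absurd ((iInf_le _ m).trans h1) (not_le.2 h2)

theorem step (hTAI : S_TAI) (hUSC : S_USC) (W : ℕ → ℕ → ℤ → ℤ) (hW : ∀ m, Sgn (W m))
    (hWM : ∀ m, MM ≤ volume (GG (W m) 0 0 m) + ((m : ℝ≥0∞) + 1)⁻¹) (w : ℕ → ℤ → ℤ) (hw : Sgn w)
    (hcl : ∀ n j, ∀ᶠ m in (hyperfilter ℕ : Filter ℕ), W m n j = w n j) (m₁ : ℕ) (ε : ℝ≥0∞)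
    (hε : 0 < ε) : MM ≤ volume (GG w 0 0 m₁) + (ε + ε + ε) := by
  obtain ⟨L, hL⟩ := hTAI m₁ ε hε
  obtain ⟨N, hN⟩ := hUSC w hw m₁ L ε hε
  have e1 : ∀ᶠ m in (hyperfilter ℕ : Filter ℕ), ∀ n ∈ Finset.range N, ∀ j ∈ nd n,
      W m n j = w n j := by
    rw [Filter.eventually_all_finset]
    intro n _
    rw [Filter.eventually_all_finset]
    intro j _
    exact hcl n j
  have hat : (hyperfilter ℕ : Filter ℕ) ≤ atTop := by
    rw [← Nat.cofinite_eq_atTop]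
    exact hyperfilter_le_cofinite
  have e2 : ∀ᶠ m in (hyperfilter ℕ : Filter ℕ), m₁ ≤ m := hat (eventually_ge_atTop m₁)
  have e3 : ∀ᶠ m : ℕ in (hyperfilter ℕ : Filter ℕ), ((m : ℝ≥0∞) + 1)⁻¹ ≤ ε := by
    apply hat
    have ht : Tendsto (fun m : ℕ => ((m + 1 : ℕ) : ℝ≥0∞)⁻¹) atTop (nhds 0) :=
      ENNReal.tendsto_inv_nat_nhds_zero.comp (tendsto_add_atTop_nat 1)
    filter_upwards [ht.eventually (Iic_mem_nhds hε)] with m hm
    have hm' : ((m + 1 : ℕ) : ℝ≥0∞)⁻¹ ≤ ε := hm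
    push_cast at hm'
    exact hm'
  obtain ⟨m, h1, h2, h3⟩ := (e1.and (e2.and e3)).exists
  have g1 : volume (tak (W m) '' (El (W m) m₁ L ∩ J 0 0)) ≤
      volume (tak w '' (El w m₁ L ∩ J 0 0)) + ε :=
    hN (W m) (hW m) fun n hn j hj => h1 n (Finset.mem_range.2 hn) j hj
  have g2 : volume (tak w '' (El w m₁ L ∩ J 0 0)) ≤ volume (GG w 0 0 m₁) :=
    measure_mono (image_mono (inter_subset_inter_left _ (El_sub w m₁ L)))
  have g3 : GG (W m) 0 0 m₁ ⊆ tak (W m) '' (El (W m) m₁ L ∩ J 0 0) ∪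
      tak (W m) '' ((Es (W m) 0 m₁ \ El (W m) m₁ L) ∩ J 0 0) := by
    rintro _ ⟨x, ⟨hE, hJ⟩, rfl⟩
    by_cases hx : x ∈ El (W m) m₁ L
    · exact Or.inl ⟨x, ⟨hx, hJ⟩, rfl⟩
    · exact Or.inr ⟨x, ⟨⟨hE, hx⟩, hJ⟩, rfl⟩
  calc MM ≤ volume (GG (W m) 0 0 m) + ((m : ℝ≥0∞) + 1)⁻¹ := hWM m
    _ ≤ volume (GG (W m) 0 0 m₁) + ε := add_le_add (measure_mono (GG_anti _ _ _ h2)) h3
    _ ≤ (volume (tak (W m) '' (El (W m) m₁ L ∩ J 0 0)) +
        volume (tak (W m) '' ((Es (W m) 0 m₁ \ El (W m) m₁ L) ∩ J 0 0))) + ε := by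
        gcongr
        exact (measure_mono g3).trans (measure_union_le _ _)
    _ ≤ ((volume (GG w 0 0 m₁) + ε) + ε) + ε := by
        gcongr
        · exact g1.trans (add_le_add g2 le_rfl)
        · exact hL (W m) (hW m)
    _ = volume (GG w 0 0 m₁) + (ε + ε + ε) := by
        rw [add_assoc, add_assoc, add_assoc]

theorem t_CPT (_hMEA : S_MEA) (hTAI : S_TAI) (hUSC : S_USC) : S_CPT := by
  by_cases h0 : MM = 0
  · refine ⟨fun _ _ => 1, fun _ _ => Or.inl rfl, fun m => ?_⟩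
    rw [h0]
    exact zero_le
  have hch : ∀ m : ℕ, ∃ w : ℕ → ℤ → ℤ, Sgn w ∧
      MM ≤ volume (GG w 0 0 m) + ((m : ℝ≥0∞) + 1)⁻¹ := fun m =>
    exists_near h0 m _ (ENNReal.inv_ne_zero.2 (by
      exact ENNReal.add_ne_top.2 ⟨ENNReal.natCast_ne_top m, ENNReal.one_ne_top⟩))
  choose W hW hWM using hch
  classical
  let w : ℕ → ℤ → ℤ := fun n j =>
    if ∀ᶠ m in (hyperfilter ℕ : Filter ℕ), W m n j = 1 then 1 else -1
  have hw : Sgn w := by
    intro n j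
    by_cases h : ∀ᶠ m in (hyperfilter ℕ : Filter ℕ), W m n j = 1
    · left
      exact if_pos h
    · right
      exact if_neg h
  have hcl : ∀ n j, ∀ᶠ m in (hyperfilter ℕ : Filter ℕ), W m n j = w n j := by
    intro n j
    by_cases h : ∀ᶠ m in (hyperfilter ℕ : Filter ℕ), W m n j = 1
    · have e : w n j = 1 := if_pos h
      rw [e]
      exact h
    · have e : w n j = -1 := if_neg h
      rw [e]
      rw [← Ultrafilter.eventually_not] at h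
      filter_upwards [h] with m hm
      rcases hW m n j with h1 | h1
      · exact absurd h1 hm
      · exact h1
  refine ⟨w, hw, fun m₁ => ?_⟩
  refine ENNReal.le_of_forall_pos_le_add fun ε hε _ => ?_
  have h3 : (0 : ℝ≥0∞) < ((ε / 3 : ℝ≥0) : ℝ≥0∞) := by
    have : 0 < ε / 3 := by positivity
    exact_mod_cast this
  have h := step hTAI hUSC W hW hWM w hw hcl m₁ _ h3
  refine h.trans (le_of_eq ?_)
  congr 1
  rw [← ENNReal.coe_add, ← ENNReal.coe_add]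
  congr 1
  rw [← NNReal.coe_inj]
  push_cast
  ring

end Pool.Agent.T2h26.TL.CPT
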