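import Pool.Agent.T2h26.TL.Stm
import Pool.Agent.R109.GT.E

/-! Project TL, task EXT (helper85) -/

set_option autoImplicit false

open MeasureTheory Set
open scoped ENNReal

namespace Pool.Agent.T2h26.TL.EXT

open R109.GT Pool.Agent.T2h26.TL

theorem mem_nd {n : ℕ} {j : ℤ} : j ∈ nd n ↔ 0 ≤ j ∧ j < 2 ^ n := by
  unfold nd
  rw [Finset.mem_Ico]

theorem card_nd (n : ℕ) : (nd n).card = 2 ^ n := by
  unfold nd
  rw [Int.card_Ico, sub_zero]
  have h : (2 : ℤ) ^ n = ((2 ^ n : ℕ) : ℤ) := by push_cast; rfl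
  rw [h, Int.toNat_natCast]

theorem half_nd {n : ℕ} {j : ℤ} (h : 2 * j ∈ nd (n + 1) ∨ 2 * j + 1 ∈ nd (n + 1)) : j ∈ nd n := by
  rw [mem_nd, mem_nd, pow_succ] at h
  rw [mem_nd]
  rcases h with h | h <;> constructor <;> omega

theorem Es_anti (w : ℕ → ℤ → ℤ) (N : ℕ) {m m' : ℕ} (h : m ≤ m') : Es w N m' ⊆ Es w N m := by
  rintro x ⟨T, hT, hx⟩
  obtain ⟨T', hT', hc⟩ := Finset.exists_subset_card_eq (s := T) (n := m) (by omega)
  exact ⟨T', hc, fun n hn => hx n (hT' hn)⟩

theorem GG_anti (w : ℕ → ℤ → ℤ) (N : ℕ) (j : ℤ) : Antitone (GG w N j) := by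
  intro m m' h
  unfold GG
  exact image_mono (inter_subset_inter_left _ (Es_anti w N h))

theorem GG_le_two (w : ℕ → ℤ → ℤ) (hw : Sgn w) (m : ℕ) : volume (GG w 0 0 m) ≤ 2 := by
  have h1 := flat_vol (fun n j => vol_J n j) w hw 0 0 rfl
  rw [vol_J] at h1
  refine (measure_mono ?_).trans (h1.trans ?_)
  · unfold GG
    exact image_mono (inter_subset_inter_left _ (subset_univ _))
  · simp

theorem Mm_le_two (m : ℕ) : Mm m ≤ 2 := iSup_le fun w => GG_le_two w.1 w.2 m

theorem MM_le_two : MM ≤ 2 := (iInf_le _ 0).trans (Mm_le_two 0)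

theorem MM_ne_top : MM ≠ ⊤ := ne_top_of_le_ne_top (by norm_num) MM_le_two

theorem Mm_anti : Antitone Mm := by
  intro m m' h
  refine iSup_mono fun w => measure_mono (GG_anti w.1 0 0 h)

theorem le_Mm (w : ℕ → ℤ → ℤ) (hw : Sgn w) (m : ℕ) : volume (GG w 0 0 m) ≤ Mm m :=
  le_iSup (fun w : {w : ℕ → ℤ → ℤ // Sgn w} => volume (GG w.1 0 0 m)) ⟨w, hw⟩

theorem AA_meas (hMEA : S_MEA) (w : ℕ → ℤ → ℤ) (hw : Sgn w) (N : ℕ) (j : ℤ) :
    MeasurableSet (AA w N j) := by
  unfold AA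
  exact MeasurableSet.iInter fun m => (hMEA w hw N j m 0).1

theorem AA_root (hMEA : S_MEA) (w : ℕ → ℤ → ℤ) (hw : Sgn w)
    (hC : ∀ m, MM ≤ volume (GG w 0 0 m)) : volume (AA w 0 0) = MM := by
  apply le_antisymm
  · unfold MM
    refine le_iInf fun m => (measure_mono (iInter_subset _ m)).trans (le_Mm w hw m)
  · unfold AA
    rw [(GG_anti w 0 0).measure_iInter (fun m => ((hMEA w hw 0 0 m 0).1).nullMeasurableSet)
      ⟨0, ne_top_of_le_ne_top (by norm_num) (GG_le_two w hw 0)⟩]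
    exact le_iInf hC

theorem AA_le (hBND : S_BND) (w : ℕ → ℤ → ℤ) (hw : Sgn w) (N : ℕ) (j : ℤ) :
    volume (AA w N j) ≤ MM * volume (J N j) := by
  have h1 : ∀ m, volume (AA w N j) ≤ Mm m * volume (J N j) := by
    intro m
    have h2 := hBND (m + 1) (by omega) (Mm (m + 1)) (fun w' hw' => le_Mm w' hw' _) w hw N j
    refine (measure_mono (iInter_subset _ (m + 1))).trans (h2.trans ?_)
    exact mul_le_mul_left (Mm_anti (by omega)) _
  unfold MM
  rw [ENNReal.iInf_mul_of_ne]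
  · exact le_iInf h1
  · rw [vol_J]
    simp
  · rw [vol_J]
    exact ENNReal.ofReal_ne_top

theorem cover (hSPL : S_SPL) (w : ℕ → ℤ → ℤ) (hw : Sgn w) (n : ℕ) :
    AA w 0 0 ⊆ ⋃ j ∈ nd n, AA w n j := by
  induction n with
  | zero =>
    intro y hy
    simp only [mem_iUnion]
    exact ⟨0, mem_nd.2 (by simp), hy⟩
  | succ n ih =>
    refine ih.trans ?_
    intro y hy
    simp only [mem_iUnion] at hy ⊢
    obtain ⟨j, hj, hy⟩ := hy
    rw [mem_nd] at hj
    rw [hSPL w hw n j] at hy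
    rcases hy with hy | hy
    · exact ⟨2 * j, mem_nd.2 (by rw [pow_succ]; constructor <;> omega), hy⟩
    · exact ⟨2 * j + 1, mem_nd.2 (by rw [pow_succ]; constructor <;> omega), hy⟩

theorem sum_const_nd (n : ℕ) (M : ℝ) (_hM : 0 ≤ M) :
    ∑ _j ∈ nd n, ENNReal.ofReal (M / 2 ^ n) = ENNReal.ofReal M := by
  rw [Finset.sum_const, card_nd, nsmul_eq_mul, ← ENNReal.ofReal_natCast,
    ← ENNReal.ofReal_mul (by positivity)]
  congr 1
  push_cast
  field_simp

/-- the plateaus -/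
theorem plateau (hLOC : S_LOC) (hSCA : S_SCA) (hTAI : S_TAI) (hINT : S_INT) (hTHI : S_THI)
    (w : ℕ → ℤ → ℤ) (hw : Sgn w) (M : ℝ) (hM : 0 < M) (hMM : MM = ENNReal.ofReal M) (ε : ℝ)
    (hε : 0 < ε) : ∃ K : ℕ, ∀ n, ∀ j ∈ nd n, slope w n j = 0 → ∃ V : Finset ℤ,
    (V.card : ℝ) / 2 ^ (n + K) ≤ (1 + ε) * M / 2 ^ n ∧
    volume (AA w n j \ ⋃ c ∈ V, J (n + K) c) ≤ ENNReal.ofReal (ε * M / 2 ^ n) := by
  -- the choice of m
  obtain ⟨m, hm⟩ : ∃ m, Mm m < ENNReal.ofReal ((1 + ε / 3) * M) := by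
    have h1 : MM < ENNReal.ofReal ((1 + ε / 3) * M) := by
      rw [hMM]
      apply (ENNReal.ofReal_lt_ofReal_iff (by positivity)).2
      nlinarith
    unfold MM at h1
    exact iInf_lt_iff.1 h1
  obtain ⟨L, hL⟩ := hTAI m (ENNReal.ofReal (ε * M)) (ENNReal.ofReal_pos.2 (by positivity))
  obtain ⟨K, hK⟩ : ∃ K : ℕ, 2 * 2 ^ (L + 1) / (2 : ℝ) ^ K ≤ 2 * ε / 3 * M := by
    obtain ⟨K, hK⟩ := pow_unbounded_of_one_lt (2 * 2 ^ (L + 1) / (2 * ε / 3 * M))
      (by norm_num : (1 : ℝ) < 2)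
    refine ⟨K, ?_⟩
    rw [div_lt_iff₀ (by positivity)] at hK
    rw [div_le_iff₀ (by positivity)]
    linarith
  refine ⟨K, fun n j hj hs => ?_⟩
  obtain ⟨hw', hGG, hAA⟩ := hSCA w hw n j hs
  obtain ⟨w', hw'e⟩ : ∃ w', w' = sub w n j := ⟨_, rfl⟩
  rw [← hw'e] at hw' hGG hAA
  obtain ⟨F, hF1, hF2, hF3⟩ := hINT w' hw' m L
  have hElEs : El w' m L ⊆ Es w' 0 m := by
    rintro x ⟨T, hT, hx⟩
    exact ⟨T, hT, fun n hn => ⟨Nat.zero_le _, (hx n hn).2⟩⟩
  have hbd : ∀ I ∈ F, Bornology.IsBounded I := by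
    intro I hI
    have h1 : I ⊆ Metric.closedBall 0 (3 / 4) := by
      intro y hy
      have h2 : y ∈ tak w' '' (El w' m L ∩ J 0 0) := by
        rw [hF3]
        simp only [mem_iUnion]
        exact ⟨I, hI, hy⟩
      obtain ⟨x, _, rfl⟩ := h2
      rw [Metric.mem_closedBall, Real.dist_eq, sub_zero]
      exact (hLOC w' hw').1 x
    exact Metric.isBounded_closedBall.subset h1
  obtain ⟨V', hV1, hV2⟩ := (hTHI F hF2).2 K hbd
  have hvF : volume (⋃ I ∈ F, I) ≤ ENNReal.ofReal ((1 + ε / 3) * M) := by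
    rw [← hF3]
    refine (measure_mono ?_).trans ((le_Mm w' hw' m).trans hm.le)
    unfold GG
    exact image_mono (inter_subset_inter_left _ hElEs)
  have hVc : (V'.card : ℝ) / 2 ^ K ≤ (1 + ε) * M := by
    have h1 : ENNReal.ofReal ((V'.card : ℝ) / 2 ^ K) ≤
        ENNReal.ofReal ((1 + ε / 3) * M) + ENNReal.ofReal (2 * ε / 3 * M) := by
      refine hV2.trans (add_le_add hvF (ENNReal.ofReal_le_ofReal (le_trans ?_ hK)))
      have h2 : (F.card : ℝ) ≤ 2 ^ (L + 1) := by exact_mod_cast hF1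
      gcongr
    rw [← ENNReal.ofReal_add (by positivity) (by positivity)] at h1
    have h3 := (ENNReal.ofReal_le_ofReal_iff (by positivity)).1 h1
    linarith
  classical
  refine ⟨V'.image fun c => 2 ^ K * val w n j + c, ?_, ?_⟩
  · have h1 : ((V'.image fun c => 2 ^ K * val w n j + c).card : ℝ) ≤ V'.card := by
      exact_mod_cast Finset.card_image_le
    rw [pow_add, mul_comm ((2 : ℝ) ^ n), ← div_div]
    apply div_le_div_of_nonneg_right _ (by positivity)
    refine le_trans ?_ hVc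
    gcongr
  · have hsub : AA w n j \ ⋃ c ∈ V'.image fun c => 2 ^ K * val w n j + c, J (n + K) c ⊆
        (fun v : ℝ => ((val w n j : ℝ) + v) / 2 ^ n) ''
          (tak w' '' ((Es w' 0 m \ El w' m L) ∩ J 0 0)) := by
      rintro y ⟨hy1, hy2⟩
      rw [hAA] at hy1
      obtain ⟨v, hv, rfl⟩ := hy1
      refine ⟨v, ?_, rfl⟩
      have hv2 : v ∈ GG w' 0 0 m := by
        unfold AA at hv
        exact mem_iInter.1 hv m
      unfold GG at hv2
      obtain ⟨x, ⟨hx1, hx2⟩, hxv⟩ := hv2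
      refine ⟨x, ⟨⟨hx1, fun hxE => hy2 ?_⟩, hx2⟩, hxv⟩
      have h3 : v ∈ ⋃ c ∈ V', J K c := by
        apply hV1
        rw [← hF3]
        exact ⟨x, ⟨hxE, hx2⟩, hxv⟩
      simp only [mem_iUnion] at h3
      obtain ⟨c, hc, hvc⟩ := h3
      have hvc' : ⌊(2 : ℝ) ^ K * v⌋ = c := hvc
      simp only [mem_iUnion]
      refine ⟨2 ^ K * val w n j + c, Finset.mem_image_of_mem _ hc, ?_⟩
      change ⌊(2 : ℝ) ^ (n + K) * (((val w n j : ℝ) + v) / 2 ^ n)⌋ = 2 ^ K * val w n j + c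
      have h4 : (2 : ℝ) ^ (n + K) * (((val w n j : ℝ) + v) / 2 ^ n) =
          ((2 ^ K * val w n j : ℤ) : ℝ) + 2 ^ K * v := by
        push_cast
        rw [pow_add]
        field_simp
      rw [h4, Int.floor_intCast_add, hvc']
    refine (measure_mono hsub).trans ?_
    rw [E.vol_affine]
    refine (mul_le_mul_right (hL w' hw') _).trans ?_
    rw [← ENNReal.ofReal_mul (by positivity)]
    apply ENNReal.ofReal_le_ofReal
    apply le_of_eq
    ring

theorem t_EXT (hLOC : S_LOC) (hSPL : S_SPL) (hMEA : S_MEA) (hSCA : S_SCA) (hBND : S_BND)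
    (hTAI : S_TAI) (hINT : S_INT) (hTHI : S_THI) (hCPT : S_CPT) : S_EXT := by
  intro hne
  obtain ⟨w, hw, hC⟩ := hCPT
  obtain ⟨M, hMd⟩ : ∃ M : ℝ, M = MM.toReal := ⟨_, rfl⟩
  have hM : 0 < M := by
    rw [hMd]
    exact ENNReal.toReal_pos hne MM_ne_top
  have hMM : MM = ENNReal.ofReal M := by rw [hMd, ENNReal.ofReal_toReal MM_ne_top]
  have hroot : volume (AA w 0 0) = ENNReal.ofReal M := by rw [AA_root hMEA w hw hC, hMM]
  have hle : ∀ n j, volume (AA w n j) ≤ ENNReal.ofReal (M / 2 ^ n) := by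
    intro n j
    refine (AA_le hBND w hw n j).trans (le_of_eq ?_)
    rw [hMM, vol_J, ← ENNReal.ofReal_mul hM.le]
    congr 1
    ring
  have hsum : ∀ n, ENNReal.ofReal M ≤ ∑ j ∈ nd n, volume (AA w n j) := by
    intro n
    rw [← hroot]
    exact (measure_mono (cover hSPL w hw n)).trans (measure_biUnion_finset_le _ _)
  have hvol : ∀ n, ∀ j ∈ nd n, volume (AA w n j) = ENNReal.ofReal (M / 2 ^ n) := by
    intro n j hj
    apply le_antisymm (hle n j)
    have h1 := hsum n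
    rw [← sum_const_nd n M hM.le, ← Finset.add_sum_erase _ _ hj,
      ← Finset.add_sum_erase _ (fun j => volume (AA w n j)) hj] at h1
    have h2 : volume (AA w n j) + ∑ x ∈ (nd n).erase j, volume (AA w n x) ≤
        volume (AA w n j) + ∑ _x ∈ (nd n).erase j, ENNReal.ofReal (M / 2 ^ n) :=
      add_le_add le_rfl (Finset.sum_le_sum fun x _ => hle n x)
    refine (ENNReal.add_le_add_iff_right ?_).1 (h1.trans h2)
    exact ENNReal.sum_ne_top.2 fun _ _ => ENNReal.ofReal_ne_top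
  classical
  obtain ⟨A, hA⟩ : ∃ A : ℕ → ℤ → Set ℝ, A = fun n j => if j ∈ nd n then AA w n j else ∅ :=
    ⟨_, rfl⟩
  have hAin : ∀ n, ∀ j ∈ nd n, A n j = AA w n j := fun n j hj => by
    rw [hA]
    simp only
    rw [if_pos hj]
  have hAsub : ∀ n j, A n j ⊆ AA w n j := fun n j => by
    rw [hA]
    simp only
    split_ifs
    · exact le_rfl
    · exact empty_subset _
  refine ⟨w, M, A, ⟨hw, hM, ?_, ?_, ?_, ?_, ?_, ?_, ?_⟩⟩
  · intro n j
    rw [hA]
    simp only
    split_ifs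
    · exact AA_meas hMEA w hw n j
    · exact MeasurableSet.empty
  · intro n j hj
    rw [hAin n j hj]
    exact hvol n j hj
  · intro n j
    constructor
    · by_cases h : 2 * j ∈ nd (n + 1)
      · rw [hAin _ _ h, hAin _ _ (half_nd (Or.inl h)), hSPL w hw n j]
        exact subset_union_left
      · rw [hA]
        simp only
        rw [if_neg h]
        exact empty_subset _
    · by_cases h : 2 * j + 1 ∈ nd (n + 1)
      · rw [hAin _ _ h, hAin _ _ (half_nd (Or.inr h)), hSPL w hw n j]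
        exact subset_union_right
      · rw [hA]
        simp only
        rw [if_neg h]
        exact empty_subset _
  · intro n
    rw [hAin 0 0 (mem_nd.2 (by simp))]
    refine (cover hSPL w hw n).trans ?_
    refine iUnion₂_mono fun j hj => ?_
    rw [hAin n j hj]
  · intro n i hi j hj hij
    rw [hAin n i hi, hAin n j hj]
    have hji : j ∈ (nd n).erase i := Finset.mem_erase.2 ⟨hij.symm, hj⟩
    have h1 : ENNReal.ofReal M ≤ volume (AA w n i ∪ AA w n j) +
        ∑ x ∈ ((nd n).erase i).erase j, volume (AA w n x) := by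
      rw [← hroot]
      refine (measure_mono ?_).trans ((measure_union_le (AA w n i ∪ AA w n j)
        (⋃ x ∈ ((nd n).erase i).erase j, AA w n x)).trans
        (add_le_add le_rfl (measure_biUnion_finset_le _ _)))
      refine (cover hSPL w hw n).trans ?_
      intro y hy
      simp only [mem_iUnion] at hy
      obtain ⟨x, hx, hy⟩ := hy
      by_cases h1 : x = i
      · rw [h1] at hy
        exact Or.inl (Or.inl hy)
      · by_cases h2 : x = j
        · rw [h2] at hy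
          exact Or.inl (Or.inr hy)
        · right
          simp only [mem_iUnion]
          exact ⟨x, Finset.mem_erase.2 ⟨h2, Finset.mem_erase.2 ⟨h1, hx⟩⟩, hy⟩
    have h2 := measure_union_add_inter (μ := volume) (AA w n i) (AA_meas hMEA w hw n j)
    have h3 : ENNReal.ofReal M + volume (AA w n i ∩ AA w n j) ≤ ENNReal.ofReal M + 0 := by
      calc ENNReal.ofReal M + volume (AA w n i ∩ AA w n j)
          ≤ (volume (AA w n i ∪ AA w n j) +
            ∑ x ∈ ((nd n).erase i).erase j, volume (AA w n x)) +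
              volume (AA w n i ∩ AA w n j) := add_le_add h1 le_rfl
        _ = (volume (AA w n i ∪ AA w n j) + volume (AA w n i ∩ AA w n j)) +
            ∑ x ∈ ((nd n).erase i).erase j, volume (AA w n x) := by ring
        _ = volume (AA w n i) + (volume (AA w n j) +
            ∑ x ∈ ((nd n).erase i).erase j, volume (AA w n x)) := by rw [h2]; ring
        _ = ∑ x ∈ nd n, volume (AA w n x) := by
            rw [Finset.add_sum_erase _ (fun x => volume (AA w n x)) hji,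
              Finset.add_sum_erase _ (fun x => volume (AA w n x)) hi]
        _ = ∑ _x ∈ nd n, ENNReal.ofReal (M / 2 ^ n) :=
            Finset.sum_congr rfl fun x hx => hvol n x hx
        _ = ENNReal.ofReal M + 0 := by rw [sum_const_nd n M hM.le, add_zero]
    exact le_antisymm ((ENNReal.add_le_add_iff_left ENNReal.ofReal_ne_top).1 h3) zero_le
  · intro n j y hy
    have h1 : y ∈ GG w n j 0 := mem_iInter.1 (hAsub n j hy) 0
    obtain ⟨x, ⟨_, hx⟩, rfl⟩ := h1
    exact (hLOC w hw).2 n j x hx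
  · intro ε hε
    obtain ⟨K, hK⟩ := plateau hLOC hSCA hTAI hINT hTHI w hw M hM hMM ε hε
    refine ⟨K, fun n j hj hs => ?_⟩
    obtain ⟨V, hV1, hV2⟩ := hK n j hj hs
    refine ⟨V, hV1, ?_⟩
    rw [hAin n j hj]
    exact hV2

end Pool.Agent.T2h26.TL.EXT
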