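import Pool.Agent.T2h26.TL.Stm

/-! # Project TL, part FIN: the final theorem -/

set_option autoImplicit false

open MeasureTheory Set
open scoped ENNReal

namespace Pool.Agent.T2h26.TL.FIN

open R109.GT

theorem mem_J00 (x : ℝ) : x ∈ J 0 0 ↔ x ∈ Ico (0 : ℝ) 1 := by
  rw [PC.J_eq_Ico]
  norm_num

theorem Z_sub (w : ℕ → ℤ → ℤ) (m : ℕ) : Z w ∩ Ico 0 1 ⊆ Es w 0 m ∩ J 0 0 := by
  rintro x ⟨hx1, hx2⟩
  refine ⟨?_, (mem_J00 x).2 hx2⟩
  have h1 : {n | S w n x = 0}.Infinite := Nat.frequently_atTop_iff_infinite.1 hx1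
  obtain ⟨T, hT1, hT2⟩ := h1.exists_subset_card_eq m
  exact ⟨T, hT2, fun n hn => ⟨Nat.zero_le _, hT1 hn⟩⟩

theorem vol_zero (hMM : MM = 0) (w : ℕ → ℤ → ℤ) (hw : Sgn w) :
    volume (tak w '' (Z w ∩ Ico 0 1)) = 0 := by
  rw [← nonpos_iff_eq_zero, ← hMM]
  refine le_iInf fun m => ?_
  have h1 : volume (tak w '' (Z w ∩ Ico 0 1)) ≤ volume (GG w 0 0 m) :=
    measure_mono (image_mono (Z_sub w m))
  refine h1.trans ?_
  exact le_iSup (fun w : {w : ℕ → ℤ → ℤ // Sgn w} => volume (GG w.1 0 0 m)) ⟨w, hw⟩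

/-- the sign array of a family of sign functions -/
noncomputable def arr (ω : ℕ → ℝ → ℝ) (n : ℕ) (j : ℤ) : ℤ := by
  classical
  exact if ω n ((j : ℝ) / 2 ^ n) = 1 then 1 else -1

theorem arr_sgn (ω : ℕ → ℝ → ℝ) : Sgn (arr ω) := by
  intro n j
  unfold arr
  by_cases h : ω n ((j : ℝ) / 2 ^ n) = 1
  · left
    rw [if_pos h]
  · right
    rw [if_neg h]

theorem arr_eq {ω : ℕ → ℝ → ℝ} (hω : IsSignFamily ω) (n : ℕ) {x : ℝ} (hx : x ∈ Ico (0 : ℝ) 1) :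
    (arr ω n ⌊(2 : ℝ) ^ n * x⌋ : ℝ) = ω n x := by
  have hp : (0 : ℝ) < 2 ^ n := by positivity
  obtain ⟨j, hj⟩ : ∃ j : ℕ, (j : ℤ) = ⌊(2 : ℝ) ^ n * x⌋ := by
    refine ⟨⌊(2 : ℝ) ^ n * x⌋.toNat, Int.toNat_of_nonneg (Int.floor_nonneg.2 ?_)⟩
    have := hx.1
    positivity
  have hf1 := Int.floor_le ((2 : ℝ) ^ n * x)
  have hf2 := Int.lt_floor_add_one ((2 : ℝ) ^ n * x)
  rw [← hj] at hf1 hf2
  rw [Int.cast_natCast] at hf1 hf2
  have hj2 : j < 2 ^ n := by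
    have h1 : (j : ℝ) < 2 ^ n := by
      refine hf1.trans_lt ?_
      calc (2 : ℝ) ^ n * x < 2 ^ n * 1 := mul_lt_mul_of_pos_left hx.2 hp
        _ = 2 ^ n := mul_one _
    exact_mod_cast h1
  obtain ⟨c, hc⟩ := (hω n).2 j hj2
  have hx1 : x ∈ Ico ((j : ℝ) / 2 ^ n) (((j : ℝ) + 1) / 2 ^ n) := by
    constructor
    · rw [div_le_iff₀ hp]
      linarith
    · rw [lt_div_iff₀ hp]
      linarith
  have hx2 : (j : ℝ) / 2 ^ n ∈ Ico ((j : ℝ) / 2 ^ n) (((j : ℝ) + 1) / 2 ^ n) := by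
    refine ⟨le_rfl, ?_⟩
    rw [div_lt_div_iff_of_pos_right hp]
    linarith
  rw [hc x hx1, ← hj]
  unfold arr
  rw [Int.cast_natCast]
  rcases (hω n).1 ((j : ℝ) / 2 ^ n) with h | h
  · rw [if_pos h, ← hc _ hx2, h]
    norm_num
  · rw [if_neg (by rw [h]; norm_num), ← hc _ hx2, h]
    norm_num

theorem takagi_eq {ω : ℕ → ℝ → ℝ} (hω : IsSignFamily ω) {x : ℝ} (hx : x ∈ Icc (0 : ℝ) 1) :
    takagi ω x = tak (arr ω) x := by
  unfold takagi tak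
  refine tsum_congr fun n => ?_
  rcases lt_or_eq_of_le hx.2 with h | h
  · rw [arr_eq hω n ⟨hx.1, h⟩]
    have h1 : dist1 (2 ^ n * x) = phi (2 ^ n * x) := rfl
    rw [h1]
    ring
  · have h1 : dist1 (2 ^ n * x) = phi (2 ^ n * x) := rfl
    have h2 : phi (2 ^ n * x) = 0 := by
      have h3 := phi_le_abs (2 ^ n * x) (2 ^ n)
      rw [h] at h3 ⊢
      push_cast at h3
      rw [mul_one, sub_self, abs_zero] at h3
      rw [mul_one]
      exact le_antisymm h3 (phi_nonneg _)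
    rw [h1, h2]
    simp

theorem t_FIN (hEXT : S_EXT) (hMAI : S_MAI) : S_FIN := by
  intro ω hω
  have hMM : MM = 0 := by
    by_contra h
    obtain ⟨w, M, A, hE⟩ := hEXT h
    exact hMAI w M A hE
  have h1 := ae_finite (arr ω) (arr_sgn ω) (vol_zero hMM _ (arr_sgn ω))
  filter_upwards [h1] with y hy
  have h2 : {x : ℝ | x ∈ Set.Icc (0 : ℝ) 1 ∧ takagi ω x = y} =
      {x | x ∈ Icc (0 : ℝ) 1 ∧ tak (arr ω) x = y} := by
    ext x
    constructor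
    · rintro ⟨h3, h4⟩
      exact ⟨h3, by rw [← takagi_eq hω h3]; exact h4⟩
    · rintro ⟨h3, h4⟩
      exact ⟨h3, by rw [takagi_eq hω h3]; exact h4⟩
  rw [h2]
  exact hy

end Pool.Agent.T2h26.TL.FIN
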