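import Pool.Agent.T2h26.TL.Stm

/-!
# Project TL, task GOO: a neighbourhood of the set of the values
-/

set_option autoImplicit false

open MeasureTheory Set Filter Topology
open scoped ENNReal

namespace Pool.Agent.T2h26.TL.GOO

open R109.GT

variable {w : ℕ → ℤ → ℤ} {M : ℝ} {A : ℕ → ℤ → Set ℝ}

lemma slope_le (hw : Sgn w) : ∀ (n : ℕ) (j : ℤ), |slope w n j| ≤ n := by
  intro n
  induction n with
  | zero => intro j; simp [R109.GT.slope]
  | succ n ih =>
    intro j
    have h1 := ih (j / 2)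
    have h2 : |w n (j / 2) * (if j % 2 = 0 then 1 else -1)| ≤ 1 := by
      rcases hw n (j / 2) with h | h <;> rw [h] <;> split_ifs <;> norm_num
    have h3 : slope w (n + 1) j = slope w n (j / 2) + w n (j / 2) * (if j % 2 = 0 then 1 else -1) :=
      rfl
    rw [h3]
    refine (abs_add_le _ _).trans ?_
    push_cast
    exact add_le_add h1 h2

lemma hi_sub_lo (w : ℕ → ℤ → ℤ) (n : ℕ) (j : ℤ) : hi w n j - lo w n j = |slope w n j| := by
  unfold hi lo
  rcases le_total 0 (slope w n j) with h | h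
  · rw [abs_of_nonneg h, max_eq_right (by omega), min_eq_left (by omega)]
    ring
  · rw [abs_of_nonpos h, max_eq_left (by omega), min_eq_right (by omega)]
    ring

lemma sub_root (hE : Ext w M A) : ∀ (k : ℕ), ∀ j ∈ nd k, A k j ⊆ A 0 0 := by
  intro k
  induction k with
  | zero =>
    intro j hj
    have h1 : j = 0 := by
      unfold nd at hj
      rw [Finset.mem_Ico] at hj
      simp only [pow_zero] at hj
      omega
    rw [h1]
  | succ k ih =>
    intro j hj
    unfold nd at hj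
    rw [Finset.mem_Ico, pow_succ] at hj
    have h1 : j / 2 ∈ nd k := by
      unfold nd
      rw [Finset.mem_Ico]
      constructor <;> omega
    refine subset_trans ?_ (ih _ h1)
    rcases Int.emod_two_eq_zero_or_one j with h2 | h2
    · have h3 : j = 2 * (j / 2) := by omega
      have h4 := (hE.sub k (j / 2)).1
      rwa [← h3] at h4
    · have h3 : j = 2 * (j / 2) + 1 := by omega
      have h4 := (hE.sub k (j / 2)).2
      rwa [← h3] at h4

/-- different nodes -/
lemma sum_nodes (hE : Ext w M A) {k : ℕ} (T : Finset ℤ) (hT : T ⊆ nd k) {S : Set ℝ}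
    (hS : ∀ j ∈ T, A k j ⊆ S) : (T.card : ℝ≥0∞) * ENNReal.ofReal (M / 2 ^ k) ≤ volume S := by
  have h1 : volume (⋃ i ∈ T, A k i) = ∑ i ∈ T, volume (A k i) := by
    refine measure_biUnion_finset₀ ?_ fun i _ => (hE.meas k i).nullMeasurableSet
    intro i hi i' hi' hne
    exact hE.disj k i (hT hi) i' (hT hi') hne
  rw [Finset.sum_congr rfl fun i hi => hE.vol k i (hT hi), Finset.sum_const, nsmul_eq_mul] at h1
  rw [← h1]
  exact measure_mono (iUnion₂_subset hS)

lemma exists_level (m : ℕ) : ∃ k : ℕ, ((k : ℝ) + 2) / 2 ^ k ≤ 1 / (m + 1) := by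
  refine ⟨2 * (2 * m + 4), ?_⟩
  rw [div_le_div_iff₀ (by positivity) (by positivity)]
  have h1 : 2 * m + 5 ≤ 2 ^ (2 * m + 4) := Nat.lt_two_pow_self
  have h2 : (2 * m + 5) * (2 * m + 5) ≤ 2 ^ (2 * (2 * m + 4)) := by
    rw [two_mul (2 * m + 4), pow_add]
    exact Nat.mul_le_mul h1 h1
  have h3 : ((2 * (2 * m + 4) : ℕ) + 2) * (m + 1) ≤ (2 * m + 5) * (2 * m + 5) := by nlinarith
  have h4 := h3.trans h2
  rw [one_mul]
  exact_mod_cast h4

theorem t_GOO : S_GOO := by
  classical
  intro w M A hE η hη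
  have hM := hE.pos
  have hB := hE.vol 0 0 (by simp [nd])
  rw [pow_zero, div_one] at hB
  set B := A 0 0 with hBdef
  -- the open set
  have hlt : volume B < ENNReal.ofReal ((1 + η) * M) := by
    rw [hB]
    refine (ENNReal.ofReal_lt_ofReal_iff (by positivity)).2 ?_
    nlinarith
  obtain ⟨O', hO'1, hO'2, hO'3⟩ := Set.exists_isOpen_lt_of_lt B _ hlt
  set O : Set ℝ := O' ∩ Ioo (-2) 2 with hO
  have hOo : IsOpen O := hO'2.inter isOpen_Ioo
  have hBO : B ⊆ O := by
    intro y hy
    refine ⟨hO'1 hy, ?_⟩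
    obtain ⟨h1, h2⟩ := hE.loc 0 0 y hy
    have h3 : lo w 0 0 = 0 := by simp [lo, val, R109.GT.slope]
    have h4 : hi w 0 0 = 0 := by simp [hi, val, R109.GT.slope]
    rw [h3, pow_zero, one_mul] at h1
    rw [h4, pow_zero, one_mul] at h2
    have h5 : ((-1 : ℤ) : ℝ) ≤ y := Int.le_floor.1 (by omega)
    have h6 : y < ((1 : ℤ) : ℝ) := Int.floor_lt.1 (by omega)
    push_cast at h5 h6
    constructor <;> linarith
  have hOv : volume O < ENNReal.ofReal ((1 + η) * M) :=
    (measure_mono inter_subset_left).trans_lt hO'3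
  have hOc : (Oᶜ).Nonempty := ⟨3, fun h => by
    have := h.2.2
    norm_num at this⟩
  -- near the complement
  set Bm : ℕ → Set ℝ := fun m => B ∩ {y | Metric.infDist y Oᶜ ≤ 1 / ((m : ℝ) + 1)} with hBm
  have hmeas : ∀ m, MeasurableSet (Bm m) := fun m =>
    (hE.meas 0 0).inter (measurableSet_le (Metric.continuous_infDist_pt _).measurable
      measurable_const)
  have hanti : Antitone Bm := by
    intro m m' hmm y hy
    refine ⟨hy.1, le_trans (show Metric.infDist y Oᶜ ≤ 1 / ((m' : ℝ) + 1) from hy.2) ?_⟩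
    exact one_div_le_one_div_of_le (by positivity) (by
      have : (m : ℝ) ≤ m' := by exact_mod_cast hmm
      linarith)
  have hinter : ⋂ m, Bm m = ∅ := by
    rw [eq_empty_iff_forall_notMem]
    intro y hy
    rw [mem_iInter] at hy
    have hyO : y ∈ O := hBO (hy 0).1
    have h1 : 0 < Metric.infDist y Oᶜ :=
      (hOo.isClosed_compl.notMem_iff_infDist_pos hOc).1 (fun h => h hyO)
    obtain ⟨m, hm⟩ := exists_nat_one_div_lt h1
    exact absurd (show Metric.infDist y Oᶜ ≤ 1 / ((m : ℝ) + 1) from (hy m).2) (not_le.2 hm)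
  have htend := tendsto_measure_iInter_atTop (μ := (volume : Measure ℝ))
    (fun m => (hmeas m).nullMeasurableSet) hanti ⟨0, by
      refine ne_top_of_le_ne_top ?_ (measure_mono inter_subset_left)
      rw [hB]
      exact ENNReal.ofReal_ne_top⟩
  rw [hinter, measure_empty] at htend
  have hpos : (0 : ℝ≥0∞) < ENNReal.ofReal (η * M) := ENNReal.ofReal_pos.2 (by positivity)
  obtain ⟨m, hm⟩ := (htend.eventually (gt_mem_nhds hpos)).exists
  have hm' : volume (Bm m) < ENNReal.ofReal (η * M) := hm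
  obtain ⟨k, hk⟩ := exists_level m
  have h2k : (0 : ℝ) < 2 ^ k := by positivity
  set U : Finset ℤ := (Finset.Ico (-(2 * 2 ^ k)) (2 * 2 ^ k)).filter (fun c => J k c ⊆ O) with hU
  refine ⟨k, U, ?_, ?_⟩
  · -- the number of the cells
    have h1 : volume (⋃ c ∈ U, J k c) = ENNReal.ofReal ((U.card : ℝ) / 2 ^ k) := by
      rw [measure_biUnion_finset (fun a _ b _ hab => PC.J_disj k hab)
        (fun c _ => PC.measurableSet_J k c)]
      rw [Finset.sum_congr rfl fun c _ => vol_J k c, Finset.sum_const, nsmul_eq_mul,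
        div_eq_mul_one_div (U.card : ℝ), ENNReal.ofReal_mul (p := (U.card : ℝ))
          (by positivity), ENNReal.ofReal_natCast]
    have h2 : volume (⋃ c ∈ U, J k c) ≤ volume O :=
      measure_mono (iUnion₂_subset fun c hc => (Finset.mem_filter.1 hc).2)
    rw [h1] at h2
    have h3 := h2.trans hOv.le
    rw [ENNReal.ofReal_le_ofReal_iff (by positivity), div_le_iff₀ h2k] at h3
    exact h3
  · -- the bad nodes
    have hUc : ∀ c, c ∉ U → ∃ z ∈ J k c, z ∉ O := by
      intro c hc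
      by_contra hcon
      push Not at hcon
      apply hc
      rw [hU, Finset.mem_filter, Finset.mem_Ico]
      refine ⟨?_, hcon⟩
      have hz : (c : ℝ) / 2 ^ k ∈ J k c := by
        show ⌊(2:ℝ) ^ k * (c / 2 ^ k)⌋ = c
        rw [mul_div_cancel₀ _ h2k.ne', Int.floor_intCast]
      have h1 := (hcon _ hz).2
      rw [mem_Ioo, lt_div_iff₀ h2k, div_lt_iff₀ h2k] at h1
      obtain ⟨h2, h3⟩ := h1
      constructor
      · have : (((-(2 * 2 ^ k) : ℤ)) : ℝ) < c := by push_cast; linarith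
        exact (Int.cast_lt.1 this).le
      · have : (c : ℝ) < ((2 * 2 ^ k : ℤ) : ℝ) := by push_cast; linarith
        exact Int.cast_lt.1 this
    set bad : Finset ℤ := (nd k).filter (fun j => ¬ Finset.Ico (lo w k j - 1) (hi w k j + 1) ⊆ U)
      with hbad
    have hsub : ∀ j ∈ bad, A k j ⊆ Bm m := by
      intro j hj y hy
      obtain ⟨hj1, hj2⟩ := Finset.mem_filter.1 hj
      refine ⟨sub_root hE k j hj1 hy, ?_⟩
      show Metric.infDist y Oᶜ ≤ 1 / ((m : ℝ) + 1)
      rw [Finset.not_subset] at hj2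
      obtain ⟨c, hc, hcU⟩ := hj2
      rw [Finset.mem_Ico] at hc
      obtain ⟨z, hz, hzO⟩ := hUc c hcU
      obtain ⟨hy1, hy2⟩ := hE.loc k j y hy
      have hsl := slope_le hE.sgn k j
      have hhl := hi_sub_lo w k j
      have hz' : ⌊(2:ℝ) ^ k * z⌋ = c := hz
      have hcz1 := Int.floor_le ((2:ℝ) ^ k * z)
      have hcz2 := Int.lt_floor_add_one ((2:ℝ) ^ k * z)
      have hcy1 := Int.floor_le ((2:ℝ) ^ k * y)
      have hcy2 := Int.lt_floor_add_one ((2:ℝ) ^ k * y)
      rw [hz'] at hcz1 hcz2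
      have h1 : ⌊(2:ℝ) ^ k * y⌋ - c ≤ k + 1 := by omega
      have h2 : c - ⌊(2:ℝ) ^ k * y⌋ ≤ k + 1 := by omega
      have h1' : ((⌊(2:ℝ) ^ k * y⌋ : ℤ) : ℝ) - c ≤ k + 1 := by exact_mod_cast h1
      have h2' : (c : ℝ) - (⌊(2:ℝ) ^ k * y⌋ : ℤ) ≤ k + 1 := by exact_mod_cast h2
      have h3 : dist y z ≤ ((k : ℝ) + 2) / 2 ^ k := by
        have e1 : |y - z| * 2 ^ k = |(2:ℝ) ^ k * y - 2 ^ k * z| := by
          rw [← mul_sub, abs_mul, abs_of_pos h2k, mul_comm]
        rw [Real.dist_eq, le_div_iff₀ h2k, e1, abs_le]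
        constructor <;> linarith
      refine (Metric.infDist_le_dist_of_mem (show z ∈ Oᶜ from hzO)).trans (h3.trans hk)
    have h1 := sum_nodes hE bad (Finset.filter_subset _ _) hsub
    have h2 := h1.trans hm'.le
    rw [← ENNReal.ofReal_natCast, ← ENNReal.ofReal_mul (by positivity),
      ENNReal.ofReal_le_ofReal_iff (by positivity)] at h2
    have h3 : (bad.card : ℝ) ≤ η * 2 ^ k := by
      have h4 : (bad.card : ℝ) * (M / 2 ^ k) = (bad.card / 2 ^ k) * M := by ring
      rw [h4] at h2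
      have h5 := le_of_mul_le_mul_right h2 hM
      rwa [div_le_iff₀ h2k] at h5
    have h4 : (nd k).card = 2 ^ k := by
      unfold nd
      rw [Int.card_Ico, sub_zero]
      have : ((2 : ℤ) ^ k) = ((2 ^ k : ℕ) : ℤ) := by push_cast; rfl
      rw [this, Int.toNat_natCast]
    have h5 := Finset.card_filter_add_card_filter_not (s := nd k)
      (fun j => Finset.Ico (lo w k j - 1) (hi w k j + 1) ⊆ U)
    rw [h4] at h5
    have h6 : (((nd k).filter (fun j => Finset.Ico (lo w k j - 1) (hi w k j + 1) ⊆ U)).card : ℝ) +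
        bad.card = 2 ^ k := by exact_mod_cast h5
    linarith

end Pool.Agent.T2h26.TL.GOO
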