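import Pool.Agent.T2h59.TL.Base

/-!
# Project TL (helper59): HIT — a positive proportion of the paths has a zero slope between the
levels `n` and `17 n`
-/

set_option autoImplicit false

open MeasureTheory Set
open scoped ENNReal

namespace Pool.Agent.T2h26.TL.HIT

open R109.GT Pool.Agent.T2h26.TL Pool.Agent.T2h59.TL

/-- the number of the descendants with a slope far away on one side -/
lemma far_count {w : ℕ → ℤ → ℤ} (hw : Sgn w) (n : ℕ) (hn : 1 ≤ n) (m : ℕ) (j : ℤ) :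
    3 * (2 : ℤ) ^ (16 * n) ≤ 32 * ∑ i ∈ ds (16 * n) j,
      (if 0 < R109.GT.slope w (m + 16 * n) i - R109.GT.slope w m j ∧
        4 * (n : ℤ) ≤ (R109.GT.slope w (m + 16 * n) i - R109.GT.slope w m j) ^ 2 then (1 : ℤ) else 0) ∧
    3 * (2 : ℤ) ^ (16 * n) ≤ 32 * ∑ i ∈ ds (16 * n) j,
      (if R109.GT.slope w (m + 16 * n) i - R109.GT.slope w m j < 0 ∧
        4 * (n : ℤ) ≤ (R109.GT.slope w (m + 16 * n) i - R109.GT.slope w m j) ^ 2 then (1 : ℤ) else 0) := by
  classical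
  set s := R109.GT.slope w m j with hs
  have hn' : (1 : ℤ) ≤ n := by exact_mod_cast hn
  -- the two one-sided counts agree
  have hsym : ∑ i ∈ ds (16 * n) j, (if 0 < R109.GT.slope w (m + 16 * n) i - s ∧
        4 * (n : ℤ) ≤ (R109.GT.slope w (m + 16 * n) i - s) ^ 2 then (1 : ℤ) else 0) =
      ∑ i ∈ ds (16 * n) j, (if R109.GT.slope w (m + 16 * n) i - s < 0 ∧
        4 * (n : ℤ) ≤ (R109.GT.slope w (m + 16 * n) i - s) ^ 2 then (1 : ℤ) else 0) := by
    have h1 := sum_ds_slope hw (fun x : ℤ => if 0 < x - s ∧ 4 * (n : ℤ) ≤ (x - s) ^ 2 then (1 : ℤ)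
      else 0) m (16 * n) j
    have h2 := sum_ds_slope hw (fun x : ℤ => if x - s < 0 ∧ 4 * (n : ℤ) ≤ (x - s) ^ 2 then (1 : ℤ)
      else 0) m (16 * n) j
    have h3 := T_iter_symm (fun x : ℤ => if 0 < x - s ∧ 4 * (n : ℤ) ≤ (x - s) ^ 2 then (1 : ℤ)
      else 0) s (16 * n)
    have h4 : (fun x : ℤ => (fun x : ℤ => if 0 < x - s ∧ 4 * (n : ℤ) ≤ (x - s) ^ 2 then (1 : ℤ)
      else 0) (2 * s - x)) = (fun x : ℤ => if x - s < 0 ∧ 4 * (n : ℤ) ≤ (x - s) ^ 2 then (1 : ℤ)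
      else 0) := by
      funext x
      have e1 : (0 < 2 * s - x - s) ↔ (x - s < 0) := by constructor <;> intro <;> omega
      have e2 : (2 * s - x - s) ^ 2 = (x - s) ^ 2 := by ring
      simp only [e1, e2]
    rw [h4] at h3
    rw [← hs] at h1 h2
    exact h1.trans (h3.trans h2.symm)
  -- the moments
  have hmom : ∑ i ∈ ds (16 * n) j, (128 * (n : ℤ) * (R109.GT.slope w (m + 16 * n) i - s) ^ 2
      - 512 * (n : ℤ) ^ 2 - (R109.GT.slope w (m + 16 * n) i - s) ^ 4) =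
      (768 * (n : ℤ) ^ 2 + 32 * n) * 2 ^ (16 * n) := by
    have h1 := sum_ds_slope hw (fun x : ℤ => (-1) * (x - s) ^ 4 + (128 * (n : ℤ)) * (x - s) ^ 2 +
      (- 512 * (n : ℤ) ^ 2)) m (16 * n) j
    rw [T_iter_four, ← hs] at h1
    have h2 : ∑ i ∈ ds (16 * n) j, (128 * (n : ℤ) * (R109.GT.slope w (m + 16 * n) i - s) ^ 2
      - 512 * (n : ℤ) ^ 2 - (R109.GT.slope w (m + 16 * n) i - s) ^ 4) =
      ∑ i ∈ ds (16 * n) j, ((-1) * (R109.GT.slope w (m + 16 * n) i - s) ^ 4 +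
        (128 * (n : ℤ)) * (R109.GT.slope w (m + 16 * n) i - s) ^ 2 + (- 512 * (n : ℤ) ^ 2)) :=
      Finset.sum_congr rfl fun i _ => by ring
    rw [h2, h1]
    push_cast
    ring
  have hpt : ∑ i ∈ ds (16 * n) j, (128 * (n : ℤ) * (R109.GT.slope w (m + 16 * n) i - s) ^ 2
      - 512 * (n : ℤ) ^ 2 - (R109.GT.slope w (m + 16 * n) i - s) ^ 4) ≤
      ∑ i ∈ ds (16 * n) j, 4096 * (n : ℤ) ^ 2 * ((if 0 < R109.GT.slope w (m + 16 * n) i - s ∧
        4 * (n : ℤ) ≤ (R109.GT.slope w (m + 16 * n) i - s) ^ 2 then (1 : ℤ) else 0) +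
        (if R109.GT.slope w (m + 16 * n) i - s < 0 ∧
        4 * (n : ℤ) ≤ (R109.GT.slope w (m + 16 * n) i - s) ^ 2 then (1 : ℤ) else 0)) := by
    refine Finset.sum_le_sum fun i _ => ?_
    set X := R109.GT.slope w (m + 16 * n) i - s with hX
    by_cases h : 4 * (n : ℤ) ≤ X ^ 2
    · have hX0 : 0 < X ∨ X < 0 := by
        rcases lt_trichotomy X 0 with h1 | h1 | h1
        · exact Or.inr h1
        · rw [h1] at h; exfalso; simp at h; omega
        · exact Or.inl h1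
      have h1 : ((if 0 < X ∧ 4 * (n : ℤ) ≤ X ^ 2 then (1 : ℤ) else 0) +
        (if X < 0 ∧ 4 * (n : ℤ) ≤ X ^ 2 then (1 : ℤ) else 0)) = 1 := by
        rcases hX0 with h1 | h1
        · rw [if_pos ⟨h1, h⟩, if_neg (fun h2 => by omega)]; rfl
        · rw [if_neg (fun h2 => by omega), if_pos ⟨h1, h⟩]; rfl
      rw [h1]
      nlinarith [sq_nonneg (X ^ 2 - 64 * (n : ℤ))]
    · push Not at h
      have h1 : (0 : ℤ) ≤ 4096 * (n : ℤ) ^ 2 * ((if 0 < X ∧ 4 * (n : ℤ) ≤ X ^ 2 then (1 : ℤ) else 0) +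
        (if X < 0 ∧ 4 * (n : ℤ) ≤ X ^ 2 then (1 : ℤ) else 0)) := by
        refine mul_nonneg (by positivity) (add_nonneg ?_ ?_) <;> split_ifs <;> norm_num
      refine le_trans ?_ h1
      nlinarith [sq_nonneg (X ^ 2)]
  rw [← Finset.mul_sum, Finset.sum_add_distrib, hmom, ← hsym] at hpt
  have hpos : (0 : ℤ) < 2 ^ (16 * n) := by positivity
  have key : 3 * (2 : ℤ) ^ (16 * n) ≤ 32 * ∑ i ∈ ds (16 * n) j,
      (if 0 < R109.GT.slope w (m + 16 * n) i - s ∧
        4 * (n : ℤ) ≤ (R109.GT.slope w (m + 16 * n) i - s) ^ 2 then (1 : ℤ) else 0) := by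
    set P := ∑ i ∈ ds (16 * n) j, (if 0 < R109.GT.slope w (m + 16 * n) i - s ∧
        4 * (n : ℤ) ≤ (R109.GT.slope w (m + 16 * n) i - s) ^ 2 then (1 : ℤ) else 0) with hP
    have h1 : (n : ℤ) ^ 2 * (768 * 2 ^ (16 * n)) ≤ (n : ℤ) ^ 2 * (8192 * P) := by
      nlinarith
    have h2 := le_of_mul_le_mul_left h1 (by positivity)
    linarith
  exact ⟨key, hsym ▸ key⟩

/-- the discrete intermediate value theorem along a path -/
lemma cross (a : ℕ → ℤ) (t : ℕ) (h : ∀ r < t, |a (r + 1) - a r| ≤ 1)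
    (h1 : (0 ≤ a 0 ∧ a t ≤ 0) ∨ (a 0 ≤ 0 ∧ 0 ≤ a t)) : ∃ r ≤ t, a r = 0 := by
  induction t with
  | zero => exact ⟨0, le_rfl, by omega⟩
  | succ t ih =>
    have h2 := h t (Nat.lt_succ_self t)
    rw [abs_le] at h2
    by_cases h3 : (0 ≤ a 0 ∧ a t ≤ 0) ∨ (a 0 ≤ 0 ∧ 0 ≤ a t)
    · obtain ⟨r, hr, hr2⟩ := ih (fun r hr => h r (by omega)) h3
      exact ⟨r, by omega, hr2⟩
    · exact ⟨t + 1, le_rfl, by omega⟩

/-- along a path the slopes change by one -/
lemma path_step {w : ℕ → ℤ → ℤ} (hw : Sgn w) (n : ℕ) (i : ℤ) :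
    |R109.GT.slope w (n + 1) i - R109.GT.slope w n (i / 2)| ≤ 1 := by
  rw [abs_le]
  simp only [R109.GT.slope]
  rcases hw n (i / 2) with h1 | h1 <;> rw [h1] <;> split_ifs <;> constructor <;> omega

lemma div_two_pow_succ (i : ℤ) (a : ℕ) : i / 2 ^ (a + 1) = i / 2 ^ a / 2 := by
  rw [pow_succ, Int.ediv_ediv_of_nonneg (by positivity)]

/-- a node whose slope has another sign than the slope of an ancestor -/
lemma exists_zero {w : ℕ → ℤ → ℤ} (hw : Sgn w) (n t : ℕ) (i' i : ℤ) (hi : i / 2 ^ t = i')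
    (h : (0 ≤ R109.GT.slope w n i' ∧ R109.GT.slope w (n + t) i ≤ 0) ∨
      (R109.GT.slope w n i' ≤ 0 ∧ 0 ≤ R109.GT.slope w (n + t) i)) :
    ∃ m, n ≤ m ∧ m ≤ n + t ∧ R109.GT.slope w m (i / 2 ^ (n + t - m)) = 0 := by
  obtain ⟨r, hr, hr2⟩ := cross (fun r => R109.GT.slope w (n + r) (i / 2 ^ (t - r))) t
    (fun r hr => by
      have e : t - r = (t - (r + 1)) + 1 := by omega
      have := path_step hw (n + r) (i / 2 ^ (t - (r + 1)))
      show |R109.GT.slope w (n + (r + 1)) (i / 2 ^ (t - (r + 1))) -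
        R109.GT.slope w (n + r) (i / 2 ^ (t - r))| ≤ 1
      rw [e, div_two_pow_succ, ← add_assoc]
      exact this) (by
      simp only [add_zero, Nat.sub_zero, Nat.sub_self, pow_zero, Int.ediv_one, hi]
      exact h)
  refine ⟨n + r, by omega, by omega, ?_⟩
  rw [show n + t - (n + r) = t - r by omega]
  exact hr2

lemma mem_ds {t : ℕ} {j i : ℤ} : i ∈ ds t j ↔ i / 2 ^ t = j := by
  have hp : (0 : ℤ) < 2 ^ t := by positivity
  rw [ds, Finset.mem_Ico, Int.ediv_eq_iff_of_pos hp]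
  constructor
  · rintro ⟨h1, h2⟩; constructor <;> nlinarith
  · rintro ⟨h1, h2⟩; constructor <;> nlinarith

open Classical in
theorem t_HIT : S_HIT := by
  refine ⟨3 / 64, by norm_num, 17, by norm_num, fun k => ⟨k ^ 2 + k + 1, by nlinarith, ?_⟩⟩
  intro n hn w hw j hj
  have hkn : k ≤ n := by nlinarith
  have hn1 : 1 ≤ n := by omega
  set g : ℤ → ℤ := fun i => if (∃ m, n ≤ m ∧ m ≤ 17 * n ∧
      R109.GT.slope w m (i / 2 ^ (17 * n - m)) = 0) then 1 else 0 with hg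
  have hcard : (((ds (17 * n - k) j).filter (fun i => ∃ m, n ≤ m ∧ m ≤ 17 * n ∧
      R109.GT.slope w m (i / 2 ^ (17 * n - m)) = 0)).card : ℤ) = ∑ i ∈ ds (17 * n - k) j, g i := by
    rw [Finset.card_filter]; push_cast; rfl
  have hsplit : ∑ i ∈ ds (17 * n - k) j, g i =
      ∑ i' ∈ ds (n - k) j, ∑ i ∈ ds (16 * n) i', g i := by
    rw [← sum_ds_add]; congr 2; omega
  -- the nodes of level `n` with a moderate slope
  have hmod : ∀ i', R109.GT.slope w n i' ^ 2 ≤ 4 * n →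
      3 * (2 : ℤ) ^ (16 * n) ≤ 32 * ∑ i ∈ ds (16 * n) i', g i := by
    intro i' hi'
    have hfar := far_count hw n hn1 n i'
    have h17 : n + 16 * n = 17 * n := by ring
    rcases le_total 0 (R109.GT.slope w n i') with h0 | h0
    · refine hfar.2.trans ?_
      refine mul_le_mul_of_nonneg_left (Finset.sum_le_sum fun i hi => ?_) (by norm_num)
      simp only [hg]
      by_cases hc : R109.GT.slope w (n + 16 * n) i - R109.GT.slope w n i' < 0 ∧
        4 * (n : ℤ) ≤ (R109.GT.slope w (n + 16 * n) i - R109.GT.slope w n i') ^ 2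
      · have hs : R109.GT.slope w (n + 16 * n) i ≤ 0 := by
          by_contra hcon
          push Not at hcon
          nlinarith
        have hz := exists_zero hw n (16 * n) i' i (mem_ds.mp hi) (Or.inl ⟨h0, hs⟩)
        rw [h17] at hz
        rw [if_pos hc, if_pos hz]
      · rw [if_neg hc]; split_ifs <;> norm_num
    · refine hfar.1.trans ?_
      refine mul_le_mul_of_nonneg_left (Finset.sum_le_sum fun i hi => ?_) (by norm_num)
      simp only [hg]
      by_cases hc : 0 < R109.GT.slope w (n + 16 * n) i - R109.GT.slope w n i' ∧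
        4 * (n : ℤ) ≤ (R109.GT.slope w (n + 16 * n) i - R109.GT.slope w n i') ^ 2
      · have hs : 0 ≤ R109.GT.slope w (n + 16 * n) i := by
          by_contra hcon
          push Not at hcon
          nlinarith
        have hz := exists_zero hw n (16 * n) i' i (mem_ds.mp hi) (Or.inr ⟨h0, hs⟩)
        rw [h17] at hz
        rw [if_pos hc, if_pos hz]
      · rw [if_neg hc]; split_ifs <;> norm_num
  -- Chebyshev
  have hsk : R109.GT.slope w k j ^ 2 ≤ (n : ℤ) - k := by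
    have h1 := abs_slope_le hw k j
    have h2 : R109.GT.slope w k j ^ 2 ≤ (k : ℤ) ^ 2 := by
      rw [← sq_abs]; exact pow_le_pow_left₀ (abs_nonneg _) h1 2
    have h3 : ((k : ℤ)) ^ 2 + k + 1 ≤ n := by exact_mod_cast hn
    linarith
  have hsum : ∑ i' ∈ ds (n - k) j, R109.GT.slope w n i' ^ 2 =
      (R109.GT.slope w k j ^ 2 + (n - k : ℕ)) * 2 ^ (n - k) := by
    have h1 := sum_ds_slope hw (fun x : ℤ => 1 * (x - 0) ^ 2 + 0) k (n - k) j
    rw [T_iter_sq, show k + (n - k) = n by omega] at h1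
    simp only [one_mul, sub_zero, add_zero] at h1
    exact h1
  have hpos : (0 : ℤ) < 2 ^ (n - k) := by positivity
  have hnz : (1 : ℤ) ≤ n := by exact_mod_cast hn1
  have hhalf : (2 : ℤ) ^ (n - k) ≤ 2 * ∑ i' ∈ ds (n - k) j,
      (if R109.GT.slope w n i' ^ 2 ≤ 4 * n then (1 : ℤ) else 0) := by
    have h1 : ∑ i' ∈ ds (n - k) j, (4 * (n : ℤ)) ≤ ∑ i' ∈ ds (n - k) j,
        (4 * (n : ℤ) * (if R109.GT.slope w n i' ^ 2 ≤ 4 * n then (1 : ℤ) else 0) +
          R109.GT.slope w n i' ^ 2) := by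
      refine Finset.sum_le_sum fun i' _ => ?_
      split_ifs with h
      · nlinarith [sq_nonneg (R109.GT.slope w n i')]
      · push Not at h; linarith
    rw [Finset.sum_const, card_ds, Finset.sum_add_distrib, hsum, ← Finset.mul_sum] at h1
    set Q := ∑ i' ∈ ds (n - k) j, (if R109.GT.slope w n i' ^ 2 ≤ 4 * n then (1 : ℤ) else 0) with hQ
    have h2 : (((n - k : ℕ) : ℤ)) = (n : ℤ) - k := by push_cast [hkn]; ring
    rw [h2] at h1
    simp only [nsmul_eq_mul] at h1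
    push_cast at h1
    have h3 : (R109.GT.slope w k j ^ 2 + ((n : ℤ) - k)) * 2 ^ (n - k) ≤ (2 * (n : ℤ)) * 2 ^ (n - k) := by
      refine mul_le_mul_of_nonneg_right ?_ hpos.le
      have : (0 : ℤ) ≤ k := by positivity
      linarith
    have h4 : (n : ℤ) * (2 * 2 ^ (n - k)) ≤ (n : ℤ) * (4 * Q) := by nlinarith
    have h5 := le_of_mul_le_mul_left h4 (by omega)
    linarith
  -- conclusion
  have hfin : (2 : ℤ) ^ (n - k) * (3 * 2 ^ (16 * n)) ≤ 64 * ∑ i ∈ ds (17 * n - k) j, g i := by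
    rw [hsplit]
    have h1 : ∑ i' ∈ ds (n - k) j, (if R109.GT.slope w n i' ^ 2 ≤ 4 * n then (1 : ℤ) else 0) *
        (3 * 2 ^ (16 * n)) ≤ 32 * ∑ i' ∈ ds (n - k) j, ∑ i ∈ ds (16 * n) i', g i := by
      rw [Finset.mul_sum]
      refine Finset.sum_le_sum fun i' _ => ?_
      split_ifs with h
      · rw [one_mul]; exact hmod i' h
      · rw [zero_mul]
        refine mul_nonneg (by norm_num) (Finset.sum_nonneg fun i _ => ?_)
        simp only [hg]; split_ifs <;> norm_num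
    rw [← Finset.sum_mul] at h1
    have h2 : (0 : ℤ) < 3 * 2 ^ (16 * n) := by positivity
    nlinarith
  rw [← hcard] at hfin
  have hfin' : (2 : ℝ) ^ (n - k) * (3 * 2 ^ (16 * n)) ≤
      64 * (((ds (17 * n - k) j).filter (fun i => ∃ m, n ≤ m ∧ m ≤ 17 * n ∧
      R109.GT.slope w m (i / 2 ^ (17 * n - m)) = 0)).card : ℝ) := by exact_mod_cast hfin
  have hpow : (2 : ℝ) ^ (17 * n - k) = 2 ^ (n - k) * 2 ^ (16 * n) := by
    rw [← pow_add]; congr 1; omega
  rw [hpow]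
  linarith

end Pool.Agent.T2h26.TL.HIT
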