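import Pool.Agent.T2h26.TL.Stm

/-! # Project TL, part INT: the finite stages are unions of intervals -/

set_option autoImplicit false

open MeasureTheory Set
open scoped ENNReal

namespace Pool.Agent.T2h26.TL.INT

open R109.GT

theorem El_congr (w : ℕ → ℤ → ℤ) (m L : ℕ) {x y : ℝ} (h : ⌊(2 : ℝ) ^ L * x⌋ = ⌊(2 : ℝ) ^ L * y⌋)
    (hx : x ∈ El w m L) : y ∈ El w m L := by
  obtain ⟨T, hT, hT2⟩ := hx
  refine ⟨T, hT, fun n hn => ⟨(hT2 n hn).1, ?_⟩⟩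
  rw [← PC.S_congr w (hT2 n hn).1 h]
  exact (hT2 n hn).2

theorem mem_nd_iff (L : ℕ) (x : ℝ) : ⌊(2 : ℝ) ^ L * x⌋ ∈ nd L ↔ x ∈ J 0 0 := by
  have h1 := floor_div 0 L x
  rw [Nat.zero_add] at h1
  have h2 : x ∈ J 0 0 ↔ ⌊(2 : ℝ) ^ 0 * x⌋ = 0 := Iff.rfl
  rw [h2, h1]
  unfold nd
  rw [Finset.mem_Ico]
  have hp : (0 : ℤ) < 2 ^ L := by positivity
  constructor
  · rintro ⟨h3, h4⟩
    exact Int.ediv_eq_zero_of_lt h3 h4
  · intro h3
    constructor
    · by_contra hneg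
      rw [not_le] at hneg
      have := Int.ediv_neg_of_neg_of_pos hneg hp
      omega
    · by_contra hge
      rw [not_lt] at hge
      have h5 := Int.le_ediv_of_mul_le hp (show 1 * 2 ^ L ≤ ⌊(2 : ℝ) ^ L * x⌋ by rwa [one_mul])
      omega

theorem J_conn (L : ℕ) (i : ℤ) : IsPreconnected (J L i) := by
  rw [PC.J_eq_Ico]
  exact isPreconnected_Ico

theorem J_nonempty (L : ℕ) (i : ℤ) : (J L i).Nonempty := by
  refine ⟨(i : ℝ) / 2 ^ L, ?_⟩
  show ⌊(2 : ℝ) ^ L * ((i : ℝ) / 2 ^ L)⌋ = i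
  rw [mul_div_cancel₀ _ (by positivity : (2 : ℝ) ^ L ≠ 0)]
  exact Int.floor_intCast i

open Classical in
theorem t_INT : S_INT := by
  intro w hw m L
  refine ⟨((nd L).filter (fun i => J L i ⊆ El w m L)).image (fun i => tak w '' J L i), ?_, ?_, ?_⟩
  · refine Finset.card_image_le.trans ((Finset.card_filter_le _ _).trans ?_)
    unfold nd
    rw [Int.card_Ico]
    have h1 : ((2 : ℤ) ^ L - 0).toNat = 2 ^ L := by
      rw [sub_zero]
      have : (2 : ℤ) ^ L = ((2 ^ L : ℕ) : ℤ) := by push_cast; rfl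
      rw [this, Int.toNat_natCast]
    rw [h1]
    exact Nat.pow_le_pow_right (by norm_num) (by omega)
  · intro I hI
    rw [Finset.mem_image] at hI
    obtain ⟨i, _, rfl⟩ := hI
    refine ⟨?_, (J_nonempty L i).image _⟩
    exact ((J_conn L i).image _ (cont w hw).continuousOn).ordConnected
  · ext y
    simp only [mem_iUnion]
    constructor
    · rintro ⟨x, ⟨hx1, hx2⟩, rfl⟩
      refine ⟨tak w '' J L ⌊(2 : ℝ) ^ L * x⌋, ?_, ⟨x, rfl, rfl⟩⟩
      rw [Finset.mem_image]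
      refine ⟨⌊(2 : ℝ) ^ L * x⌋, ?_, rfl⟩
      rw [Finset.mem_filter]
      refine ⟨(mem_nd_iff L x).2 hx2, ?_⟩
      intro z hz
      have hz' : ⌊(2 : ℝ) ^ L * z⌋ = ⌊(2 : ℝ) ^ L * x⌋ := hz
      exact El_congr w m L hz'.symm hx1
    · rintro ⟨I, hI, hy⟩
      rw [Finset.mem_image] at hI
      obtain ⟨i, hi, rfl⟩ := hI
      rw [Finset.mem_filter] at hi
      obtain ⟨x, hx, rfl⟩ := hy
      refine ⟨x, ⟨hi.2 hx, ?_⟩, rfl⟩
      rw [← mem_nd_iff L]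
      have hx' : ⌊(2 : ℝ) ^ L * x⌋ = i := hx
      rw [hx']
      exact hi.1

end Pool.Agent.T2h26.TL.INT
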