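import Pool.Agent.T2h26.TL.Stm

/-! # Project TL, part LOC: the values at the points of a node -/

set_option autoImplicit false

open MeasureTheory Set
open scoped ENNReal

namespace Pool.Agent.T2h26.TL.LOC

open R109.GT

theorem two_terms (x : ℝ) : phi x + phi (2 * x) / 2 ≤ 1 / 2 := by
  have h1 : phi x = |x - round x| := rfl
  have h0 := phi_le_half x
  rw [h1] at h0 ⊢
  rcases le_total 0 (x - round x) with h | h
  · have h2 := phi_le_abs (2 * x) (2 * round x + 1)
    rw [abs_of_nonneg h] at h0 ⊢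
    push_cast at h2
    rw [abs_of_nonpos (by linarith)] at h2
    linarith
  · have h2 := phi_le_abs (2 * x) (2 * round x - 1)
    rw [abs_of_nonpos h] at h0 ⊢
    push_cast at h2
    rw [abs_of_nonneg (by linarith)] at h2
    linarith

theorem sgn_shift {w : ℕ → ℤ → ℤ} (hw : Sgn w) (n : ℕ) : Sgn (fun m => w (n + m)) :=
  fun m j => hw (n + m) j

theorem bd (w : ℕ → ℤ → ℤ) (hw : Sgn w) (x : ℝ) : |tak w x| ≤ 3 / 4 := by
  rw [split w hw 2 x]
  have h1 := bound (fun m => w (2 + m)) (sgn_shift hw 2) ((2 : ℝ) ^ 2 * x)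
  have h2 : |part w 2 x| ≤ 1 / 2 := by
    unfold part
    rw [Finset.sum_range_succ, Finset.sum_range_one, pow_zero, pow_one, one_mul, div_one]
    refine (abs_add_le _ _).trans ?_
    have habs : ∀ n j, |(w n j : ℝ)| = 1 := fun n j => by rcases hw n j with h | h <;> simp [h]
    rw [abs_mul, abs_div, abs_mul, habs, habs, one_mul, one_mul, abs_of_nonneg (phi_nonneg _),
      abs_of_nonneg (phi_nonneg _), abs_of_pos (by norm_num : (0 : ℝ) < 2)]
    exact two_terms x
  refine (abs_add_le _ _).trans ?_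
  rw [abs_div, abs_of_pos (by norm_num : (0 : ℝ) < 2 ^ 2)]
  have h3 : |tak (fun m => w (2 + m)) ((2 : ℝ) ^ 2 * x)| / 2 ^ 2 ≤ 1 / 4 := by
    rw [div_le_iff₀ (by norm_num)]
    exact h1.trans (by norm_num)
  linarith

theorem t_LOC : S_LOC := by
  intro w hw
  refine ⟨bd w hw, fun n j x hx => ?_⟩
  have hj : ⌊(2 : ℝ) ^ n * x⌋ = j := hx
  have hS : S w n x = slope w n j := by
    unfold S
    rw [hj]
  have h1 := tak_eq w hw n x
  rw [hS, hj] at h1
  have h2 : (2 : ℝ) ^ n * tak w x = val w n j + slope w n j * ((2 : ℝ) ^ n * x - j) +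
      tak (fun m => w (n + m)) ((2 : ℝ) ^ n * x) := by
    rw [h1]
    field_simp
  have h3 := bd _ (sgn_shift hw n) ((2 : ℝ) ^ n * x)
  rw [abs_le] at h3
  have hf0 : 0 ≤ (2 : ℝ) ^ n * x - j := by
    rw [← hj]
    exact sub_nonneg.2 (Int.floor_le _)
  have hf1 : (2 : ℝ) ^ n * x - j < 1 := by
    rw [← hj]
    have := Int.lt_floor_add_one ((2 : ℝ) ^ n * x)
    linarith
  obtain ⟨f, hf⟩ : ∃ f, f = (2 : ℝ) ^ n * x - j := ⟨_, rfl⟩
  rw [← hf] at h2 hf0 hf1
  have hlo1 : (lo w n j : ℝ) ≤ val w n j := by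
    have : lo w n j ≤ val w n j := min_le_left _ _
    exact_mod_cast this
  have hlo2 : (lo w n j : ℝ) ≤ val w n j + slope w n j := by
    have : lo w n j ≤ val w n j + slope w n j := min_le_right _ _
    exact_mod_cast this
  have hhi1 : (val w n j : ℝ) ≤ hi w n j := by
    have : val w n j ≤ hi w n j := le_max_left _ _
    exact_mod_cast this
  have hhi2 : (val w n j : ℝ) + slope w n j ≤ hi w n j := by
    have : val w n j + slope w n j ≤ hi w n j := le_max_right _ _
    exact_mod_cast this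
  have h4 : (lo w n j : ℝ) ≤ val w n j + slope w n j * f := by nlinarith
  have h5 : (val w n j : ℝ) + slope w n j * f ≤ hi w n j := by nlinarith
  constructor
  · rw [Int.le_floor]
    push_cast
    linarith
  · rw [Int.floor_lt]
    push_cast
    linarith

end Pool.Agent.T2h26.TL.LOC
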