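import Pool.Agent.T2h59.TL.Base

/-!
# Project TL (helper59): LOW — few nodes have a small slope
-/

set_option autoImplicit false

open MeasureTheory Set
open scoped ENNReal

namespace Pool.Agent.T2h26.TL.LOW

open R109.GT Pool.Agent.T2h26.TL Pool.Agent.T2h59.TL

lemma cb_sq (m : ℕ) : (2 * m + 1) * (Nat.centralBinom m) ^ 2 ≤ 16 ^ m := by
  induction m with
  | zero => simp [Nat.centralBinom]
  | succ m ih =>
    have h := Nat.succ_mul_centralBinom_succ m
    have h2 : (m + 1) ^ 2 * (Nat.centralBinom (m + 1)) ^ 2 =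
        4 * (2 * m + 1) ^ 2 * (Nat.centralBinom m) ^ 2 := by
      rw [← mul_pow, h]; ring
    have h3 : (m + 1) ^ 2 * ((2 * (m + 1) + 1) * (Nat.centralBinom (m + 1)) ^ 2) ≤
        (m + 1) ^ 2 * 16 ^ (m + 1) := by
      calc (m + 1) ^ 2 * ((2 * (m + 1) + 1) * (Nat.centralBinom (m + 1)) ^ 2)
          = (2 * m + 3) * ((m + 1) ^ 2 * (Nat.centralBinom (m + 1)) ^ 2) := by ring
        _ = (4 * (2 * m + 3) * (2 * m + 1)) * ((2 * m + 1) * (Nat.centralBinom m) ^ 2) := by
          rw [h2]; ring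
        _ ≤ (4 * (2 * m + 3) * (2 * m + 1)) * 16 ^ m := Nat.mul_le_mul_left _ ih
        _ ≤ (16 * (m + 1) ^ 2) * 16 ^ m := Nat.mul_le_mul_right _ (by nlinarith)
        _ = (m + 1) ^ 2 * 16 ^ (m + 1) := by rw [pow_succ]; ring
    exact Nat.le_of_mul_le_mul_left h3 (by positivity)

lemma mid_sq (n : ℕ) : n * (n.choose (n / 2)) ^ 2 ≤ 4 ^ n := by
  obtain ⟨m, h | h⟩ : ∃ m, n = 2 * m ∨ n = 2 * m + 1 := ⟨n / 2, by omega⟩
  · subst h
    have h1 : 2 * m / 2 = m := by omega
    have h2 := cb_sq m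
    rw [Nat.centralBinom] at h2
    rw [h1, pow_mul]
    norm_num
    nlinarith
  · subst h
    have h1 : (2 * m + 1) / 2 = m := by omega
    have h2 := cb_sq (m + 1)
    have h3 : Nat.centralBinom (m + 1) = 2 * (2 * m + 1).choose m := by
      have := Nat.choose_symm_half m
      rw [Nat.centralBinom, show 2 * (m + 1) = 2 * m + 1 + 1 by ring, Nat.choose_succ_succ, this]
      ring
    rw [h3] at h2
    rw [h1]
    have h4 : (4 : ℕ) ^ (2 * m + 1) * 4 = 16 ^ (m + 1) := by
      rw [show (16 : ℕ) = 4 ^ 2 by norm_num, ← pow_mul]; ring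
    nlinarith [sq_nonneg ((2 * m + 1).choose m)]

lemma mid_le (n : ℕ) (hn : 1 ≤ n) : ((n.choose (n / 2) : ℕ) : ℝ) ≤ 2 ^ n / √n := by
  have hn' : (0 : ℝ) < n := by exact_mod_cast hn
  rw [le_div_iff₀ (Real.sqrt_pos.mpr hn')]
  have h : ((n : ℝ) * ((n.choose (n / 2) : ℕ) : ℝ) ^ 2) ≤ 4 ^ n := by exact_mod_cast mid_sq n
  refine le_of_sq_le_sq ?_ (by positivity)
  rw [mul_pow, Real.sq_sqrt hn'.le, ← pow_mul, mul_comm n 2, pow_mul]
  norm_num
  linarith

end Pool.Agent.T2h26.TL.LOW

namespace Pool.Agent.T2h26.TL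

open R109.GT Pool.Agent.T2h26.TL.LOW Pool.Agent.T2h59.TL

open Classical in
theorem LOW.t_LOW : S_LOW := by
  refine ⟨2, by norm_num, fun w hw n hn a => ?_⟩
  -- the number of the nodes
  have h1 : (((nd n).filter (fun i => |R109.GT.slope w n i| < (a : ℤ))).card : ℤ) =
      ∑ k ∈ Finset.range (n + 1), (n.choose k : ℤ) *
        (if |(0 : ℤ) + n - 2 * k| < (a : ℤ) then 1 else 0) := by
    rw [Finset.card_filter]
    push_cast
    have h := sum_ds_slope hw (fun x : ℤ => (if |x| < (a : ℤ) then (1 : ℤ) else 0)) 0 n 0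
    rw [T_iter_choose] at h
    simp only [R109.GT.slope, zero_add] at h
    rw [nd_eq]
    simp only [zero_add]
    exact h
  have h2 : (((nd n).filter (fun i => |R109.GT.slope w n i| < (a : ℤ))).card : ℤ) ≤
      (n.choose (n / 2) : ℤ) * (2 * (a + 1)) := by
    rw [h1]
    calc ∑ k ∈ Finset.range (n + 1), (n.choose k : ℤ) *
        (if |(0 : ℤ) + n - 2 * k| < (a : ℤ) then 1 else 0)
        ≤ ∑ k ∈ Finset.range (n + 1), (n.choose (n / 2) : ℤ) *
        (if |(0 : ℤ) + n - 2 * k| < (a : ℤ) then 1 else 0) := by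
          refine Finset.sum_le_sum fun k _ => ?_
          refine mul_le_mul_of_nonneg_right ?_ (by split_ifs <;> norm_num)
          exact_mod_cast Nat.choose_le_middle k n
      _ = (n.choose (n / 2) : ℤ) *
          (((Finset.range (n + 1)).filter (fun k : ℕ => |(0 : ℤ) + n - 2 * k| < (a : ℤ))).card : ℤ) := by
          rw [← Finset.mul_sum, Finset.card_filter]; push_cast; rfl
      _ ≤ (n.choose (n / 2) : ℤ) * (2 * (a + 1)) := by
          refine mul_le_mul_of_nonneg_left ?_ (by positivity)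
          have h3 : ((Finset.range (n + 1)).filter
              (fun k : ℕ => |(0 : ℤ) + n - 2 * k| < (a : ℤ))).card ≤
              (Finset.Ioo ((n : ℤ) - a) (n + a)).card := by
            refine Finset.card_le_card_of_injOn (fun k : ℕ => (2 * k : ℤ)) ?_ ?_
            · intro k hk
              simp only [Finset.coe_filter, Set.mem_ofPred_eq, abs_lt] at hk
              simp only [Finset.coe_Ioo, Set.mem_Ioo]
              omega
            · intro x _ y _ hxy
              simp only at hxy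
              omega
          rw [Int.card_Ioo] at h3
          omega
  have h4 : (((nd n).filter (fun i => |R109.GT.slope w n i| < (a : ℤ))).card : ℝ) ≤
      ((n.choose (n / 2) : ℕ) : ℝ) * (2 * (a + 1)) := by exact_mod_cast h2
  refine h4.trans ?_
  calc ((n.choose (n / 2) : ℕ) : ℝ) * (2 * (a + 1)) ≤ (2 ^ n / √n) * (2 * (a + 1)) :=
        mul_le_mul_of_nonneg_right (mid_le n hn) (by positivity)
    _ = 2 * (a + 1) / √n * 2 ^ n := by ring

end Pool.Agent.T2h26.TL
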