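import Pool.Agent.T2h26.TL.Stm

/-!
# Project TL, MAI: there is no extremal function
-/

set_option autoImplicit false

open MeasureTheory Set

namespace Pool.Agent.T2h26.TL.MAI

open R109.GT

theorem mem_ds (t : ℕ) (u c : ℤ) : c ∈ ds t u ↔ c / 2 ^ t = u := by
  unfold ds
  rw [Finset.mem_Ico]
  have h : (0:ℤ) < 2 ^ t := by positivity
  constructor
  · rintro ⟨h1, h2⟩
    apply le_antisymm
    · have : c / 2 ^ t < u + 1 := by
        rw [Int.ediv_lt_iff_lt_mul h]; linarith [mul_comm (2 ^ t) (u + 1)]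
      omega
    · rw [Int.le_ediv_iff_mul_le h]; linarith [mul_comm (2 ^ t) u]
  · intro hc
    subst hc
    constructor
    · have := Int.ediv_mul_le c (ne_of_gt h); linarith
    · have := Int.lt_ediv_add_one_mul_self c h; linarith

theorem card_ds (t : ℕ) (u : ℤ) : (ds t u).card = 2 ^ t := by
  unfold ds
  rw [Int.card_Ico]
  have : (2:ℤ) ^ t * (u + 1) - 2 ^ t * u = ((2 ^ t : ℕ) : ℤ) := by push_cast; ring
  rw [this, Int.toNat_natCast]

/-- the cells of a finer level -/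
noncomputable def blow (U : Finset ℤ) (t : ℕ) : Finset ℤ := U.biUnion (ds t)

theorem mem_blow (U : Finset ℤ) (t : ℕ) (c : ℤ) : c ∈ blow U t ↔ c / 2 ^ t ∈ U := by
  unfold blow
  rw [Finset.mem_biUnion]
  constructor
  · rintro ⟨u, hu, hc⟩
    rw [mem_ds] at hc
    rwa [hc]
  · intro h
    exact ⟨_, h, (mem_ds _ _ _).2 rfl⟩

theorem card_blow (U : Finset ℤ) (t : ℕ) : (blow U t).card = U.card * 2 ^ t := by
  unfold blow
  rw [Finset.card_biUnion]
  · rw [Finset.sum_congr rfl (fun u _ => card_ds t u), Finset.sum_const, smul_eq_mul]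
  · intro x _ y _ hxy
    show Disjoint (ds t x) (ds t y)
    rw [Finset.disjoint_left]
    intro c h1 h2
    rw [mem_ds] at h1 h2
    exact hxy (h1.symm.trans h2)

theorem div_mem_Ico (r : ℕ) (a b c : ℤ) : c / 2 ^ r ∈ Finset.Ico a b ↔
    c ∈ Finset.Ico (2 ^ r * a) (2 ^ r * b) := by
  have h : (0:ℤ) < 2 ^ r := by positivity
  rw [Finset.mem_Ico, Finset.mem_Ico, Int.le_ediv_iff_mul_le h, Int.ediv_lt_iff_lt_mul h,
    mul_comm a, mul_comm b]

theorem card_sp (w : ℕ → ℤ → ℤ) (n : ℕ) (i : ℤ) : ((hi w n i - lo w n i : ℤ)) = |slope w n i| := by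
  unfold hi lo
  rcases le_total 0 (slope w n i) with h | h
  · rw [max_eq_right (by linarith), min_eq_left (by linarith), abs_of_nonneg h]; ring
  · rw [max_eq_left (by linarith), min_eq_right (by linarith), abs_of_nonpos h]; ring

theorem nd_of_div (n m : ℕ) (i : ℤ) (h : i / 2 ^ m ∈ nd n) : i ∈ nd (n + m) := by
  unfold nd at *
  rw [div_mem_Ico, mul_zero] at h
  rwa [pow_add, mul_comm (2 ^ n)]

theorem div_div (c : ℤ) (a b : ℕ) : c / 2 ^ a / 2 ^ b = c / 2 ^ (a + b) := by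
  rw [Int.ediv_ediv_of_nonneg (by positivity), pow_add]


open Classical in
/-- the weight above a cell -/
noncomputable def B (w : ℕ → ℤ → ℤ) (n r : ℕ) (LL : Finset ℤ) (c : ℤ) : ℝ :=
  ∑ i ∈ LL.filter (fun i => c / 2 ^ r ∈ sp w n i), 1 / |(slope w n i : ℝ)|

open Classical in
/-- the weight above a cell of the nodes whose slope grows by a factor `R` on the spine -/
noncomputable def T (w : ℕ → ℤ → ℤ) (n r R : ℕ) (LL : Finset ℤ) (c : ℤ) : ℝ :=
  ∑ i ∈ LL.filter (fun i => c / 2 ^ r ∈ sp w n i ∧ ∃ t' ≤ r,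
    ((R * (slope w n i).natAbs : ℕ) : ℤ) ≤ |slope w (n + t') (dsc w n i t' (c / 2 ^ (r - t')))|),
    1 / |(slope w n i : ℝ)|

theorem sum_swap {U' LL : Finset ℤ} (p : ℤ → ℤ → Prop) [∀ c, DecidablePred (p c)]
    [∀ i, DecidablePred (fun c => p c i)] (f : ℤ → ℝ) :
    ∑ c ∈ U', ∑ i ∈ LL.filter (p c), f i =
      ∑ i ∈ LL, ((U'.filter (fun c => p c i)).card : ℝ) * f i := by
  have h1 : ∀ c ∈ U', ∑ i ∈ LL.filter (p c), f i = ∑ i ∈ LL, if p c i then f i else 0 :=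
    fun c _ => Finset.sum_filter _ _
  rw [Finset.sum_congr rfl h1, Finset.sum_comm]
  refine Finset.sum_congr rfl fun i _ => ?_
  rw [← nsmul_eq_mul, ← Finset.sum_const, Finset.sum_filter]

open Classical in
theorem sum_B (w : ℕ → ℤ → ℤ) (n r : ℕ) (LL U' : Finset ℤ) (h0 : ∀ i ∈ LL, slope w n i ≠ 0)
    (hU : ∀ i ∈ LL, ∀ c, c / 2 ^ r ∈ sp w n i → c ∈ U') :
    ∑ c ∈ U', B w n r LL c = LL.card * 2 ^ r := by
  unfold B
  rw [sum_swap (fun c i => c / 2 ^ r ∈ sp w n i) (fun i => 1 / |(slope w n i : ℝ)|)]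
  rw [← nsmul_eq_mul, ← Finset.sum_const]
  refine Finset.sum_congr rfl fun i hi' => ?_
  have h1 : U'.filter (fun c => c / 2 ^ r ∈ sp w n i) =
      Finset.Ico (2 ^ r * lo w n i) (2 ^ r * hi w n i) := by
    ext c
    rw [Finset.mem_filter, sp, div_mem_Ico]
    constructor
    · exact fun h => h.2
    · exact fun h => ⟨hU i hi' c (by rw [sp, div_mem_Ico]; exact h), h⟩
  have h2 : ((U'.filter (fun c => c / 2 ^ r ∈ sp w n i)).card : ℝ) =
      2 ^ r * |(slope w n i : ℝ)| := by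
    rw [h1, Int.card_Ico, ← mul_sub, card_sp]
    have h3 : (0:ℤ) ≤ 2 ^ r * |slope w n i| := by positivity
    have h4 : (((2 ^ r * |slope w n i|).toNat : ℤ) : ℝ) = ((2 ^ r * |slope w n i| : ℤ) : ℝ) := by
      rw [Int.toNat_of_nonneg h3]
    push_cast at h4
    rw [← h4]
  rw [h2]
  have h5 : (0:ℝ) < |(slope w n i : ℝ)| := abs_pos.2 (by exact_mod_cast h0 i hi')
  field_simp

open Classical in
theorem sum_T (hMAX : S_MAX) (w : ℕ → ℤ → ℤ) (hw : Sgn w) (n r R σ : ℕ) (hR : 1 ≤ R) (hσ : 1 ≤ σ)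
    (LL U' : Finset ℤ) (h0 : ∀ i ∈ LL, (σ : ℤ) ≤ |slope w n i|) :
    ∑ c ∈ U', T w n r R LL c ≤ LL.card * 2 ^ r * ((1 + 3 * r / σ ^ 2) / R ^ 2) := by
  unfold T
  rw [sum_swap (fun c i => c / 2 ^ r ∈ sp w n i ∧ ∃ t' ≤ r,
    ((R * (slope w n i).natAbs : ℕ) : ℤ) ≤ |slope w (n + t') (dsc w n i t' (c / 2 ^ (r - t')))|)
    (fun i => 1 / |(slope w n i : ℝ)|)]
  rw [mul_assoc, ← nsmul_eq_mul, ← Finset.sum_const]
  refine Finset.sum_le_sum fun i hi' => ?_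
  have hm := hMAX w hw n i r (R * (slope w n i).natAbs)
  have h1 : ((U'.filter (fun c => c / 2 ^ r ∈ sp w n i ∧ ∃ t' ≤ r,
      ((R * (slope w n i).natAbs : ℕ) : ℤ) ≤
        |slope w (n + t') (dsc w n i t' (c / 2 ^ (r - t')))|)).card : ℝ) ≤
      (((Finset.Ico (2 ^ r * lo w n i) (2 ^ r * hi w n i)).filter (fun c => ∃ t' ≤ r,
    ((R * (slope w n i).natAbs : ℕ) : ℤ) ≤
      |slope w (n + t') (dsc w n i t' (c / 2 ^ (r - t')))|)).card : ℝ) := by
    refine Nat.cast_le.2 (Finset.card_le_card ?_)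
    intro c hc
    rw [Finset.mem_filter] at hc ⊢
    refine ⟨?_, hc.2.2⟩
    have := hc.2.1
    rwa [sp, div_mem_Ico] at this
  set N := (((Finset.Ico (2 ^ r * lo w n i) (2 ^ r * hi w n i)).filter (fun c => ∃ t' ≤ r,
    ((R * (slope w n i).natAbs : ℕ) : ℤ) ≤
      |slope w (n + t') (dsc w n i t' (c / 2 ^ (r - t')))|)).card) with hN
  have hσi := h0 i hi'
  have hs : (σ : ℝ) ≤ |(slope w n i : ℝ)| := by exact_mod_cast hσi
  set s : ℝ := |(slope w n i : ℝ)| with hsdef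
  have hσ' : (1:ℝ) ≤ σ := by exact_mod_cast hσ
  have hs1 : 1 ≤ s := hσ'.trans hs
  have hR' : (1:ℝ) ≤ R := by exact_mod_cast hR
  have hm' : (N : ℝ) * (R * s) ^ 2 ≤ (s ^ 2 + 3 * r) * s * 2 ^ r := by
    have h2 : ((N : ℤ) : ℝ) * (((R * (slope w n i).natAbs : ℕ) : ℤ) : ℝ) ^ 2 ≤
        (((slope w n i : ℤ) : ℝ) ^ 2 + 3 * r) * |(slope w n i : ℝ)| * 2 ^ r := by
      exact_mod_cast hm
    have h3 : (((R * (slope w n i).natAbs : ℕ) : ℤ) : ℝ) = R * s := by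
      push_cast
      rw [hsdef]
    rw [h3] at h2
    have h4 : ((slope w n i : ℤ) : ℝ) ^ 2 = s ^ 2 := by rw [hsdef, sq_abs]
    rw [h4, ← hsdef] at h2
    have h6 : ((N : ℤ) : ℝ) = (N : ℝ) := Int.cast_natCast N
    rwa [h6] at h2
  have h5 : (N : ℝ) ≤ (s ^ 2 + 3 * r) * s * 2 ^ r / (R * s) ^ 2 := by
    rw [le_div_iff₀ (by positivity)]
    exact hm'
  calc _ ≤ (N : ℝ) * (1 / s) := by
        refine mul_le_mul_of_nonneg_right h1 (by positivity)
    _ ≤ (s ^ 2 + 3 * r) * s * 2 ^ r / (R * s) ^ 2 * (1 / s) := by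
        exact mul_le_mul_of_nonneg_right h5 (by positivity)
    _ = 2 ^ r * ((1 + 3 * r / s ^ 2) / R ^ 2) := by
        field_simp
    _ ≤ 2 ^ r * ((1 + 3 * r / σ ^ 2) / R ^ 2) := by
        gcongr


open Classical in
theorem B_le (hSPI : S_SPI) (w : ℕ → ℤ → ℤ) (hw : Sgn w) (n r R σ s₀ : ℕ) (hσ : 1 ≤ σ)
    (hR : 1 ≤ R) (LL : Finset ℤ) (hLL : ∀ i ∈ LL, i ∈ nd n ∧ (σ : ℤ) ≤ |slope w n i|) (m' : ℕ)
    (hm' : m' ≤ r) (c : ℤ) (a1 a2 : ℝ)
    (hQ : (((nd (n + m')).filter (fun j => c / 2 ^ (r - m') ∈ sp w (n + m') j ∧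
      |slope w (n + m') j| < (s₀ : ℤ))).card : ℝ) ≤ a1)
    (hP : ∑ i ∈ (nd (n + m')).filter (fun i => c / 2 ^ (r - m') ∈ sp w (n + m') i ∧
      (s₀ : ℤ) ≤ |slope w (n + m') i|), 1 / |(slope w (n + m') i : ℝ)| ≤ a2) :
    B w n r LL c ≤ a1 / σ + R * a2 + T w n r R LL c := by
  set c₁ := c / 2 ^ (r - m') with hc₁
  set d : ℤ → ℤ := fun i => dsc w n i m' c₁ with hd
  have hcd : c₁ / 2 ^ m' = c / 2 ^ r := by
    rw [hc₁, div_div, Nat.sub_add_cancel hm']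
  set F := LL.filter (fun i => c / 2 ^ r ∈ sp w n i) with hF
  have hσ' : (1:ℝ) ≤ σ := by exact_mod_cast hσ
  have hσs : ∀ i ∈ F, (σ : ℝ) ≤ |(slope w n i : ℝ)| := fun i hi' => by
    have := (hLL i (Finset.mem_filter.1 hi').1).2
    exact_mod_cast this
  have hs0 : ∀ i ∈ F, slope w n i ≠ 0 := fun i hi' h => by
    have := hσs i hi'
    rw [h] at this
    simp at this
    linarith
  have key : ∀ i ∈ F, c₁ ∈ sp w (n + m') (d i) ∧ d i / 2 ^ m' = i ∧
      slope w (n + m') (d i) ≠ 0 := fun i hi' => by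
    have h := hSPI w hw n i (hs0 i hi') m' c₁ (by rw [hcd]; exact (Finset.mem_filter.1 hi').2)
    exact ⟨h.1, h.2.1, h.2.2.2.1⟩
  have hnd : ∀ i ∈ F, d i ∈ nd (n + m') := fun i hi' => by
    apply nd_of_div
    rw [(key i hi').2.1]
    exact (hLL i (Finset.mem_filter.1 hi').1).1
  have hinj : Set.InjOn d F := by
    intro i hi' i' hi'' h
    rw [← (key i hi').2.1, ← (key i' hi'').2.1, h]
  -- the three parts
  have hsplit : B w n r LL c ≤ ∑ i ∈ F, ((if |slope w (n + m') (d i)| < (s₀ : ℤ) then 1 / (σ:ℝ) else 0)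
      + (if (s₀ : ℤ) ≤ |slope w (n + m') (d i)| then R * (1 / |(slope w (n + m') (d i) : ℝ)|) else 0)
      + (if ((R * (slope w n i).natAbs : ℕ) : ℤ) ≤ |slope w (n + m') (d i)| then
          1 / |(slope w n i : ℝ)| else 0)) := by
    unfold B
    refine Finset.sum_le_sum fun i hi' => ?_
    have h1 := hσs i hi'
    have h2 : (0:ℝ) < |(slope w n i : ℝ)| := by linarith
    have h3 : (0:ℝ) < |(slope w (n + m') (d i) : ℝ)| := abs_pos.2 (by exact_mod_cast (key i hi').2.2)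
    have e1 : (0:ℝ) ≤ (if |slope w (n + m') (d i)| < (s₀ : ℤ) then 1 / (σ:ℝ) else 0) := by
      split_ifs <;> positivity
    have e2 : (0:ℝ) ≤ (if (s₀ : ℤ) ≤ |slope w (n + m') (d i)| then
        R * (1 / |(slope w (n + m') (d i) : ℝ)|) else 0) := by
      split_ifs <;> positivity
    have e3 : (0:ℝ) ≤ (if ((R * (slope w n i).natAbs : ℕ) : ℤ) ≤ |slope w (n + m') (d i)| then
          1 / |(slope w n i : ℝ)| else 0) := by
      split_ifs <;> positivity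
    by_cases hA : |slope w (n + m') (d i)| < (s₀ : ℤ)
    · rw [if_pos hA] at e1 ⊢
      have : 1 / |(slope w n i : ℝ)| ≤ 1 / (σ:ℝ) := one_div_le_one_div_of_le (by linarith) h1
      linarith
    · by_cases hC : ((R * (slope w n i).natAbs : ℕ) : ℤ) ≤ |slope w (n + m') (d i)|
      · rw [if_pos hC] at e3 ⊢
        linarith
      · have hB : (s₀ : ℤ) ≤ |slope w (n + m') (d i)| := not_lt.1 hA
        rw [if_pos hB] at e2 ⊢
        have h4 : (|slope w (n + m') (d i)| : ℤ) ≤ ((R * (slope w n i).natAbs : ℕ) : ℤ) :=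
          (not_le.1 hC).le
        have h5 : |(slope w (n + m') (d i) : ℝ)| ≤ R * |(slope w n i : ℝ)| := by
          have h6 : ((|slope w (n + m') (d i)| : ℤ) : ℝ) ≤
              (((R * (slope w n i).natAbs : ℕ) : ℤ) : ℝ) := Int.cast_le.2 h4
          rw [Int.cast_abs] at h6
          push_cast at h6
          exact h6
        have h7 : 1 / |(slope w n i : ℝ)| ≤ R * (1 / |(slope w (n + m') (d i) : ℝ)|) := by
          rw [mul_one_div, div_le_div_iff₀ h2 h3]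
          linarith
        linarith
  rw [Finset.sum_add_distrib, Finset.sum_add_distrib] at hsplit
  have p1 : ∑ i ∈ F, (if |slope w (n + m') (d i)| < (s₀ : ℤ) then 1 / (σ:ℝ) else 0) ≤ a1 / σ := by
    rw [← Finset.sum_filter, Finset.sum_const, nsmul_eq_mul, mul_one_div]
    refine div_le_div_of_nonneg_right (le_trans (Nat.cast_le.2 ?_) hQ) (by linarith)
    apply Finset.card_le_card_of_injOn d
    · intro i hi'
      have hi'' := Finset.mem_filter.1 hi'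
      exact Finset.mem_coe.2 (Finset.mem_filter.2 ⟨hnd i hi''.1, (key i hi''.1).1, hi''.2⟩)
    · intro i hi' i' hi'' h
      exact hinj (Finset.mem_filter.1 hi').1 (Finset.mem_filter.1 hi'').1 h
  have p2 : ∑ i ∈ F, (if (s₀ : ℤ) ≤ |slope w (n + m') (d i)| then
      R * (1 / |(slope w (n + m') (d i) : ℝ)|) else 0) ≤ R * a2 := by
    rw [← Finset.sum_filter, ← Finset.mul_sum]
    refine mul_le_mul_of_nonneg_left (le_trans ?_ hP) (by positivity)
    have h8 : ∑ i ∈ F.filter (fun i => (s₀ : ℤ) ≤ |slope w (n + m') (d i)|),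
        1 / |(slope w (n + m') (d i) : ℝ)| =
        ∑ x ∈ (F.filter (fun i => (s₀ : ℤ) ≤ |slope w (n + m') (d i)|)).image d,
        1 / |(slope w (n + m') x : ℝ)| := by
      rw [Finset.sum_image]
      intro i hi' i' hi'' h
      exact hinj (Finset.mem_filter.1 hi').1 (Finset.mem_filter.1 hi'').1 h
    rw [h8]
    refine Finset.sum_le_sum_of_subset_of_nonneg ?_ (fun _ _ _ => by positivity)
    intro x hx
    obtain ⟨i, hi', rfl⟩ := Finset.mem_image.1 hx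
    have hi'' := Finset.mem_filter.1 hi'
    exact Finset.mem_filter.2 ⟨hnd i hi''.1, (key i hi''.1).1, hi''.2⟩
  have p3 : ∑ i ∈ F, (if ((R * (slope w n i).natAbs : ℕ) : ℤ) ≤ |slope w (n + m') (d i)| then
          1 / |(slope w n i : ℝ)| else 0) ≤ T w n r R LL c := by
    rw [← Finset.sum_filter]
    unfold T
    refine Finset.sum_le_sum_of_subset_of_nonneg ?_ (fun _ _ _ => by positivity)
    intro i hi'
    have hi'' := Finset.mem_filter.1 hi'
    have hi3 := Finset.mem_filter.1 hi''.1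
    exact Finset.mem_filter.2 ⟨hi3.1, hi3.2, m', hm', hi''.2⟩
  linarith


theorem T_nonneg (w : ℕ → ℤ → ℤ) (n r R : ℕ) (LL : Finset ℤ) (c : ℤ) : 0 ≤ T w n r R LL c :=
  Finset.sum_nonneg fun _ _ => by positivity

theorem card_nd (n : ℕ) : (nd n).card = 2 ^ n := by
  unfold nd
  rw [Int.card_Ico]
  have : (2:ℤ) ^ n - 0 = ((2 ^ n : ℕ) : ℤ) := by push_cast; ring
  rw [this, Int.toNat_natCast]

theorem arith (M τ X a b p₀ u g l d ζ : ℝ) (hM : 0 < M) (hX : 0 < X) (hτ0 : 0 < τ)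
    (hτ4 : τ ≤ 1 / 4) (hτp : τ ≤ p₀ / 64) (hb : b = (1 + τ) / M) (ha : a ≤ 1 / (2 * M))
    (hg : 0 ≤ g) (hu : u ≤ (1 + τ) * M * X) (hl : (1 - 3 * τ) * X ≤ l) (hd : 1 - τ ≤ d)
    (hgd : M / 2 * (p₀ * d) ≤ g / X) (hζ : ζ ≤ τ * X) (hmain : l ≤ (u - g) * b + (g * a + ζ)) :
    False := by
  have hMb : b * M = 1 + τ := by rw [hb]; field_simp
  have h1 : u * b ≤ (1 + τ) ^ 2 * X := by
    have hb0 : 0 ≤ b := by rw [hb]; positivity
    calc u * b ≤ (1 + τ) * M * X * b := mul_le_mul_of_nonneg_right hu hb0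
      _ = (1 + τ) * X * (b * M) := by ring
      _ = (1 + τ) ^ 2 * X := by rw [hMb]; ring
  have h2 : g * (1 / (2 * M)) ≤ g * (b - a) := by
    apply mul_le_mul_of_nonneg_left _ hg
    have : 1 / M ≤ b := by rw [hb]; gcongr; linarith
    have h3 : 1 / M = 1 / (2 * M) + 1 / (2 * M) := by field_simp; norm_num
    linarith
  have h4 : M / 2 * (p₀ * (1 - τ)) ≤ g / X := by
    refine le_trans ?_ hgd
    have hp : 0 < p₀ := by linarith
    gcongr
  have h5 : M / 2 * (p₀ * (1 - τ)) * X ≤ g := by rwa [le_div_iff₀ hX] at h4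
  have h6 : p₀ * (1 - τ) / 4 * X ≤ g * (1 / (2 * M)) := by
    have : g * (1 / (2 * M)) ≥ (M / 2 * (p₀ * (1 - τ)) * X) * (1 / (2 * M)) :=
      mul_le_mul_of_nonneg_right h5 (by positivity)
    have h7 : (M / 2 * (p₀ * (1 - τ)) * X) * (1 / (2 * M)) = p₀ * (1 - τ) / 4 * X := by
      field_simp; ring
    linarith
  have h8 : (1 - 3 * τ) * X + p₀ * (1 - τ) / 4 * X ≤ (1 + τ) ^ 2 * X + τ * X := by nlinarith
  have h9 : (1 - 3 * τ) + p₀ * (1 - τ) / 4 ≤ (1 + τ) ^ 2 + τ := by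
    have : ((1 - 3 * τ) + p₀ * (1 - τ) / 4) * X ≤ ((1 + τ) ^ 2 + τ) * X := by linarith
    exact le_of_mul_le_mul_right this hX
  have h10 : 64 * τ * (3 / 4) ≤ p₀ * (1 - τ) := by
    have : 64 * τ ≤ p₀ := by linarith
    have h11 : (3:ℝ) / 4 ≤ 1 - τ := by linarith
    exact mul_le_mul this h11 (by norm_num) (by linarith)
  nlinarith

open Classical in
theorem t_MAI (hSPI : S_SPI) (hNST : S_NST) (hMAX : S_MAX) (hLOW : S_LOW) (hHIT : S_HIT)
    (hPT : S_PT) (hQB : S_QB) (hPLP : S_PLP) (hGOO : S_GOO) (hSEL : S_SEL) : S_MAI := by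
  intro w M A hE
  have hM := hE.pos
  have hw := hE.sgn
  obtain ⟨p₀, hp₀, C₁, hC₁, hH⟩ := hHIT
  obtain ⟨C, hC, hL⟩ := hLOW
  -- constants
  obtain ⟨τ, hτ0, hτ4, hτp⟩ : ∃ τ : ℝ, 0 < τ ∧ τ ≤ 1 / 4 ∧ τ ≤ p₀ / 64 :=
    ⟨min (1 / 4) (p₀ / 64), by positivity, min_le_left _ _, min_le_right _ _⟩
  obtain ⟨δ, hδ0, hδ⟩ : ∃ δ : ℝ, 0 < δ ∧ C * δ = τ := ⟨τ / C, by positivity, by field_simp⟩
  obtain ⟨R, hR1, hR⟩ : ∃ R : ℕ, 1 ≤ R ∧ (1 + 3 * C₁ / δ ^ 2) / (R : ℝ) ^ 2 ≤ τ := by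
    obtain ⟨R, hR⟩ := exists_nat_ge ((1 + 3 * C₁ / δ ^ 2) / τ)
    refine ⟨R + 1, by omega, ?_⟩
    rw [div_le_iff₀ (by positivity)]
    rw [div_le_iff₀ hτ0] at hR
    have h1 : (0:ℝ) ≤ R := Nat.cast_nonneg R
    push_cast
    have h2 : τ * (R:ℝ) ≤ τ * (R + 1) ^ 2 := mul_le_mul_of_nonneg_left (by nlinarith) hτ0.le
    linarith
  obtain ⟨K, s₀, hs₀, hPL⟩ := hPLP w M A hE (1 / (4 * M * R)) (by
    have : (0:ℝ) < R := by exact_mod_cast hR1
    positivity)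
  obtain ⟨s₁, hs₁, hPT'⟩ := hPT τ hτ0
  obtain ⟨k, U, hU, hGd⟩ := hGOO w M A hE τ hτ0
  obtain ⟨n₀, hkn₀, hn₀⟩ := hH k
  -- the level
  obtain ⟨n, hnn₀, hnK, hn1, hnY⟩ : ∃ n : ℕ, n₀ ≤ n ∧ K ≤ n ∧ 1 ≤ n ∧
      2 * C / τ + (8 * s₀ + s₁ + 1) / δ ≤ √(n : ℝ) := by
    set Y : ℝ := 2 * C / τ + (8 * s₀ + s₁ + 1) / δ with hY
    refine ⟨max (max n₀ K) (max 1 ⌈Y ^ 2⌉₊), by omega, by omega, by omega, ?_⟩
    apply Real.le_sqrt_of_sq_le
    calc Y ^ 2 ≤ (⌈Y ^ 2⌉₊ : ℝ) := Nat.le_ceil _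
      _ ≤ _ := by exact_mod_cast (by omega)
  have hn1' : (1:ℝ) ≤ n := by exact_mod_cast hn1
  have hsqn : (0:ℝ) < √(n:ℝ) := Real.sqrt_pos.2 (by linarith)
  have hY1 : 2 * C / τ ≤ √(n:ℝ) := by
    have : (0:ℝ) ≤ (8 * s₀ + s₁ + 1) / δ := by positivity
    linarith
  have hY2 : (8 * s₀ + s₁ + 1) / δ ≤ √(n:ℝ) := by
    have : (0:ℝ) ≤ 2 * C / τ := by positivity
    linarith
  have hY3 : (8 * s₀ + s₁ + 1 : ℝ) ≤ δ * √(n:ℝ) := by
    rw [div_le_iff₀ hδ0] at hY2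
    linarith
  set σ := ⌈δ * √(n:ℝ)⌉₊ with hσ
  have hσ1 : δ * √(n:ℝ) ≤ σ := Nat.le_ceil _
  have hσ2 : (σ : ℝ) ≤ δ * √(n:ℝ) + 1 := (Nat.ceil_lt_add_one (by positivity)).le
  have hσ3 : (8 * s₀ + s₁ + 1 : ℝ) ≤ σ := hY3.trans hσ1
  have hσ4 : 8 * s₀ + s₁ + 1 ≤ σ := by exact_mod_cast hσ3
  have hσpos : (0:ℝ) < σ := by have : (0:ℝ) ≤ 8 * s₀ + s₁ := by positivity
                               linarith
  have hkn : k ≤ n := hkn₀.trans hnn₀
  obtain ⟨e, rfl⟩ : ∃ e, n = k + e := ⟨n - k, by omega⟩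
  set n := k + e with hn
  obtain ⟨q, hq⟩ : ∃ q, C₁ * n = n + q := ⟨C₁ * n - n, by
    have : n ≤ C₁ * n := Nat.le_mul_of_pos_left n hC₁
    omega⟩
  set r := q + K with hr
  set D := (nd k).filter (fun j => Finset.Ico (lo w k j - 1) (hi w k j + 1) ⊆ U) with hD
  have hDk : D ⊆ nd k := Finset.filter_subset _ _
  obtain ⟨G, hG1, hG2⟩ := hSEL w M A hE K
    (fun m c₀ => ∑ i ∈ (nd m).filter (fun i => c₀ ∈ sp w m i ∧ (s₀ : ℤ) ≤ |slope w m i|),
      1 / |(slope w m i : ℝ)| ≤ 1 / (4 * M * R)) hPL p₀ k n (C₁ * n) U D hkn (by omega) hDk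
    (fun j hj => (Finset.mem_filter.1 hj).2) (fun j hj => hn₀ n hnn₀ w hw j (hDk hj))
  -- the nodes of level `n`
  set LL := (blow D e).filter (fun i => (σ : ℤ) ≤ |slope w n i|) with hLL
  have hLLnd : ∀ i ∈ LL, i ∈ nd n ∧ (σ : ℤ) ≤ |slope w n i| := by
    intro i hi'
    rw [hLL, Finset.mem_filter, mem_blow] at hi'
    exact ⟨nd_of_div k e i (hDk hi'.1), hi'.2⟩
  have hcardLL : (1 - 3 * τ) * 2 ^ n ≤ (LL.card : ℝ) := by
    have h1 : (blow D e).card ≤ LL.card + ((nd n).filter (fun i => |slope w n i| < (σ : ℤ))).card := by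
      rw [← Finset.card_filter_add_card_filter_not (s := blow D e) (fun i => (σ : ℤ) ≤ |slope w n i|)]
      refine Nat.add_le_add_left (Finset.card_le_card ?_) _
      intro i hi'
      rw [Finset.mem_filter, mem_blow] at hi'
      exact Finset.mem_filter.2 ⟨nd_of_div k e i (hDk hi'.1), not_le.1 hi'.2⟩
    have h2 := hL w hw n hn1 σ
    have h3 : C * (σ + 1) / √(n:ℝ) ≤ 2 * τ := by
      rw [div_le_iff₀ hsqn]
      rw [div_le_iff₀ hτ0] at hY1
      have : C * (σ + 1) ≤ C * (δ * √(n:ℝ) + 2) := by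
        apply mul_le_mul_of_nonneg_left _ hC.le
        linarith
      have h4 : C * (δ * √(n:ℝ) + 2) = τ * √(n:ℝ) + 2 * C := by rw [mul_add, ← mul_assoc, hδ]; ring
      nlinarith
    have h4 : (((nd n).filter (fun i => |slope w n i| < (σ : ℤ))).card : ℝ) ≤ 2 * τ * 2 ^ n :=
      h2.trans (mul_le_mul_of_nonneg_right h3 (by positivity))
    have h5 : ((blow D e).card : ℝ) ≤
        LL.card + (((nd n).filter (fun i => |slope w n i| < (σ : ℤ))).card : ℝ) := by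
      exact_mod_cast h1
    have h6 : ((blow D e).card : ℝ) = D.card * 2 ^ e := by rw [card_blow]; push_cast; ring
    have h7 : (1 - τ) * 2 ^ n ≤ (D.card : ℝ) * 2 ^ e := by
      calc (1 - τ) * 2 ^ n = ((1 - τ) * 2 ^ k) * 2 ^ e := by rw [hn, pow_add]; ring
        _ ≤ _ := mul_le_mul_of_nonneg_right hGd (by positivity)
    linarith
  have hcardLL2 : (LL.card : ℝ) ≤ 2 ^ n := by
    have : LL.card ≤ (nd n).card := Finset.card_le_card fun i hi' => (hLLnd i hi').1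
    rw [card_nd] at this
    exact_mod_cast this
  -- the cells
  set U' := blow U (e + r) with hU'
  have hexp : C₁ * n + K - k = e + r := by omega
  have hGU : G ⊆ U' := by
    intro c hc
    rw [hU', mem_blow, ← hexp]
    exact (hG1 c hc).1
  have hUU : ∀ i ∈ LL, ∀ c, c / 2 ^ r ∈ sp w n i → c ∈ U' := by
    intro i hi' c hc
    rw [hU', mem_blow, add_comm e r, ← div_div]
    rw [hLL, Finset.mem_filter, mem_blow, hD, Finset.mem_filter] at hi'
    apply hi'.1.2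
    have h1 := hNST w hw k (i / 2 ^ e) e i ((mem_ds _ _ _).2 rfl)
    rw [div_mem_Ico, Finset.mem_Ico]
    rw [sp, Finset.mem_Ico] at hc
    constructor
    · linarith [h1.1, hc.1]
    · linarith [h1.2, hc.2]
  have hσ0 : ∀ i ∈ LL, slope w n i ≠ 0 := by
    intro i hi' h
    have := (hLLnd i hi').2
    rw [h, abs_zero] at this
    omega
  have hBsum := sum_B w n r LL U' hσ0 hUU
  have hTsum := sum_T hMAX w hw n r R σ hR1 (by omega) LL U' (fun i hi' => (hLLnd i hi').2)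
  have hTsum2 : ∑ c ∈ U', T w n r R LL c ≤ τ * 2 ^ (n + r) := by
    refine hTsum.trans ?_
    have h1 : (3 * r / σ ^ 2 : ℝ) ≤ 3 * C₁ / δ ^ 2 := by
      rw [div_le_div_iff₀ (by positivity) (by positivity)]
      have h2 : (r : ℝ) ≤ C₁ * n := by
        have : r ≤ C₁ * n := by omega
        exact_mod_cast this
      have h3 : δ ^ 2 * n ≤ σ ^ 2 := by
        have h4 : (δ * √(n:ℝ)) ^ 2 ≤ (σ:ℝ) ^ 2 := by
          have : 0 ≤ δ * √(n:ℝ) := by positivity
          gcongr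
        rw [mul_pow, Real.sq_sqrt (by linarith)] at h4
        exact h4
      have h5 : (0:ℝ) ≤ C₁ := Nat.cast_nonneg _
      calc 3 * (r:ℝ) * δ ^ 2 ≤ 3 * (C₁ * n) * δ ^ 2 := by gcongr
        _ = 3 * C₁ * (δ ^ 2 * n) := by ring
        _ ≤ 3 * C₁ * σ ^ 2 := by gcongr
    have h2 : ((1 + 3 * r / σ ^ 2) / R ^ 2 : ℝ) ≤ τ := by
      refine le_trans ?_ hR
      have : (0:ℝ) < R := by exact_mod_cast hR1
      gcongr
    calc (LL.card : ℝ) * 2 ^ r * ((1 + 3 * r / σ ^ 2) / R ^ 2) ≤ 2 ^ n * 2 ^ r * τ := by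
          gcongr
      _ = τ * 2 ^ (n + r) := by rw [pow_add]; ring
  have hBle : ∀ c, B w n r LL c ≤ (1 + τ) / M := by
    intro c
    refine le_trans ?_ (hPT' w M A hE n (c / 2 ^ r))
    unfold B
    refine Finset.sum_le_sum_of_subset_of_nonneg ?_ (fun _ _ _ => by positivity)
    intro i hi'
    have hi'' := Finset.mem_filter.1 hi'
    refine Finset.mem_filter.2 ⟨(hLLnd i hi''.1).1, hi''.2, ?_⟩
    have := (hLLnd i hi''.1).2
    omega
  have hBG : ∀ c ∈ G, B w n r LL c ≤ ((2 * s₀ / M) / σ + R * (1 / (4 * M * R))) + T w n r R LL c := by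
    intro c hc
    obtain ⟨m, hm1, hm2, hPm⟩ := (hG1 c hc).2
    obtain ⟨m', rfl⟩ : ∃ m', m = n + m' := ⟨m - n, by omega⟩
    have hexp2 : C₁ * n + K - (n + m') = r - m' := by omega
    rw [hexp2] at hPm
    refine B_le hSPI w hw n r R σ s₀ (by omega) hR1 LL hLLnd m' (by omega) c _ _ ?_ hPm
    have := hQB w M A hE (n + m') (c / 2 ^ (r - m')) s₀
    rw [le_div_iff₀ hM]
    exact this
  refine arith M τ (2 ^ (n + r)) ((2 * s₀ / M) / σ + R * (1 / (4 * M * R))) ((1 + τ) / M) p₀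
    (U'.card) (G.card) (LL.card * 2 ^ r) (D.card / 2 ^ k) (∑ c ∈ U', T w n r R LL c) hM
    (by positivity) hτ0 hτ4 hτp rfl ?_ (Nat.cast_nonneg _) ?_ ?_ ?_ ?_ hTsum2 ?_
  · have hRpos : (0:ℝ) < R := by exact_mod_cast hR1
    have h1 : (R : ℝ) * (1 / (4 * M * R)) = 1 / (4 * M) := by field_simp
    have h2 : (2 * s₀ / M) / σ ≤ 1 / (4 * M) := by
      rw [_root_.div_div, div_le_div_iff₀ (by positivity) (by positivity)]
      have : (8 * s₀ : ℝ) ≤ σ := by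
        have : (0:ℝ) ≤ s₁ + 1 := by positivity
        linarith
      nlinarith
    rw [h1]
    have h3 : 1 / (2 * M) = 1 / (4 * M) + 1 / (4 * M) := by field_simp; norm_num
    linarith
  · have h1 : (U'.card : ℝ) = U.card * 2 ^ (e + r) := by rw [hU', card_blow]; push_cast; ring
    rw [h1]
    calc (U.card : ℝ) * 2 ^ (e + r) ≤ ((1 + τ) * M * 2 ^ k) * 2 ^ (e + r) := by gcongr
      _ = (1 + τ) * M * 2 ^ (n + r) := by rw [hn, mul_assoc, ← pow_add, ← add_assoc]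
  · calc (1 - 3 * τ) * 2 ^ (n + r) = ((1 - 3 * τ) * 2 ^ n) * 2 ^ r := by rw [pow_add]; ring
      _ ≤ _ := mul_le_mul_of_nonneg_right hcardLL (by positivity)
  · rw [le_div_iff₀ (by positivity)]
    exact hGd
  · have h1 : C₁ * n + K = n + r := by omega
    rw [h1] at hG2
    rwa [mul_div_assoc] at hG2
  · rw [← hBsum, ← Finset.sum_sdiff hGU]
    have h1 : ∑ c ∈ U' \ G, B w n r LL c ≤ ((U'.card : ℝ) - G.card) * ((1 + τ) / M) := by
      calc ∑ c ∈ U' \ G, B w n r LL c ≤ ∑ c ∈ U' \ G, (1 + τ) / M :=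
            Finset.sum_le_sum fun c _ => hBle c
        _ = ((U' \ G).card : ℝ) * ((1 + τ) / M) := by rw [Finset.sum_const, nsmul_eq_mul]
        _ = _ := by
          rw [Finset.card_sdiff_of_subset hGU, Nat.cast_sub (Finset.card_le_card hGU)]
    have h2 : ∑ c ∈ G, B w n r LL c ≤ (G.card : ℝ) *
        ((2 * s₀ / M) / σ + R * (1 / (4 * M * R))) + ∑ c ∈ U', T w n r R LL c := by
      calc ∑ c ∈ G, B w n r LL c ≤
          ∑ c ∈ G, (((2 * s₀ / M) / σ + R * (1 / (4 * M * R))) + T w n r R LL c) :=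
            Finset.sum_le_sum hBG
        _ = (G.card : ℝ) * ((2 * s₀ / M) / σ + R * (1 / (4 * M * R))) +
            ∑ c ∈ G, T w n r R LL c := by
          rw [Finset.sum_add_distrib, Finset.sum_const, nsmul_eq_mul]
        _ ≤ _ := by
          have := Finset.sum_le_sum_of_subset_of_nonneg hGU
            (fun c _ _ => T_nonneg w n r R LL c)
          linarith
    linarith

end Pool.Agent.T2h26.TL.MAI
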