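import Pool.Agent.T2h59.TL.Base

/-!
# Project TL (helper59): MAX — the maximal inequality for the slopes along the spines
-/

set_option autoImplicit false

open MeasureTheory Set
open scoped ENNReal

namespace Pool.Agent.T2h26.TL.MAX

open R109.GT Pool.Agent.T2h26.TL Pool.Agent.T2h59.TL

/-- the spine, read from the first child -/
lemma dsc_shift (w : ℕ → ℤ → ℤ) (n : ℕ) (j : ℤ) (t : ℕ) : ∀ c : ℤ,
    dsc w n j (t + 1) c = dsc w (n + 1) (dsc w n j 1 (c / 2 ^ t)) t c := by
  induction t with
  | zero => intro c; simp [dsc]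
  | succ t ih =>
    intro c
    have e1 : c / 2 / 2 ^ t = c / 2 ^ (t + 1) := by
      rw [Int.ediv_ediv_of_nonneg (by norm_num), pow_succ, mul_comm]
    have e2 : n + (t + 1) + 1 = n + 1 + t + 1 := by ring
    have h := ih (c / 2)
    rw [e1] at h
    have l : dsc w n j (t + 1 + 1) c = if c ∈ sp w (n + (t + 1) + 1) (2 * dsc w n j (t + 1) (c / 2))
      then 2 * dsc w n j (t + 1) (c / 2) else 2 * dsc w n j (t + 1) (c / 2) + 1 := rfl
    have r : dsc w (n + 1) (dsc w n j 1 (c / 2 ^ (t + 1))) (t + 1) c =
      if c ∈ sp w (n + 1 + t + 1) (2 * dsc w (n + 1) (dsc w n j 1 (c / 2 ^ (t + 1))) t (c / 2))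
      then 2 * dsc w (n + 1) (dsc w n j 1 (c / 2 ^ (t + 1))) t (c / 2)
      else 2 * dsc w (n + 1) (dsc w n j 1 (c / 2 ^ (t + 1))) t (c / 2) + 1 := rfl
    rw [l, r, h, e2]

/-- the spans of the children cover the span -/
lemma cover {w : ℕ → ℤ → ℤ} (n : ℕ) (j c : ℤ)
    (hc : 2 * lo w n j ≤ c ∧ c < 2 * hi w n j) (h : c ∉ sp w (n + 1) (2 * j)) :
    c ∈ sp w (n + 1) (2 * j + 1) := by
  simp only [sp, lo, hi, Finset.mem_Ico, slope_two, slope_two_add_one, val_two,
    val_two_add_one, min_le_iff, lt_max_iff] at *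
  rcases le_total 0 (R109.GT.slope w n j) with h1 | h1
  · rw [min_eq_left (by omega), max_eq_right (by omega)] at hc
    omega
  · rw [min_eq_right (by omega), max_eq_left (by omega)] at hc
    omega

lemma hi_sub_lo (w : ℕ → ℤ → ℤ) (n : ℕ) (j : ℤ) : hi w n j - lo w n j = |R109.GT.slope w n j| := by
  simp only [hi, lo]
  rcases le_total 0 (R109.GT.slope w n j) with h1 | h1
  · rw [min_eq_left (by omega), max_eq_right (by omega), abs_of_nonneg h1]; ring
  · rw [min_eq_right (by omega), max_eq_left (by omega), abs_of_nonpos h1]; ring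

lemma cube_id (s t : ℤ) (hs : s ≠ 0) :
    ((s + 1) ^ 2 + 3 * t) * |s + 1| + ((s - 1) ^ 2 + 3 * t) * |s - 1| =
      2 * ((s ^ 2 + 3 * (t + 1)) * |s|) := by
  rcases lt_or_gt_of_ne hs with h | h
  · rw [abs_of_nonpos (by omega : s + 1 ≤ 0), abs_of_nonpos (by omega : s - 1 ≤ 0),
      abs_of_nonpos h.le]
    ring
  · rw [abs_of_nonneg (by omega : 0 ≤ s + 1), abs_of_nonneg (by omega : 0 ≤ s - 1),
      abs_of_nonneg h.le]
    ring

open Classical in
theorem t_MAX : S_MAX := by
  intro w hw n j t Λ
  induction t generalizing n j with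
  | zero =>
    by_cases hs : (Λ : ℤ) ≤ |R109.GT.slope w n j|
    · refine le_trans (mul_le_mul_of_nonneg_right
        (Nat.cast_le.mpr (Finset.card_filter_le _ _)) (by positivity)) ?_
      have h1 : (((Finset.Ico (2 ^ 0 * lo w n j) (2 ^ 0 * hi w n j)).card : ℕ) : ℤ) ≤
          |R109.GT.slope w n j| := by
        rw [Int.card_Ico]
        have h3 := hi_sub_lo w n j
        have h4 := abs_nonneg (R109.GT.slope w n j)
        simp only [pow_zero, one_mul]
        omega
      have h5 : ((Λ : ℤ)) ^ 2 ≤ R109.GT.slope w n j ^ 2 := by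
        rw [← sq_abs (R109.GT.slope w n j)]
        exact pow_le_pow_left₀ (by positivity) hs 2
      have h6 := mul_le_mul h1 h5 (by positivity) (abs_nonneg (R109.GT.slope w n j))
      refine h6.trans (le_of_eq ?_)
      simp only [Nat.cast_zero, mul_zero, add_zero, pow_zero, mul_one]
      ring
    · rw [Finset.filter_false_of_mem]
      · simp only [Finset.card_empty, Nat.cast_zero, zero_mul]
        positivity
      · rintro c _ ⟨t', ht', h⟩
        have : t' = 0 := by omega
        subst this
        exact hs h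
  | succ t ih =>
    by_cases hs : (Λ : ℤ) ≤ |R109.GT.slope w n j|
    · have h1 : (((Finset.Ico (2 ^ (t + 1) * lo w n j) (2 ^ (t + 1) * hi w n j)).filter
          (fun c => ∃ t' ≤ t + 1,
          (Λ : ℤ) ≤ |R109.GT.slope w (n + t') (dsc w n j t' (c / 2 ^ (t + 1 - t')))|)).card : ℤ) ≤
          |R109.GT.slope w n j| * 2 ^ (t + 1) := by
        have h2 := Finset.card_filter_le (Finset.Ico (2 ^ (t + 1) * lo w n j)
          (2 ^ (t + 1) * hi w n j)) (fun c => ∃ t' ≤ t + 1,
          (Λ : ℤ) ≤ |R109.GT.slope w (n + t') (dsc w n j t' (c / 2 ^ (t + 1 - t')))|)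
        rw [Int.card_Ico] at h2
        have h3 := hi_sub_lo w n j
        have h4 : (2 : ℤ) ^ (t + 1) * hi w n j - 2 ^ (t + 1) * lo w n j =
            |R109.GT.slope w n j| * 2 ^ (t + 1) := by rw [← h3]; ring
        have h5 : 0 ≤ |R109.GT.slope w n j| * 2 ^ (t + 1) := by positivity
        rw [h4] at h2
        omega
      have h5 : ((Λ : ℤ)) ^ 2 ≤ R109.GT.slope w n j ^ 2 + 3 * ((t + 1 : ℕ) : ℤ) := by
        have : ((Λ : ℤ)) ^ 2 ≤ R109.GT.slope w n j ^ 2 := by
          rw [← sq_abs (R109.GT.slope w n j)]
          exact pow_le_pow_left₀ (by positivity) hs 2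
        push_cast
        have h0 : (0 : ℤ) ≤ t := by positivity
        linarith
      have h6 := mul_le_mul h1 h5 (by positivity) (by positivity)
      refine h6.trans (le_of_eq ?_)
      ring
    · by_cases hs0 : R109.GT.slope w n j = 0
      · have h1 : Finset.Ico (2 ^ (t + 1) * lo w n j) (2 ^ (t + 1) * hi w n j) = ∅ := by
          have h3 := hi_sub_lo w n j
          rw [hs0, abs_zero] at h3
          have h4 : hi w n j = lo w n j := by omega
          rw [h4]; simp
        rw [h1, hs0]
        simp
      · -- the bad cells are bad cells of the children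
        have hsub : ((Finset.Ico (2 ^ (t + 1) * lo w n j) (2 ^ (t + 1) * hi w n j)).filter
            (fun c => ∃ t' ≤ t + 1,
            (Λ : ℤ) ≤ |R109.GT.slope w (n + t') (dsc w n j t' (c / 2 ^ (t + 1 - t')))|)) ⊆
            ((Finset.Ico (2 ^ t * lo w (n + 1) (2 * j)) (2 ^ t * hi w (n + 1) (2 * j))).filter
              (fun c => ∃ t' ≤ t, (Λ : ℤ) ≤
              |R109.GT.slope w (n + 1 + t') (dsc w (n + 1) (2 * j) t' (c / 2 ^ (t - t')))|)) ∪
            ((Finset.Ico (2 ^ t * lo w (n + 1) (2 * j + 1))
                (2 ^ t * hi w (n + 1) (2 * j + 1))).filter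
              (fun c => ∃ t' ≤ t, (Λ : ℤ) ≤
              |R109.GT.slope w (n + 1 + t') (dsc w (n + 1) (2 * j + 1) t' (c / 2 ^ (t - t')))|)) := by
          intro c hc
          rw [Finset.mem_filter, Finset.mem_Ico] at hc
          obtain ⟨⟨hc1, hc2⟩, t', ht', hbad⟩ := hc
          have hp : (0 : ℤ) < 2 ^ t := by positivity
          -- the level of the bad node is below `n`
          obtain ⟨r, hr⟩ : ∃ r, t' = r + 1 := by
            rcases Nat.eq_zero_or_pos t' with h0 | h0
            · subst h0; exact absurd hbad hs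
            · exact ⟨t' - 1, by omega⟩
          subst hr
          have hrt : r ≤ t := by omega
          have e1 : t + 1 - (r + 1) = t - r := by omega
          have e2 : c / 2 ^ (t - r) / 2 ^ r = c / 2 ^ t := by
            rw [Int.ediv_ediv_of_nonneg (by positivity), ← pow_add]
            congr 2; omega
          rw [e1, dsc_shift, e2] at hbad
          have e3 : n + (r + 1) = n + 1 + r := by ring
          rw [e3] at hbad
          have hq : 2 * lo w n j ≤ c / 2 ^ t ∧ c / 2 ^ t < 2 * hi w n j := by
            constructor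
            · rw [Int.le_ediv_iff_mul_le hp]; rw [pow_succ] at hc1; linarith
            · rw [Int.ediv_lt_iff_lt_mul hp]; rw [pow_succ] at hc2; linarith
          have hd : dsc w n j 1 (c / 2 ^ t) = if c / 2 ^ t ∈ sp w (n + 1) (2 * j) then 2 * j
            else 2 * j + 1 := rfl
          have hmem : ∀ d, c / 2 ^ t ∈ sp w (n + 1) d →
              c ∈ Finset.Ico (2 ^ t * lo w (n + 1) d) (2 ^ t * hi w (n + 1) d) := by
            intro d hd'
            rw [sp, Finset.mem_Ico, Int.le_ediv_iff_mul_le hp, Int.ediv_lt_iff_lt_mul hp] at hd'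
            rw [Finset.mem_Ico]
            constructor <;> linarith
          rw [Finset.mem_union]
          by_cases hin : c / 2 ^ t ∈ sp w (n + 1) (2 * j)
          · left
            rw [hd, if_pos hin] at hbad
            exact Finset.mem_filter.mpr ⟨hmem _ hin, r, hrt, hbad⟩
          · right
            rw [hd, if_neg hin] at hbad
            exact Finset.mem_filter.mpr ⟨hmem _ (cover n j _ hq hin), r, hrt, hbad⟩
        have hcard := (Finset.card_le_card hsub).trans (Finset.card_union_le _ _)
        have i1 := ih (n + 1) (2 * j)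
        have i2 := ih (n + 1) (2 * j + 1)
        rw [slope_two] at i1
        rw [slope_two_add_one] at i2
        have hsum : ((R109.GT.slope w n j + w n j) ^ 2 + 3 * (t : ℤ)) * |R109.GT.slope w n j + w n j| *
            2 ^ t + ((R109.GT.slope w n j - w n j) ^ 2 + 3 * (t : ℤ)) *
            |R109.GT.slope w n j - w n j| * 2 ^ t =
            (R109.GT.slope w n j ^ 2 + 3 * ((t + 1 : ℕ) : ℤ)) * |R109.GT.slope w n j| *
              2 ^ (t + 1) := by
          have h := cube_id (R109.GT.slope w n j) t hs0
          push_cast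
          rw [pow_succ]
          rcases hw n j with h1 | h1
          · rw [h1]; linear_combination (2 : ℤ) ^ t * h
          · rw [h1, show R109.GT.slope w n j - -1 = R109.GT.slope w n j + 1 by ring,
              show R109.GT.slope w n j + -1 = R109.GT.slope w n j - 1 by ring]
            linear_combination (2 : ℤ) ^ t * h
        rw [← hsum]
        refine le_trans ?_ (add_le_add i1 i2)
        rw [← add_mul]
        refine mul_le_mul_of_nonneg_right ?_ (by positivity)
        exact_mod_cast hcard

end Pool.Agent.T2h26.TL.MAX
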