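import Pool.Agent.T2h26.TL.Stm

set_option autoImplicit false

open MeasureTheory Set
open scoped ENNReal

namespace Pool.Agent.T2h26.TL.MEA

open R109.GT

/-- the image of a set which is a union of dyadic intervals is measurable -/
lemma meas_image (w : ℕ → ℤ → ℤ) (hw : Sgn w) (E : Set ℝ)
    (h : ∀ x ∈ E, ∃ n : ℕ, ∀ y, ⌊(2:ℝ) ^ n * y⌋ = ⌊(2:ℝ) ^ n * x⌋ → y ∈ E) :
    MeasurableSet (tak w '' E) := by
  classical
  have hE : E = ⋃ p : ℕ × ℤ, (if J p.1 p.2 ⊆ E then J p.1 p.2 else ∅) := by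
    ext x
    constructor
    · intro hx
      obtain ⟨n, hn⟩ := h x hx
      refine Set.mem_iUnion.2 ⟨(n, ⌊(2:ℝ) ^ n * x⌋), ?_⟩
      have hsub : J n ⌊(2:ℝ) ^ n * x⌋ ⊆ E := fun y hy => hn y hy
      rw [if_pos hsub]
      rfl
    · intro hx
      obtain ⟨p, hp⟩ := Set.mem_iUnion.1 hx
      split_ifs at hp with h1
      · exact h1 hp
      · exact absurd hp (Set.notMem_empty x)
  rw [hE, Set.image_iUnion]
  refine MeasurableSet.iUnion fun p => ?_
  split_ifs with h1
  · have hpre : IsPreconnected (J p.1 p.2) := by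
      rw [PC.J_eq_Ico]
      exact isPreconnected_Ico
    have := hpre.image (tak w) (cont w hw).continuousOn
    exact this.ordConnected.measurableSet
  · simp

theorem t_MEA : S_MEA := by
  intro w hw N j m L
  constructor
  · refine meas_image w hw _ ?_
    rintro x ⟨⟨T, hT, hTx⟩, hxJ⟩
    refine ⟨max (T.sup id) N, fun y hy => ?_⟩
    refine ⟨⟨T, hT, fun n hn => ⟨(hTx n hn).1, ?_⟩⟩, ?_⟩
    · have hle : n ≤ max (T.sup id) N := (Finset.le_sup (f := id) hn).trans (le_max_left _ _)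
      rw [PC.S_congr w hle hy]
      exact (hTx n hn).2
    · show ⌊(2:ℝ) ^ N * y⌋ = j
      have hx : ⌊(2:ℝ) ^ N * x⌋ = j := hxJ
      rw [← hx, PC.floor_level (le_max_right (T.sup id) N) y, hy,
        ← PC.floor_level (le_max_right (T.sup id) N) x]
  · refine meas_image w hw _ ?_
    rintro x ⟨⟨T, hT, hTx⟩, hxJ⟩
    refine ⟨max L N, fun y hy => ?_⟩
    refine ⟨⟨T, hT, fun n hn => ⟨(hTx n hn).1, ?_⟩⟩, ?_⟩
    · have hle : n ≤ max L N := (hTx n hn).1.trans (le_max_left _ _)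
      rw [PC.S_congr w hle hy]
      exact (hTx n hn).2
    · show ⌊(2:ℝ) ^ N * y⌋ = j
      have hx : ⌊(2:ℝ) ^ N * x⌋ = j := hxJ
      rw [← hx, PC.floor_level (le_max_right L N) y, hy,
        ← PC.floor_level (le_max_right L N) x]

end Pool.Agent.T2h26.TL.MEA
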