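import Pool.Agent.T2h26.TL.Stm

/-! # Project TL, part NST: the spans of the descendants -/

set_option autoImplicit false

open MeasureTheory Set
open scoped ENNReal

namespace Pool.Agent.T2h26.TL.NST

open R109.GT

theorem step (w : ℕ → ℤ → ℤ) (hw : Sgn w) (n : ℕ) (i : ℤ) :
    2 * lo w n (i / 2) - 1 ≤ lo w (n + 1) i ∧ hi w (n + 1) i ≤ 2 * hi w n (i / 2) + 1 := by
  have he := hw n (i / 2)
  unfold lo hi
  rcases Int.emod_two_eq_zero_or_one i with h | h
  · simp only [R109.GT.slope, R109.GT.val, h, if_true, mul_one, add_zero]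
    constructor
    · omega
    · omega
  · have h' : ¬ ((1 : ℤ) = 0) := by norm_num
    simp only [R109.GT.slope, R109.GT.val, h, if_neg h', mul_neg, mul_one]
    constructor
    · omega
    · omega

theorem t_NST : S_NST := by
  intro w hw n j t
  induction t with
  | zero =>
    intro i hi'
    unfold ds at hi'
    rw [Finset.mem_Ico, pow_zero, one_mul, one_mul] at hi'
    have : i = j := by omega
    subst this
    simp
  | succ t ih =>
    intro i hi'
    have hp : (0 : ℤ) < 2 ^ t := by positivity
    have h1 : i / 2 ∈ ds t j := by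
      unfold ds at hi' ⊢
      rw [Finset.mem_Ico] at hi' ⊢
      have e1 : (2 : ℤ) ^ (t + 1) * j = 2 * (2 ^ t * j) := by ring
      have e2 : (2 : ℤ) ^ (t + 1) * (j + 1) = 2 * (2 ^ t * (j + 1)) := by ring
      rw [e1, e2] at hi'
      omega
    obtain ⟨h2, h3⟩ := ih _ h1
    obtain ⟨h4, h5⟩ := step w hw (n + t) i
    have e1 : lo w (n + (t + 1)) i = lo w (n + t + 1) i := rfl
    have e2 : hi w (n + (t + 1)) i = hi w (n + t + 1) i := rfl
    rw [e1, e2, pow_succ]
    constructor
    · nlinarith
    · nlinarith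

end Pool.Agent.T2h26.TL.NST
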