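import Pool.Agent.T2h26.TL.Stm

/-!
# Project TL, task PLP: above most of the values of a plateau there is almost no steep weight
-/

set_option autoImplicit false

open MeasureTheory Set
open scoped ENNReal

namespace Pool.Agent.T2h26.TL.PLP

open R109.GT

variable {w : ℕ → ℤ → ℤ} {M : ℝ} {A : ℕ → ℤ → Set ℝ}

lemma ne_top (S : Set ℝ) (N : ℕ) (c : ℤ) : volume (S ∩ J N c) ≠ ⊤ := by
  refine ne_top_of_le_ne_top ?_ (measure_mono inter_subset_right)
  rw [vol_J]
  exact ENNReal.ofReal_ne_top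

/-- different nodes over a cell -/
lemma cell (hE : Ext w M A) {n : ℕ} (N : ℕ) (c : ℤ) (T : Finset ℤ) (hT : T ⊆ nd n) :
    ∑ i ∈ T, (volume (A n i ∩ J N c)).toReal ≤ 1 / 2 ^ N := by
  have h1 : volume (⋃ i ∈ T, A n i ∩ J N c) = ∑ i ∈ T, volume (A n i ∩ J N c) := by
    refine measure_biUnion_finset₀ ?_ fun i _ =>
      ((hE.meas n i).inter (PC.measurableSet_J N c)).nullMeasurableSet
    intro i hi i' hi' hne
    refine measure_mono_null ?_ (hE.disj n i (hT hi) i' (hT hi') hne)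
    exact fun x hx => ⟨hx.1.1, hx.2.1⟩
  rw [← ENNReal.toReal_sum fun i _ => ne_top _ _ _, ← h1]
  have h2 : volume (⋃ i ∈ T, A n i ∩ J N c) ≤ ENNReal.ofReal (1 / 2 ^ N) := by
    rw [← vol_J N c]
    exact measure_mono (iUnion₂_subset fun i _ => inter_subset_right)
  exact ENNReal.toReal_le_of_le_ofReal (by positivity) h2

/-- a finite set of cells -/
lemma sum_cells (hE : Ext w M A) (n : ℕ) (j : ℤ) (N : ℕ) (T : Finset ℤ) :
    (volume (A n j ∩ ⋃ c ∈ T, J N c)).toReal = ∑ c ∈ T, (volume (A n j ∩ J N c)).toReal := by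
  rw [← ENNReal.toReal_sum fun i _ => ne_top _ _ _, inter_iUnion₂]
  congr 1
  refine measure_biUnion_finset ?_ fun c _ => (hE.meas n j).inter (PC.measurableSet_J N c)
  intro c _ c' _ hne
  exact (PC.J_disj N hne).mono inter_subset_right inter_subset_right

theorem t_PLP (hUNI : S_UNI) : S_PLP := by
  classical
  intro w M A hE η hη
  have hM := hE.pos
  set ε : ℝ := min (1 / 4) (M * η / 16) with hε
  have hε0 : 0 < ε := lt_min (by norm_num) (by positivity)
  have hε1 : ε ≤ 1 / 4 := min_le_left _ _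
  have hε2 : ε ≤ M * η / 16 := min_le_right _ _
  obtain ⟨K, hK⟩ := hE.pla ε hε0
  obtain ⟨s₀, hs₀, hU⟩ := hUNI ε hε0 K
  refine ⟨K, s₀, hs₀, fun n j hj hslope => ?_⟩
  obtain ⟨V, hV1, hV2⟩ := hK n j hj hslope
  set Fc : ℤ → Finset ℤ := fun c =>
    (nd n).filter (fun i => c / 2 ^ K ∈ sp w n i ∧ (s₀ : ℤ) ≤ |slope w n i|) with hFc
  set b : ℤ → ℝ := fun c => ∑ i ∈ Fc c, 1 / |(slope w n i : ℝ)| with hb
  set a : ℤ → ℝ := fun c => (volume (A n j ∩ J (n + K) c)).toReal with ha
  set q : ℝ := 1 / 2 ^ (n + K) with hq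
  have hq0 : 0 < q := by positivity
  have h2n : (0 : ℝ) < 2 ^ n := by positivity
  set u : ℝ := 1 / 2 ^ n with hu
  have hu0 : 0 < u := by positivity
  have hb0 : ∀ c, 0 ≤ b c := fun c => Finset.sum_nonneg fun i _ => by positivity
  -- one cell
  have hcell : ∀ c, a c + (1 - ε) * M * q * b c ≤ q := by
    intro c
    have hjn : j ∉ Fc c := by
      intro h
      have h1 := (Finset.mem_filter.1 h).2.2
      rw [hslope, abs_zero] at h1
      have h2 : (1 : ℤ) ≤ s₀ := by exact_mod_cast hs₀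
      omega
    have h1 := cell hE (n + K) c (insert j (Fc c))
      (Finset.insert_subset hj (Finset.filter_subset _ _))
    rw [Finset.sum_insert hjn] at h1
    have h2 : (1 - ε) * M * q * b c ≤ ∑ i ∈ Fc c, (volume (A n i ∩ J (n + K) c)).toReal := by
      rw [hb, Finset.mul_sum]
      refine Finset.sum_le_sum fun i hi => ?_
      obtain ⟨hi1, hi2, hi3⟩ := Finset.mem_filter.1 hi
      refine le_trans (le_of_eq ?_) (hU w M A hE n i hi1 hi3 c hi2)
      rw [hq]
      field_simp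
    linarith
  have hac : ∀ c, a c ≤ q := by
    intro c
    have h1 := hcell c
    have h2 : 0 ≤ (1 - ε) * M * q * b c :=
      mul_nonneg (mul_nonneg (mul_nonneg (by linarith) hM.le) hq0.le) (hb0 c)
    linarith
  -- the measure over `V`
  have hVlow : (1 - ε) * M * u ≤ ∑ c ∈ V, a c := by
    rw [ha]
    rw [← sum_cells hE n j (n + K) V]
    have h1 : volume (A n j) ≤ volume (A n j ∩ ⋃ c ∈ V, J (n + K) c) +
        volume (A n j \ ⋃ c ∈ V, J (n + K) c) := by
      refine le_trans (measure_mono ?_) (measure_union_le _ _)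
      rw [inter_union_sdiff]
    rw [hE.vol n j hj] at h1
    have h2 : ENNReal.ofReal (M / 2 ^ n) ≤ volume (A n j ∩ ⋃ c ∈ V, J (n + K) c) +
        ENNReal.ofReal (ε * M / 2 ^ n) := h1.trans (add_le_add_right hV2 _)
    have hfin : volume (A n j ∩ ⋃ c ∈ V, J (n + K) c) ≠ ⊤ := by
      refine ne_top_of_le_ne_top ?_ (measure_mono inter_subset_left)
      rw [hE.vol n j hj]
      exact ENNReal.ofReal_ne_top
    rw [← ENNReal.ofReal_toReal hfin, ← ENNReal.ofReal_add ENNReal.toReal_nonneg (by positivity),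
      ENNReal.ofReal_le_ofReal_iff (by positivity)] at h2
    have h3 : (1 - ε) * M * u = M / 2 ^ n - ε * M / 2 ^ n := by
      rw [hu]
      ring
    rw [h3]
    linarith
  -- the sum of the weights
  have hVcard : (V.card : ℝ) * q ≤ (1 + ε) * M * u := by
    have h1 : (V.card : ℝ) * q = V.card / 2 ^ (n + K) := by rw [hq]; ring
    have h2 : (1 + ε) * M * u = (1 + ε) * M / 2 ^ n := by rw [hu]; ring
    rw [h1, h2]
    exact hV1
  have hsumV : ∑ c ∈ V, a c + (1 - ε) * M * q * ∑ c ∈ V, b c ≤ V.card * q := by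
    have h1 := Finset.sum_le_sum fun c (_ : c ∈ V) => hcell c
    rw [Finset.sum_add_distrib, ← Finset.mul_sum, Finset.sum_const, nsmul_eq_mul] at h1
    exact h1
  have hbV : (1 - ε) * (q * ∑ c ∈ V, b c) ≤ 2 * ε * u := by
    have h1 : M * ((1 - ε) * (q * ∑ c ∈ V, b c)) ≤ M * (2 * ε * u) := by
      have h2 : M * ((1 - ε) * (q * ∑ c ∈ V, b c)) = (1 - ε) * M * q * ∑ c ∈ V, b c := by ring
      have h3 : M * (2 * ε * u) = (1 + ε) * M * u - (1 - ε) * M * u := by ring
      rw [h2, h3]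
      linarith
    exact le_of_mul_le_mul_left h1 hM
  set G : Finset ℤ := V.filter (fun c => b c ≤ η) with hG
  refine ⟨G, fun c hc => (Finset.mem_filter.1 hc).2, ?_⟩
  rw [sum_cells hE n j (n + K) G]
  set B : Finset ℤ := V.filter (fun c => ¬ b c ≤ η) with hB
  have hGB : ∑ c ∈ G, a c + ∑ c ∈ B, a c = ∑ c ∈ V, a c :=
    Finset.sum_filter_add_sum_filter_not V (fun c => b c ≤ η) a
  have hBa : ∑ c ∈ B, a c ≤ B.card * q := by
    have h1 := Finset.sum_le_sum fun c (_ : c ∈ B) => hac c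
    rw [Finset.sum_const, nsmul_eq_mul] at h1
    exact h1
  have hBb : η * (B.card * q) ≤ q * ∑ c ∈ V, b c := by
    have h1 : (B.card : ℝ) * η ≤ ∑ c ∈ B, b c := by
      rw [← nsmul_eq_mul, ← Finset.sum_const]
      exact Finset.sum_le_sum fun c hc => (not_le.1 (Finset.mem_filter.1 hc).2).le
    have h2 : ∑ c ∈ B, b c ≤ ∑ c ∈ V, b c :=
      Finset.sum_le_sum_of_subset_of_nonneg (Finset.filter_subset _ _) fun c _ _ => hb0 c
    have h3 := mul_le_mul_of_nonneg_left (h1.trans h2) hq0.le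
    calc η * (B.card * q) = q * (B.card * η) := by ring
      _ ≤ _ := h3
  have hbad : (B.card : ℝ) * q ≤ M * u / 4 := by
    have h1 : (3 / 4) * (q * ∑ c ∈ V, b c) ≤ 2 * ε * u := by
      refine le_trans (mul_le_mul_of_nonneg_right (by linarith) ?_) hbV
      exact mul_nonneg hq0.le (Finset.sum_nonneg fun c _ => hb0 c)
    have h2 : 2 * ε * u ≤ 2 * (M * η / 16) * u :=
      mul_le_mul_of_nonneg_right (by linarith) hu0.le
    have h3 : η * ((B.card : ℝ) * q) ≤ η * (M * u / 4) := by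
      have h4 : η * (M * u / 4) = 4 * (2 * (M * η / 16) * u) - M * η * u / 4 := by ring
      have h5 : 0 ≤ M * η * u := by positivity
      nlinarith
    exact le_of_mul_le_mul_left h3 hη
  have h3 : M / 2 ^ n / 2 = M * u / 2 := by rw [hu]; ring
  rw [h3]
  have h4 : (3 / 4) * (M * u) ≤ (1 - ε) * M * u := by
    have h5 : (1 - ε) * M * u = (1 - ε) * (M * u) := by ring
    rw [h5]
    exact mul_le_mul_of_nonneg_right (by linarith) (by positivity)
  have h6 : ∑ c ∈ G, a c = ∑ c ∈ G, (volume (A n j ∩ J (n + K) c)).toReal := rfl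
  rw [← h6]
  linarith

end Pool.Agent.T2h26.TL.PLP
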