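import Pool.Agent.T2h26.TL.T_QB

/-! # Project TL, part PT: the total weight of the steep branches above a cell -/

set_option autoImplicit false

open MeasureTheory Set
open scoped ENNReal

namespace Pool.Agent.T2h26.TL.PT

open R109.GT

open Classical in
theorem t_PT (hUNI : S_UNI) : S_PT := by
  intro ε hε
  obtain ⟨s₀, hs₀, h⟩ := hUNI (ε / (1 + ε)) (by positivity) 0
  refine ⟨s₀, hs₀, fun w M A hE n c => ?_⟩
  obtain ⟨F, hF⟩ : ∃ F, F = (nd n).filter (fun j => c ∈ sp w n j ∧ (s₀ : ℤ) ≤ |slope w n j|) :=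
    ⟨_, rfl⟩
  rw [← hF]
  have hM := hE.pos
  have hFn : F ⊆ nd n := by
    rw [hF]
    exact Finset.filter_subset _ _
  have h1 := QB.sum_inter_le hE n F hFn (J n c) (PC.measurableSet_J n c)
  rw [vol_J] at h1
  have h2 : ∑ j ∈ F, (volume (A n j ∩ J n c)).toReal ≤ 1 / 2 ^ n := by
    rw [← ENNReal.toReal_sum]
    · have h3 := ENNReal.toReal_mono ENNReal.ofReal_ne_top h1
      rwa [ENNReal.toReal_ofReal (by positivity)] at h3
    · intro j _
      refine ne_top_of_le_ne_top ?_ (measure_mono inter_subset_right)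
      rw [vol_J]
      exact ENNReal.ofReal_ne_top
  have h3 : ∀ j ∈ F, (1 / (1 + ε)) * M / 2 ^ n * (1 / |(slope w n j : ℝ)|) ≤
      (volume (A n j ∩ J n c)).toReal := by
    intro j hj
    have hj' := hj
    rw [hF, Finset.mem_filter] at hj'
    obtain ⟨_, hc, hs⟩ := hj'
    have h4 := h w M A hE n j (hFn hj) hs c (by rw [pow_zero, Int.ediv_one]; exact hc)
    rw [Nat.add_zero] at h4
    have h5 : (1 : ℝ) - ε / (1 + ε) = 1 / (1 + ε) := by
      have : (1 : ℝ) + ε ≠ 0 := by positivity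
      field_simp
      ring
    rw [h5] at h4
    have hs0 : (0 : ℝ) < |(slope w n j : ℝ)| := by
      have : (1 : ℤ) ≤ |slope w n j| := by
        have : (1 : ℤ) ≤ (s₀ : ℤ) := by exact_mod_cast hs₀
        omega
      have h6 : (1 : ℝ) ≤ |(slope w n j : ℝ)| := by exact_mod_cast this
      linarith
    calc (1 / (1 + ε)) * M / 2 ^ n * (1 / |(slope w n j : ℝ)|) =
        1 / (1 + ε) * M / (|(slope w n j : ℝ)| * 2 ^ n) := by
          field_simp
      _ ≤ _ := h4
  have h4 := (Finset.sum_le_sum h3).trans h2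
  rw [← Finset.mul_sum] at h4
  rw [le_div_iff₀ hM]
  have h5 : (0 : ℝ) < 2 ^ n := by positivity
  have h6 : (0 : ℝ) < 1 + ε := by positivity
  have h7 := mul_le_mul_of_nonneg_left h4 (by positivity : 0 ≤ (1 + ε) * 2 ^ n)
  calc (∑ j ∈ F, 1 / |(slope w n j : ℝ)|) * M = (1 + ε) * 2 ^ n *
        (1 / (1 + ε) * M / 2 ^ n * ∑ j ∈ F, 1 / |(slope w n j : ℝ)|) := by
          field_simp
    _ ≤ (1 + ε) * 2 ^ n * (1 / 2 ^ n) := h7
    _ = 1 + ε := by field_simp

end Pool.Agent.T2h26.TL.PT
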