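import Pool.Agent.T2h26.TL.Stm

/-! # Project TL, part QB: the number of the branches of small slope above a cell -/

set_option autoImplicit false

open MeasureTheory Set
open scoped ENNReal

namespace Pool.Agent.T2h26.TL.QB

open R109.GT

/-- the parts of the sets of different nodes in a set -/
theorem sum_inter_le {w : ℕ → ℤ → ℤ} {M : ℝ} {A : ℕ → ℤ → Set ℝ} (hE : Ext w M A) (n : ℕ)
    (F : Finset ℤ) (hF : F ⊆ nd n) (X : Set ℝ) (hX : MeasurableSet X) :
    ∑ j ∈ F, volume (A n j ∩ X) ≤ volume X := by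
  rw [← measure_biUnion_finset₀ (μ := volume) (f := fun j => A n j ∩ X)]
  · apply measure_mono
    intro y hy
    simp only [mem_iUnion] at hy
    obtain ⟨j, _, hy⟩ := hy
    exact hy.2
  · intro i hi j hj hij
    show volume ((A n i ∩ X) ∩ (A n j ∩ X)) = 0
    refine measure_mono_null ?_ (hE.disj n i (hF hi) j (hF hj) hij)
    rintro y ⟨⟨h1, _⟩, h2, _⟩
    exact ⟨h1, h2⟩
  · intro j _
    exact ((hE.meas n j).inter hX).nullMeasurableSet

theorem hi_sub_lo (w : ℕ → ℤ → ℤ) (n : ℕ) (j : ℤ) : hi w n j - lo w n j = |slope w n j| := by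
  unfold hi lo
  rcases le_total 0 (slope w n j) with h | h
  · rw [abs_of_nonneg h]
    omega
  · rw [abs_of_nonpos h]
    omega

open Classical in
theorem t_QB : S_QB := by
  intro w M A hE n c s₀
  obtain ⟨F, hF⟩ : ∃ F, F = (nd n).filter (fun j => c ∈ sp w n j ∧ |slope w n j| < (s₀ : ℤ)) :=
    ⟨_, rfl⟩
  rw [← hF]
  obtain ⟨X, hX⟩ : ∃ X : Set ℝ, X = ⋃ c' ∈ Finset.Ico (c + 1 - s₀) (c + s₀), J n c' := ⟨_, rfl⟩
  have hXm : MeasurableSet X := by
    rw [hX]
    exact Finset.measurableSet_biUnion _ fun c' _ => PC.measurableSet_J n c'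
  have hFn : F ⊆ nd n := by
    rw [hF]
    exact Finset.filter_subset _ _
  have h1 := sum_inter_le hE n F hFn X hXm
  have h2 : ∀ j ∈ F, volume (A n j ∩ X) = ENNReal.ofReal (M / 2 ^ n) := by
    intro j hj
    rw [← hE.vol n j (hFn hj)]
    congr 1
    rw [inter_eq_left]
    intro y hy
    rw [hX]
    simp only [mem_iUnion]
    refine ⟨⌊(2 : ℝ) ^ n * y⌋, ?_, rfl⟩
    rw [hF, Finset.mem_filter] at hj
    obtain ⟨_, hc, hs⟩ := hj
    unfold sp at hc
    rw [Finset.mem_Ico] at hc ⊢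
    have h3 := hE.loc n j y hy
    have h4 := hi_sub_lo w n j
    constructor
    · omega
    · omega
  rw [Finset.sum_congr rfl h2, Finset.sum_const, nsmul_eq_mul] at h1
  have h3 : volume X ≤ ENNReal.ofReal (2 * s₀ / 2 ^ n) := by
    rw [hX]
    refine (measure_biUnion_finset_le _ _).trans ?_
    rw [Finset.sum_congr rfl fun c' _ => vol_J n c', Finset.sum_const, nsmul_eq_mul,
      Int.card_Ico]
    rw [← ENNReal.ofReal_natCast, ← ENNReal.ofReal_mul (Nat.cast_nonneg _)]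
    apply ENNReal.ofReal_le_ofReal
    have h5 : (((c + s₀ - (c + 1 - s₀)).toNat : ℕ) : ℝ) ≤ 2 * s₀ := by
      have : (c + s₀ - (c + 1 - s₀)).toNat ≤ 2 * s₀ := by omega
      exact_mod_cast this
    calc (((c + s₀ - (c + 1 - s₀)).toNat : ℕ) : ℝ) * (1 / 2 ^ n) ≤ 2 * s₀ * (1 / 2 ^ n) := by
          gcongr
      _ = _ := by ring
  have h4 := h1.trans h3
  rw [← ENNReal.ofReal_natCast, ← ENNReal.ofReal_mul (Nat.cast_nonneg _),
    ENNReal.ofReal_le_ofReal_iff (by positivity)] at h4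
  have h5 : (0 : ℝ) < 2 ^ n := by positivity
  rw [← mul_div_assoc, div_le_div_iff_of_pos_right h5] at h4
  exact h4

end Pool.Agent.T2h26.TL.QB
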