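import Pool.Agent.T2h26.TL.Stm
import Pool.Agent.R109.GT.E

/-! Project TL, part SCA: self-similarity at a plateau. -/

set_option autoImplicit false

open MeasureTheory Set
open scoped ENNReal

namespace Pool.Agent.T2h26.TL.SCA

open R109.GT

theorem sgn_sub {w : ℕ → ℤ → ℤ} (hw : Sgn w) (n : ℕ) (i : ℤ) : Sgn (sub w n i) :=
  fun _ _ => hw _ _

theorem slope_sub (w : ℕ → ℤ → ℤ) (n : ℕ) (i : ℤ) (m : ℕ) : ∀ l : ℤ, 0 ≤ l → l < 2 ^ m →
    slope w (n + m) (2 ^ m * i + l) = slope w n i + slope (sub w n i) m l := by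
  induction m with
  | zero =>
    intro l h1 h2
    have : l = 0 := by rw [pow_zero] at h2; omega
    subst this
    have e : slope (sub w n i) 0 0 = 0 := rfl
    rw [e]
    simp
  | succ m ih =>
    intro l h1 h2
    have e : (2:ℤ) ^ (m + 1) * i + l = 2 * (2 ^ m * i) + l := by ring
    have h3 : ((2:ℤ) ^ (m + 1) * i + l) / 2 = 2 ^ m * i + l / 2 := by
      rw [e]
      omega
    have h4 : ((2:ℤ) ^ (m + 1) * i + l) % 2 = l % 2 := by
      rw [e]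
      omega
    have h5 : l / 2 < 2 ^ m := by
      rw [pow_succ] at h2
      omega
    have h6 : slope w (n + (m + 1)) (2 ^ (m + 1) * i + l) =
        slope w (n + m) ((2 ^ (m + 1) * i + l) / 2) + w (n + m) ((2 ^ (m + 1) * i + l) / 2) *
          (if (2 ^ (m + 1) * i + l) % 2 = 0 then 1 else -1) := rfl
    have h7 : slope (sub w n i) (m + 1) l = slope (sub w n i) m (l / 2) +
        w (n + m) (2 ^ m * i + l / 2) * (if l % 2 = 0 then 1 else -1) := rfl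
    rw [h6, h7, h3, h4, ih (l / 2) (by omega) h5]
    ring

theorem floor_sub (n m : ℕ) (i : ℤ) (x : ℝ) :
    ⌊(2:ℝ) ^ m * ((2:ℝ) ^ n * x)⌋ = 2 ^ m * i + ⌊(2:ℝ) ^ m * ((2:ℝ) ^ n * x - i)⌋ := by
  have h : (2:ℝ) ^ m * ((2:ℝ) ^ n * x) = 2 ^ m * ((2:ℝ) ^ n * x - i) + ((2 ^ m * i : ℤ) : ℝ) := by
    push_cast
    ring
  rw [h, Int.floor_add_intCast, add_comm]

theorem S_sub (w : ℕ → ℤ → ℤ) {n : ℕ} {i : ℤ} (h0 : slope w n i = 0) {x : ℝ} (hx : x ∈ J n i)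
    (m : ℕ) : S w (n + m) x = S (sub w n i) m ((2:ℝ) ^ n * x - i) := by
  have hx' : ⌊(2:ℝ) ^ n * x⌋ = i := hx
  rw [Int.floor_eq_iff] at hx'
  have hp : (0:ℝ) < 2 ^ m := by positivity
  unfold S
  have e1 : (2:ℝ) ^ (n + m) * x = (2:ℝ) ^ m * ((2:ℝ) ^ n * x) := by rw [pow_add]; ring
  rw [e1, floor_sub n m i x, slope_sub w n i m, h0, zero_add]
  · exact Int.floor_nonneg.2 (mul_nonneg hp.le (by linarith [hx'.1]))
  · rw [Int.floor_lt]
    push_cast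
    nlinarith [hx'.2]

theorem tak_sub (w : ℕ → ℤ → ℤ) (hw : Sgn w) {n : ℕ} {i : ℤ} (h0 : slope w n i = 0) {x : ℝ}
    (hx : x ∈ J n i) :
    tak w x = ((val w n i : ℝ) + tak (sub w n i) ((2:ℝ) ^ n * x - i)) / 2 ^ n := by
  have hx' : ⌊(2:ℝ) ^ n * x⌋ = i := hx
  have h1 := tak_eq w hw n x
  have hS : S w n x = 0 := by unfold S; rw [hx', h0]
  rw [hS, hx'] at h1
  have h2 : tak (fun m => w (n + m)) ((2:ℝ) ^ n * x) = tak (sub w n i) ((2:ℝ) ^ n * x - i) := by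
    unfold tak
    congr 1
    funext m
    have h3 := floor_sub n m i x
    have h4 : (2:ℝ) ^ m * ((2:ℝ) ^ n * x) =
        2 ^ m * ((2:ℝ) ^ n * x - i) + ((2 ^ m * i : ℤ) : ℝ) := by
      push_cast
      ring
    have h5 : phi ((2:ℝ) ^ m * ((2:ℝ) ^ n * x)) = phi ((2:ℝ) ^ m * ((2:ℝ) ^ n * x - i)) := by
      rw [h4, E.phi_add_int]
    have h6 : w (n + m) ⌊(2:ℝ) ^ m * ((2:ℝ) ^ n * x)⌋ =
        sub w n i m ⌊(2:ℝ) ^ m * ((2:ℝ) ^ n * x - i)⌋ := by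
      rw [h3]
      rfl
    show (w (n + m) ⌊(2:ℝ) ^ m * ((2:ℝ) ^ n * x)⌋ : ℝ) * _ / _ = _
    rw [h5, h6]
  rw [h1, h2]
  simp

theorem mem_Es (w : ℕ → ℤ → ℤ) {n : ℕ} {i : ℤ} (h0 : slope w n i = 0) {x : ℝ} (hx : x ∈ J n i)
    (m : ℕ) : x ∈ Es w n m ↔ (2:ℝ) ^ n * x - i ∈ Es (sub w n i) 0 m := by
  constructor
  · rintro ⟨T, hT, h⟩
    refine ⟨T.image (fun a => a - n), ?_, ?_⟩
    · rw [Finset.card_image_of_injOn, hT]
      intro a ha b hb hab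
      have h1 := (h a ha).1
      have h2 := (h b hb).1
      simp only at hab
      omega
    · intro k hk
      obtain ⟨a, ha, rfl⟩ := Finset.mem_image.1 hk
      have h1 := h a ha
      refine ⟨Nat.zero_le _, ?_⟩
      rw [← S_sub w h0 hx, Nat.add_sub_cancel' h1.1]
      exact h1.2
  · rintro ⟨T, hT, h⟩
    refine ⟨T.image (fun a => n + a), ?_, ?_⟩
    · rw [Finset.card_image_of_injective _ (add_right_injective n), hT]
    · intro k hk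
      obtain ⟨a, ha, rfl⟩ := Finset.mem_image.1 hk
      refine ⟨Nat.le_add_right _ _, ?_⟩
      rw [S_sub w h0 hx]
      exact (h a ha).2

theorem mem_J0 {n : ℕ} {i : ℤ} {x : ℝ} : x ∈ J n i ↔ (2:ℝ) ^ n * x - i ∈ J 0 0 := by
  unfold J
  simp only [mem_ofPred_eq, pow_zero, one_mul, Int.floor_sub_intCast]
  omega

theorem GG_sub (w : ℕ → ℤ → ℤ) (hw : Sgn w) {n : ℕ} {i : ℤ} (h0 : slope w n i = 0) (m : ℕ) :
    GG w n i m = (fun v : ℝ => ((val w n i : ℝ) + v) / 2 ^ n) '' GG (sub w n i) 0 0 m := by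
  have h2n : (0:ℝ) < 2 ^ n := by positivity
  apply Subset.antisymm
  · rintro _ ⟨x, ⟨hE, hJ⟩, rfl⟩
    refine ⟨tak (sub w n i) ((2:ℝ) ^ n * x - i), ⟨_, ⟨(mem_Es w h0 hJ m).1 hE, mem_J0.1 hJ⟩, rfl⟩,
      ?_⟩
    exact (tak_sub w hw h0 hJ).symm
  · rintro _ ⟨_, ⟨u, ⟨hE, hJ⟩, rfl⟩, rfl⟩
    have hu : (2:ℝ) ^ n * ((u + i) / 2 ^ n) - i = u := by field_simp; ring
    have hJ' : (u + i) / 2 ^ n ∈ J n i := by
      rw [mem_J0, hu]
      exact hJ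
    refine ⟨(u + i) / 2 ^ n, ⟨?_, hJ'⟩, ?_⟩
    · rw [mem_Es w h0 hJ', hu]
      exact hE
    · rw [tak_sub w hw h0 hJ', hu]

theorem t_SCA : S_SCA := by
  intro w hw n i h0
  have h2n : (0:ℝ) < 2 ^ n := by positivity
  refine ⟨sgn_sub hw n i, fun m => GG_sub w hw h0 m, ?_⟩
  have hinj : Function.Injective (fun v : ℝ => ((val w n i : ℝ) + v) / 2 ^ n) := by
    intro a b hab
    simp only at hab
    rw [div_left_inj' h2n.ne'] at hab
    linarith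
  unfold AA
  rw [hinj.injOn.image_iInter_eq]
  congr 1
  funext m
  exact GG_sub w hw h0 m

end Pool.Agent.T2h26.TL.SCA
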