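import Pool.Agent.T2h26.TL.Stm

/-! Project TL, task SEL (helper85) -/

set_option autoImplicit false

open MeasureTheory Set
open scoped ENNReal

namespace Pool.Agent.T2h26.TL.SEL

open R109.GT Pool.Agent.T2h26.TL

theorem mem_nd {n : ℕ} {j : ℤ} : j ∈ nd n ↔ 0 ≤ j ∧ j < 2 ^ n := by
  unfold nd
  rw [Finset.mem_Ico]

theorem mem_ds {t : ℕ} {i j : ℤ} : i ∈ ds t j ↔ i / 2 ^ t = j := by
  have h2 : (0 : ℤ) < 2 ^ t := by positivity
  unfold ds
  rw [Finset.mem_Ico, Int.ediv_eq_iff_of_pos h2]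
  constructor
  · rintro ⟨h, h'⟩
    exact ⟨by linarith, by linarith⟩
  · rintro ⟨h, h'⟩
    exact ⟨by linarith, by linarith⟩

theorem card_ds (t : ℕ) (j : ℤ) : (ds t j).card = 2 ^ t := by
  unfold ds
  rw [Int.card_Ico]
  have h : (2 : ℤ) ^ t * (j + 1) - 2 ^ t * j = ((2 ^ t : ℕ) : ℤ) := by
    push_cast
    ring
  rw [h, Int.toNat_natCast]

theorem div_nd {m t : ℕ} {i : ℤ} (h : i ∈ nd (m + t)) : i / 2 ^ t ∈ nd m := by
  rw [mem_nd] at h ⊢
  have h2 : (0 : ℤ) < 2 ^ t := by positivity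
  refine ⟨Int.ediv_nonneg h.1 h2.le, ?_⟩
  rw [Int.ediv_lt_iff_lt_mul h2, ← pow_add]
  exact h.2

theorem div_div (i : ℤ) (s t : ℕ) : i / 2 ^ s / 2 ^ t = i / 2 ^ (s + t) := by
  rw [Int.ediv_ediv_of_nonneg (by positivity), pow_add]

theorem sub_iter {w : ℕ → ℤ → ℤ} {M : ℝ} {A : ℕ → ℤ → Set ℝ} (h : Ext w M A) (m : ℕ) :
    ∀ (t : ℕ) (i : ℤ), A (m + t) i ⊆ A m (i / 2 ^ t) := by
  intro t
  induction t with
  | zero => intro i; simp
  | succ t ih =>
    intro i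
    have h1 : A (m + t + 1) i ⊆ A (m + t) (i / 2) := by
      rcases Int.emod_two_eq_zero_or_one i with h0 | h0
      · have e : i = 2 * (i / 2) := by omega
        have := (h.sub (m + t) (i / 2)).1
        rwa [← e] at this
      · have e : i = 2 * (i / 2) + 1 := by omega
        have := (h.sub (m + t) (i / 2)).2
        rwa [← e] at this
    have h2 := ih (i / 2)
    have e : i / 2 / 2 ^ t = i / 2 ^ (t + 1) := by
      have := div_div i 1 t
      rw [pow_one, add_comm] at this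
      exact this
    rw [e] at h2
    exact h1.trans h2

theorem vol_cells (N : ℕ) (G : Finset ℤ) :
    (volume (⋃ c ∈ G, J N c)).toReal ≤ (G.card : ℝ) / 2 ^ N := by
  have h1 : volume (⋃ c ∈ G, J N c) ≤ ENNReal.ofReal ((G.card : ℝ) / 2 ^ N) := by
    refine (measure_biUnion_finset_le G _).trans (le_of_eq ?_)
    rw [Finset.sum_congr rfl fun c _ => vol_J N c, Finset.sum_const, nsmul_eq_mul,
      ← ENNReal.ofReal_natCast, ← ENNReal.ofReal_mul (by positivity)]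
    congr 1
    ring
  exact ENNReal.toReal_le_of_le_ofReal (by positivity) h1

/-- first plateaus -/
def fp (w : ℕ → ℤ → ℤ) (n : ℕ) (m : ℕ) (i : ℤ) : Prop :=
  slope w m i = 0 ∧ ∀ m', n ≤ m' → m' < m → slope w m' (i / 2 ^ (m - m')) ≠ 0

open Classical in
/-- the set of the first plateaus -/
noncomputable def HH (w : ℕ → ℤ → ℤ) (k n L : ℕ) (D : Finset ℤ) : Finset (Σ _ : ℕ, ℤ) :=
  (Finset.Icc n L).sigma fun m => (nd m).filter fun i => i / 2 ^ (m - k) ∈ D ∧ fp w n m i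

theorem mem_HH {w : ℕ → ℤ → ℤ} {k n L : ℕ} {D : Finset ℤ} {x : Σ _ : ℕ, ℤ} :
    x ∈ HH w k n L D ↔ (n ≤ x.1 ∧ x.1 ≤ L) ∧ x.2 ∈ nd x.1 ∧ x.2 / 2 ^ (x.1 - k) ∈ D ∧
      fp w n x.1 x.2 := by
  simp only [HH, Finset.mem_sigma, Finset.mem_Icc, Finset.mem_filter]

open Classical in
theorem count (w : ℕ → ℤ → ℤ) {p₀ : ℝ} {k n L : ℕ} {D : Finset ℤ} (hkn : k ≤ n) (hnL : n ≤ L)
    (hD : D ⊆ nd k)
    (hp : ∀ j ∈ D, p₀ * 2 ^ (L - k) ≤ (((ds (L - k) j).filter (fun i => ∃ m, n ≤ m ∧ m ≤ L ∧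
      slope w m (i / 2 ^ (L - m)) = 0)).card : ℝ)) :
    p₀ * D.card / 2 ^ k ≤ ∑ x ∈ HH w k n L D, 1 / (2 : ℝ) ^ x.1 := by
  obtain ⟨E, hE⟩ : ∃ E : Finset ℤ, E = D.biUnion fun j => (ds (L - k) j).filter (fun i => ∃ m,
      n ≤ m ∧ m ≤ L ∧ slope w m (i / 2 ^ (L - m)) = 0) := ⟨_, rfl⟩
  have h1 : p₀ * 2 ^ (L - k) * D.card ≤ (E.card : ℝ) := by
    rw [hE, Finset.card_biUnion]
    · push_cast
      calc p₀ * 2 ^ (L - k) * D.card = ∑ _j ∈ D, p₀ * 2 ^ (L - k) := by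
            rw [Finset.sum_const, nsmul_eq_mul]; ring
        _ ≤ _ := Finset.sum_le_sum hp
    · intro j _ j' _ hjj
      rw [Function.onFun, Finset.disjoint_left]
      intro i hi hi'
      rw [Finset.mem_filter, mem_ds] at hi hi'
      exact hjj (hi.1.symm.trans hi'.1)
  have h2 : E ⊆ (HH w k n L D).biUnion fun x => ds (L - x.1) x.2 := by
    intro i hi
    rw [hE, Finset.mem_biUnion] at hi
    obtain ⟨j, hj, hi⟩ := hi
    rw [Finset.mem_filter, mem_ds] at hi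
    obtain ⟨hij, hex⟩ := hi
    have hspec := Nat.find_spec hex
    have hmin : ∀ m' < Nat.find hex, ¬ (n ≤ m' ∧ m' ≤ L ∧ slope w m' (i / 2 ^ (L - m')) = 0) :=
      fun m' hm' => Nat.find_min hex hm'
    obtain ⟨m, hm⟩ : ∃ m, m = Nat.find hex := ⟨_, rfl⟩
    rw [← hm] at hspec hmin
    obtain ⟨hnm, hmL, hsl⟩ := hspec
    rw [Finset.mem_biUnion]
    refine ⟨⟨m, i / 2 ^ (L - m)⟩, ?_, mem_ds.2 rfl⟩
    rw [mem_HH]
    refine ⟨⟨hnm, hmL⟩, ?_, ?_, hsl, ?_⟩
    · have h3 : i ∈ nd (m + (L - m)) := by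
        have e : m + (L - m) = k + (L - k) := by omega
        rw [e]
        have hjk := hD hj
        rw [mem_nd] at hjk ⊢
        have h2 : (0 : ℤ) < 2 ^ (L - k) := by positivity
        rw [← hij] at hjk
        constructor
        · by_contra hneg
          push Not at hneg
          have := Int.ediv_neg_of_neg_of_pos hneg h2
          linarith [hjk.1]
        · have := hjk.2
          rw [Int.ediv_lt_iff_lt_mul h2, ← pow_add] at this
          exact this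
      exact div_nd h3
    · have e : i / 2 ^ (L - m) / 2 ^ (m - k) = i / 2 ^ (L - k) := by
        rw [div_div]
        congr 2
        omega
      change i / 2 ^ (L - m) / 2 ^ (m - k) ∈ D
      rw [e, hij]
      exact hj
    · intro m' hm1 hm2
      have hm2 : m' < m := hm2
      change slope w m' (i / 2 ^ (L - m) / 2 ^ (m - m')) ≠ 0
      rw [div_div]
      have e : L - m + (m - m') = L - m' := by omega
      rw [e]
      intro h0
      exact hmin m' hm2 ⟨hm1, by omega, h0⟩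
  have h3 : (E.card : ℝ) ≤ ∑ x ∈ HH w k n L D, (2 : ℝ) ^ (L - x.1) := by
    have h4 := (Finset.card_le_card h2).trans Finset.card_biUnion_le
    have h5 : (E.card : ℝ) ≤ ((∑ x ∈ HH w k n L D, (ds (L - x.1) x.2).card : ℕ) : ℝ) := by
      exact_mod_cast h4
    refine h5.trans (le_of_eq ?_)
    push_cast
    refine Finset.sum_congr rfl fun x _ => ?_
    rw [card_ds]
    push_cast
    rfl
  have h6 : ∑ x ∈ HH w k n L D, (2 : ℝ) ^ (L - x.1) =
      (∑ x ∈ HH w k n L D, 1 / (2 : ℝ) ^ x.1) * 2 ^ L := by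
    rw [Finset.sum_mul]
    refine Finset.sum_congr rfl fun x hx => ?_
    have hx1 := (mem_HH.1 hx).1.2
    have e : (2 : ℝ) ^ L = 2 ^ (L - x.1) * 2 ^ x.1 := by
      rw [← pow_add, Nat.sub_add_cancel hx1]
    rw [e]
    have : (2 : ℝ) ^ x.1 ≠ 0 := by positivity
    field_simp
  have h7 : (2 : ℝ) ^ L = 2 ^ (L - k) * 2 ^ k := by
    rw [← pow_add, Nat.sub_add_cancel (hkn.trans hnL)]
  have h8 : p₀ * D.card / 2 ^ k * 2 ^ L = p₀ * 2 ^ (L - k) * D.card := by
    rw [h7]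
    have : (2 : ℝ) ^ k ≠ 0 := by positivity
    field_simp
  have h9 : p₀ * D.card / 2 ^ k * 2 ^ L ≤ (∑ x ∈ HH w k n L D, 1 / (2 : ℝ) ^ x.1) * 2 ^ L := by
    rw [h8, ← h6]
    exact h1.trans h3
  exact le_of_mul_le_mul_right h9 (by positivity)

theorem t_SEL : S_SEL := by
  classical
  intro w M A hA K P hP p₀ k n L U D hkn hnL hD hU hp
  have hcount := count w hkn hnL hD (by convert hp using 8)
  choose! Gf hG1 hG2 using hP
  -- the pieces
  obtain ⟨B, hB⟩ : ∃ B : (Σ _ : ℕ, ℤ) → Set ℝ,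
    B = fun x => A x.1 x.2 ∩ ⋃ c ∈ Gf x.1 x.2, J (x.1 + K) c := ⟨_, rfl⟩
  have hJm : ∀ (N : ℕ) (c : ℤ), MeasurableSet (J N c) := PC.measurableSet_J
  have hBm : ∀ x, MeasurableSet (B x) := by
    intro x
    rw [hB]
    exact (hA.meas x.1 x.2).inter (Finset.measurableSet_biUnion _ fun c _ => hJm _ c)
  have hdis0 : ∀ x ∈ HH w k n L D, ∀ y ∈ HH w k n L D, x ≠ y → x.1 ≤ y.1 →
      volume (B x ∩ B y) = 0 := by
    intro x hx y hy hxy hle
    rw [mem_HH] at hx hy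
    obtain ⟨⟨hx1, hx2⟩, hx3, hx4, hx5, hx6⟩ := hx
    obtain ⟨⟨hy1, hy2⟩, hy3, hy4, hy5, hy6⟩ := hy
    obtain ⟨t, ht⟩ := Nat.exists_eq_add_of_le hle
    have hsub : B x ∩ B y ⊆ A x.1 x.2 ∩ A x.1 (y.2 / 2 ^ t) := by
      rw [hB]
      rintro z ⟨⟨hz1, _⟩, hz2, _⟩
      refine ⟨hz1, ?_⟩
      rw [ht] at hz2
      exact sub_iter hA x.1 t y.2 hz2
    refine measure_mono_null hsub (hA.disj x.1 x.2 hx3 _ ?_ ?_)
    · rw [ht] at hy3
      exact div_nd hy3
    · intro heq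
      rcases Nat.eq_zero_or_pos t with h0 | h0
      · rw [h0, pow_zero, Int.ediv_one] at heq
        rw [h0, add_zero] at ht
        exact hxy (Sigma.ext ht.symm (heq_of_eq heq))
      · have := hy6 x.1 hx1 (by omega)
        rw [ht, Nat.add_sub_cancel_left, ← heq] at this
        exact this hx5
  have hdis : Set.Pairwise (↑(HH w k n L D)) (Function.onFun (AEDisjoint volume) B) := by
    intro x hx y hy hxy
    rcases le_total x.1 y.1 with h | h
    · exact hdis0 x hx y hy hxy h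
    · have := hdis0 y hy x hx hxy.symm h
      rw [inter_comm] at this
      exact this
  have hvol := measure_biUnion_finset₀ hdis fun x _ => (hBm x).nullMeasurableSet
  -- the cells
  obtain ⟨G, hG⟩ : ∃ G : Finset ℤ, G = (U.biUnion fun u => ds (L + K - k) u).filter
    fun c => ∃ x ∈ HH w k n L D, c / 2 ^ (L - x.1) ∈ Gf x.1 x.2 := ⟨_, rfl⟩
  have hcov : (⋃ x ∈ HH w k n L D, B x) ⊆ ⋃ c ∈ G, J (L + K) c := by
    intro y hy
    simp only [mem_iUnion] at hy
    obtain ⟨x, hx, hyx⟩ := hy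
    have hx' := mem_HH.1 hx
    obtain ⟨⟨hx1, hx2⟩, hx3, hx4, hx5, hx6⟩ := hx'
    rw [hB] at hyx
    obtain ⟨hyA, hyG⟩ := hyx
    simp only [mem_iUnion] at hyG
    obtain ⟨c', hc', hyc⟩ := hyG
    have hyc' : ⌊(2 : ℝ) ^ (x.1 + K) * y⌋ = c' := hyc
    simp only [mem_iUnion]
    refine ⟨⌊(2 : ℝ) ^ (L + K) * y⌋, ?_, rfl⟩
    rw [hG, Finset.mem_filter, Finset.mem_biUnion]
    constructor
    · refine ⟨⌊(2 : ℝ) ^ k * y⌋, ?_, ?_⟩
      · have h1 : y ∈ A k (x.2 / 2 ^ (x.1 - k)) := by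
          have e : x.1 = k + (x.1 - k) := by omega
          have h2 := sub_iter hA k (x.1 - k) x.2
          rw [← e] at h2
          exact h2 hyA
        have h2 := hA.loc k _ y h1
        exact hU _ hx4 (Finset.mem_Ico.2 h2)
      · rw [mem_ds]
        exact (PC.floor_level (by omega : k ≤ L + K) y).symm
    · refine ⟨x, hx, ?_⟩
      have h1 := PC.floor_level (by omega : x.1 + K ≤ L + K) y
      have e : L + K - (x.1 + K) = L - x.1 := by omega
      rw [e, hyc'] at h1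
      rw [← h1]
      exact hc'
  refine ⟨G, ?_, ?_⟩
  · intro c hc
    rw [hG, Finset.mem_filter, Finset.mem_biUnion] at hc
    obtain ⟨⟨u, hu, hcu⟩, x, hx, hcx⟩ := hc
    rw [mem_ds] at hcu
    have hx' := mem_HH.1 hx
    obtain ⟨⟨hx1, hx2⟩, hx3, hx4, hx5, hx6⟩ := hx'
    refine ⟨by rw [hcu]; exact hu, x.1, hx1, hx2, ?_⟩
    have h1 := hG1 x.1 x.2 hx3 hx5 _ hcx
    rw [div_div] at h1
    have e : L - x.1 + K = L + K - x.1 := by omega
    rw [e] at h1
    exact h1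
  · have hfin : volume (⋃ c ∈ G, J (L + K) c) ≠ ⊤ := by
      refine ne_top_of_le_ne_top ?_ (measure_biUnion_finset_le G _)
      refine ENNReal.sum_ne_top.2 fun c _ => ?_
      rw [vol_J]
      exact ENNReal.ofReal_ne_top
    have hfinB : ∀ x ∈ HH w k n L D, volume (B x) ≠ ⊤ := fun x hx =>
      ne_top_of_le_ne_top hfin ((measure_mono (subset_biUnion_of_mem (u := B) hx)).trans
        (measure_mono hcov))
    calc M / 2 * (p₀ * D.card / 2 ^ k) ≤ M / 2 * ∑ x ∈ HH w k n L D, 1 / (2 : ℝ) ^ x.1 :=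
          mul_le_mul_of_nonneg_left hcount (by linarith [hA.pos])
      _ = ∑ x ∈ HH w k n L D, M / 2 ^ x.1 / 2 := by
          rw [Finset.mul_sum]
          refine Finset.sum_congr rfl fun x _ => ?_
          ring
      _ ≤ ∑ x ∈ HH w k n L D, (volume (B x)).toReal := by
          refine Finset.sum_le_sum fun x hx => ?_
          have hx' := mem_HH.1 hx
          obtain ⟨⟨hx1, hx2⟩, hx3, hx4, hx5, hx6⟩ := hx'
          rw [hB]
          exact hG2 x.1 x.2 hx3 hx5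
      _ = (volume (⋃ x ∈ HH w k n L D, B x)).toReal := by
          rw [hvol, ENNReal.toReal_sum hfinB]
      _ ≤ (volume (⋃ c ∈ G, J (L + K) c)).toReal := ENNReal.toReal_mono hfin (measure_mono hcov)
      _ ≤ _ := vol_cells _ _

end Pool.Agent.T2h26.TL.SEL
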