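import Pool.Agent.T2h26.TL.Stm

/-! Project TL, task TAI (helper30): the tails are uniformly small. -/

set_option autoImplicit false

open MeasureTheory Set
open scoped ENNReal

namespace Pool.Agent.T2h26.TL.TAI

open R109.GT

/-- number of the zero slopes at the levels `< n` on the path to `(n, j)` -/
def cnt (w : ℕ → ℤ → ℤ) : ℕ → ℤ → ℕ
  | 0, _ => 0
  | n + 1, j => cnt w n (j / 2) + (if slope w n (j / 2) = 0 then 1 else 0)

theorem nd_succ (n : ℕ) :
    nd (n + 1) = (nd n).biUnion (fun j => ({2 * j, 2 * j + 1} : Finset ℤ)) := by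
  ext i
  simp only [nd, Finset.mem_Ico, Finset.mem_biUnion, Finset.mem_insert, Finset.mem_singleton,
    pow_succ]
  constructor
  · intro h
    exact ⟨i / 2, by omega, by omega⟩
  · rintro ⟨j, hj, h⟩
    omega

theorem sum_nd_succ {M : Type*} [AddCommMonoid M] (f : ℤ → M) (n : ℕ) :
    ∑ i ∈ nd (n + 1), f i = ∑ j ∈ nd n, (f (2 * j) + f (2 * j + 1)) := by
  rw [nd_succ, Finset.sum_biUnion]
  · refine Finset.sum_congr rfl fun j _ => ?_
    rw [Finset.sum_pair (by omega)]
  · intro a _ b _ hab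
    rw [Function.onFun, Finset.disjoint_left]
    intro x hx hx'
    simp only [Finset.mem_insert, Finset.mem_singleton] at hx hx'
    omega

/-- the transition -/
def tr (F : ℕ → ℤ → ℕ) : ℕ → ℤ → ℕ := fun k s =>
  F (k + if s = 0 then 1 else 0) (s + 1) + F (k + if s = 0 then 1 else 0) (s - 1)

theorem step (w : ℕ → ℤ → ℤ) (hw : Sgn w) (F : ℕ → ℤ → ℕ) (n : ℕ) :
    ∑ i ∈ nd (n + 1), F (cnt w (n + 1) i) (slope w (n + 1) i) =
      ∑ j ∈ nd n, tr F (cnt w n j) (slope w n j) := by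
  rw [sum_nd_succ]
  refine Finset.sum_congr rfl fun j _ => ?_
  have h1 : (2 * j) / 2 = j := by omega
  have h2 : (2 * j + 1) / 2 = j := by omega
  have h3 : (2 * j) % 2 = 0 := by omega
  have h4 : ¬ (2 * j + 1) % 2 = 0 := by omega
  simp only [cnt, R109.GT.slope, h1, h2, h3, h4, if_true, if_false, tr]
  rcases hw n j with h | h
  · rw [h]
    norm_num [sub_eq_add_neg]
  · rw [h, add_comm]
    norm_num [sub_eq_add_neg]

theorem univ_sum (w w' : ℕ → ℤ → ℤ) (hw : Sgn w) (hw' : Sgn w') (n : ℕ) :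
    ∀ F : ℕ → ℤ → ℕ, ∑ i ∈ nd n, F (cnt w n i) (slope w n i) =
      ∑ i ∈ nd n, F (cnt w' n i) (slope w' n i) := by
  induction n with
  | zero => intro F; simp [cnt, R109.GT.slope]
  | succ n ih => intro F; rw [step w hw, step w' hw', ih]

/-- the number of the nodes of level `n` with slope zero, which are the `(k+1)`-st zero on their
path -/
noncomputable def q (w : ℕ → ℤ → ℤ) (k n : ℕ) : ℕ :=
  ∑ i ∈ nd n, (if cnt w n i = k ∧ slope w n i = 0 then 1 else 0)

theorem q_univ (w w' : ℕ → ℤ → ℤ) (hw : Sgn w) (hw' : Sgn w') (k n : ℕ) : q w k n = q w' k n :=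
  univ_sum w w' hw hw' n (fun c s => if c = k ∧ s = 0 then 1 else 0)

/-- the number of the nodes of level `n` with more than `k` zeros before -/
noncomputable def A (w : ℕ → ℤ → ℤ) (k n : ℕ) : ℕ :=
  ∑ i ∈ nd n, (if k + 1 ≤ cnt w n i then 1 else 0)

theorem A_le (w : ℕ → ℤ → ℤ) (k n : ℕ) : A w k n ≤ 2 ^ n := by
  unfold A
  calc ∑ i ∈ nd n, (if k + 1 ≤ cnt w n i then 1 else 0) ≤ ∑ i ∈ nd n, 1 :=
        Finset.sum_le_sum fun i _ => by split_ifs <;> omega
    _ = 2 ^ n := by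
        rw [Finset.sum_const, smul_eq_mul, mul_one, nd, Int.card_Ico]
        have : ((2 : ℤ) ^ n - 0) = ((2 ^ n : ℕ) : ℤ) := by push_cast; ring
        rw [this, Int.toNat_natCast]

theorem A_succ (w : ℕ → ℤ → ℤ) (k n : ℕ) : A w k (n + 1) = 2 * A w k n + 2 * q w k n := by
  unfold A q
  rw [sum_nd_succ, Finset.mul_sum, Finset.mul_sum, ← Finset.sum_add_distrib]
  refine Finset.sum_congr rfl fun j _ => ?_
  have h1 : (2 * j) / 2 = j := by omega
  have h2 : (2 * j + 1) / 2 = j := by omega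
  simp only [cnt, h1, h2]
  by_cases hs : slope w n j = 0
  · simp only [hs, if_true, and_true]
    split_ifs <;> omega
  · simp only [hs, if_false, and_false]
    split_ifs <;> omega

theorem sum_q (w : ℕ → ℤ → ℤ) (k N : ℕ) :
    ∑ n ∈ Finset.range N, (q w k n : ℝ) / 2 ^ n ≤ (A w k N : ℝ) / 2 ^ N := by
  induction N with
  | zero => simp
  | succ N ih =>
    rw [Finset.sum_range_succ, A_succ]
    push_cast
    have e : (2 * (A w k N : ℝ) + 2 * (q w k N : ℝ)) / 2 ^ (N + 1) =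
        (A w k N : ℝ) / 2 ^ N + (q w k N : ℝ) / 2 ^ N := by
      rw [pow_succ]
      field_simp
    rw [e]
    linarith

theorem tsum_q (w : ℕ → ℤ → ℤ) (k : ℕ) :
    ∑' n : ℕ, ENNReal.ofReal ((q w k n : ℝ) / 2 ^ n) ≤ 1 := by
  refine ENNReal.tsum_le_of_sum_range_le fun N => ?_
  rw [← ENNReal.ofReal_sum_of_nonneg (fun n _ => by positivity)]
  refine ENNReal.ofReal_le_one.2 ((sum_q w k N).trans ?_)
  rw [div_le_one (by positivity)]
  exact_mod_cast A_le w k N

/-- number of the zeros below `n` at the point `x` -/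
noncomputable def c (w : ℕ → ℤ → ℤ) (x : ℝ) (n : ℕ) : ℕ := cnt w n ⌊(2 : ℝ) ^ n * x⌋

theorem c_succ (w : ℕ → ℤ → ℤ) (x : ℝ) (n : ℕ) :
    c w x (n + 1) = c w x n + (if S w n x = 0 then 1 else 0) := by
  have h := floor_div n 1 x
  rw [pow_one] at h
  simp only [c, cnt, S, h]

theorem c_eq (w : ℕ → ℤ → ℤ) (x : ℝ) (n : ℕ) :
    c w x n = ((Finset.range n).filter (fun m => S w m x = 0)).card := by
  induction n with
  | zero => simp [c, cnt]
  | succ n ih =>
    rw [c_succ, ih, Finset.range_add_one, Finset.filter_insert]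
    by_cases h : S w n x = 0
    · rw [if_pos h, if_pos h, Finset.card_insert_of_notMem (by simp)]
    · rw [if_neg h, if_neg h, add_zero]

/-- the points whose `(k+1)`-st zero level is `n` -/
def D (w : ℕ → ℤ → ℤ) (k n : ℕ) : Set ℝ := {x | x ∈ J 0 0 ∧ c w x n = k ∧ S w n x = 0}

theorem sub_D (w : ℕ → ℤ → ℤ) (k L : ℕ) :
    (Es w 0 (k + 1) \ El w (k + 1) L) ∩ J 0 0 ⊆ ⋃ n, D w k (n + (L + 1)) := by
  rintro x ⟨⟨⟨T, hT, hz⟩, hl⟩, hJ⟩
  have hc1 : c w x (L + 1) < k + 1 := by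
    by_contra hcon
    push Not at hcon
    rw [c_eq] at hcon
    obtain ⟨T', hT', hc'⟩ := Finset.exists_subset_card_eq hcon
    refine hl ⟨T', hc', fun n hn => ?_⟩
    have := hT' hn
    rw [Finset.mem_filter, Finset.mem_range] at this
    exact ⟨by omega, this.2⟩
  have hex : ∃ N, k + 1 ≤ c w x N := by
    refine ⟨T.sup id + 1, ?_⟩
    rw [c_eq, ← hT]
    refine Finset.card_le_card fun n hn => ?_
    rw [Finset.mem_filter, Finset.mem_range]
    exact ⟨Nat.lt_succ_of_le (Finset.le_sup (f := id) hn), (hz n hn).2⟩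
  classical
  have hmono : Monotone (c w x) := monotone_nat_of_le_succ fun n => by
    rw [c_succ]
    exact Nat.le_add_right _ _
  have hspec := Nat.find_spec hex
  have hLt : L + 1 < Nat.find hex := by
    by_contra hcon
    push Not at hcon
    have := hmono hcon
    omega
  obtain ⟨n, hn⟩ := Nat.exists_eq_add_of_lt hLt
  have hmin : c w x (L + 1 + n) < k + 1 := by
    have := Nat.find_min hex (m := L + 1 + n) (by omega)
    omega
  rw [hn, c_succ] at hspec
  rw [mem_iUnion]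
  refine ⟨n, hJ, ?_, ?_⟩
  · rw [show n + (L + 1) = L + 1 + n by omega]
    split_ifs at hspec <;> omega
  · rw [show n + (L + 1) = L + 1 + n by omega]
    by_contra h
    rw [if_neg h] at hspec
    omega

theorem mem_nd (x : ℝ) (hx : x ∈ J 0 0) (n : ℕ) : ⌊(2 : ℝ) ^ n * x⌋ ∈ nd n := by
  have hx' : ⌊(2 : ℝ) ^ 0 * x⌋ = 0 := hx
  rw [pow_zero, one_mul, Int.floor_eq_iff] at hx'
  rw [nd, Finset.mem_Ico]
  constructor
  · apply Int.floor_nonneg.2
    have : 0 ≤ x := by simpa using hx'.1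
    positivity
  · rw [Int.floor_lt]
    push_cast
    have : x < 1 := by simpa using hx'.2
    nlinarith [pow_pos (two_pos : (0 : ℝ) < 2) n]

theorem vol_D (w : ℕ → ℤ → ℤ) (hw : Sgn w) (k n : ℕ) :
    volume (tak w '' (D w k n)) ≤ 2 * ENNReal.ofReal ((q w k n : ℝ) / 2 ^ n) := by
  classical
  set I : Finset ℤ := (nd n).filter (fun i => cnt w n i = k ∧ slope w n i = 0) with hI
  have hq : q w k n = I.card := by
    rw [hI, Finset.card_filter, q]
  have hsub : D w k n ⊆ ⋃ i ∈ I, J n i := by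
    rintro x ⟨hx, hc, hS⟩
    rw [mem_iUnion₂]
    exact ⟨⌊(2 : ℝ) ^ n * x⌋, Finset.mem_filter.2 ⟨mem_nd x hx n, hc, hS⟩, rfl⟩
  calc volume (tak w '' (D w k n)) ≤ volume (⋃ i ∈ I, tak w '' (univ ∩ J n i)) := by
        refine measure_mono ?_
        refine (image_mono hsub).trans ?_
        rw [image_iUnion₂]
        simp only [univ_inter]
        exact subset_rfl
    _ ≤ ∑ i ∈ I, volume (tak w '' (univ ∩ J n i)) := measure_biUnion_finset_le _ _
    _ ≤ ∑ i ∈ I, 2 * ENNReal.ofReal (1 / 2 ^ n) := by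
        refine Finset.sum_le_sum fun i hi => ?_
        have := flat_vol vol_J w hw n i (Finset.mem_filter.1 hi).2.2
        rwa [vol_J] at this
    _ = 2 * ENNReal.ofReal ((q w k n : ℝ) / 2 ^ n) := by
        rw [Finset.sum_const, nsmul_eq_mul, hq, mul_left_comm]
        congr 1
        rw [div_eq_mul_one_div (I.card : ℝ), ENNReal.ofReal_mul (by positivity),
          ENNReal.ofReal_natCast]

theorem t_TAI : S_TAI := by
  intro m ε hε
  rcases m with _ | k
  · refine ⟨0, fun w hw => ?_⟩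
    have : (Es w 0 0 \ El w 0 0) ∩ J 0 0 = ∅ := by
      rw [Set.eq_empty_iff_forall_notMem]
      rintro x ⟨⟨-, h⟩, -⟩
      exact h ⟨∅, rfl, by simp⟩
    rw [this]
    simp
  · set w₀ : ℕ → ℤ → ℤ := fun _ _ => 1 with hw₀
    have hs₀ : Sgn w₀ := fun _ _ => Or.inl rfl
    have hfin : ∑' n : ℕ, ENNReal.ofReal ((q w₀ k n : ℝ) / 2 ^ n) ≠ ∞ :=
      ne_top_of_le_ne_top ENNReal.one_ne_top (tsum_q w₀ k)
    have ht := ENNReal.tendsto_sum_nat_add _ hfin
    have hε2 : 0 < ε / 2 := ENNReal.div_pos hε.ne' (by norm_num)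
    have hev := (ht.eventually (Iic_mem_nhds hε2))
    obtain ⟨L, hL⟩ := (hev.and (Filter.eventually_ge_atTop 1)).exists
    obtain ⟨L', rfl⟩ : ∃ L', L = L' + 1 := ⟨L - 1, by have := hL.2; omega⟩
    refine ⟨L', fun w hw => ?_⟩
    calc volume (tak w '' ((Es w 0 (k + 1) \ El w (k + 1) L') ∩ J 0 0))
        ≤ volume (⋃ n, tak w '' (D w k (n + (L' + 1)))) := by
          refine measure_mono ?_
          rw [← image_iUnion]
          exact image_mono (sub_D w k L')
      _ ≤ ∑' n, volume (tak w '' (D w k (n + (L' + 1)))) := measure_iUnion_le _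
      _ ≤ ∑' n, 2 * ENNReal.ofReal ((q w₀ k (n + (L' + 1)) : ℝ) / 2 ^ (n + (L' + 1))) := by
          refine ENNReal.tsum_le_tsum fun n => ?_
          rw [← q_univ w w₀ hw hs₀]
          exact vol_D w hw k _
      _ = 2 * ∑' n, ENNReal.ofReal ((q w₀ k (n + (L' + 1)) : ℝ) / 2 ^ (n + (L' + 1))) :=
          ENNReal.tsum_mul_left
      _ ≤ 2 * (ε / 2) := by
          gcongr
          exact hL.1
      _ = ε := ENNReal.mul_div_cancel (by norm_num) (by norm_num)

end Pool.Agent.T2h26.TL.TAI
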