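import Pool.Agent.T2h26.TL.Stm

/-!
# Project TL, task THI: thickenings and coverings by cells of a union of intervals
-/

set_option autoImplicit false

open MeasureTheory Set
open scoped ENNReal

namespace Pool.Agent.T2h26.TL.THI

open R109.GT

/-- an interval of finite length is bounded -/
lemma bdd {I : Set ℝ} (h1 : I.OrdConnected) (h2 : I.Nonempty) (h3 : volume I ≠ ⊤) :
    BddBelow I ∧ BddAbove I := by
  obtain ⟨x0, hx0⟩ := h2
  constructor
  · by_contra hcon
    apply h3
    have h4 : Iic x0 ⊆ I := by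
      intro y hy
      rw [not_bddBelow_iff] at hcon
      obtain ⟨z, hz, hzy⟩ := hcon y
      exact h1.out hz hx0 ⟨hzy.le, hy⟩
    have h5 := measure_mono (μ := volume) h4
    rw [Real.volume_Iic] at h5
    exact top_le_iff.1 h5
  · by_contra hcon
    apply h3
    have h4 : Ici x0 ⊆ I := by
      intro y hy
      rw [not_bddAbove_iff] at hcon
      obtain ⟨z, hz, hzy⟩ := hcon y
      exact h1.out hx0 hz ⟨hy, hzy.le⟩
    have h5 := measure_mono (μ := volume) h4
    rw [Real.volume_Ici] at h5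
    exact top_le_iff.1 h5

lemma Ioo_sub {I : Set ℝ} (h1 : I.OrdConnected) (h2 : I.Nonempty) (hb : BddBelow I)
    (ha : BddAbove I) : Ioo (sInf I) (sSup I) ⊆ I :=
  IsConnected.Ioo_csInf_csSup_subset ⟨h2, h1.isPreconnected⟩ hb ha

lemma sub_Icc {I : Set ℝ} (hb : BddBelow I) (ha : BddAbove I) : I ⊆ Icc (sInf I) (sSup I) :=
  fun _ hx => ⟨csInf_le hb hx, le_csSup ha hx⟩

/-- the two pieces -/
def ends (I : Set ℝ) (δ : ℝ) : Set ℝ := Icc (sInf I - δ) (sInf I) ∪ Icc (sSup I) (sSup I + δ)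

lemma thick_sub {I : Set ℝ} (h1 : I.OrdConnected) (h2 : I.Nonempty) (hb : BddBelow I)
    (ha : BddAbove I) {δ : ℝ} (hδ : 0 ≤ δ) : Metric.cthickening δ I ⊆ I ∪ ends I δ := by
  intro x hx
  have h3 := Metric.cthickening_subset_of_subset δ (sub_Icc hb ha) hx
  rw [isCompact_Icc.cthickening_eq_biUnion_closedBall hδ] at h3
  simp only [mem_iUnion, Metric.mem_closedBall, Real.dist_eq] at h3
  obtain ⟨y, hy, hxy⟩ := h3
  rw [abs_le] at hxy
  unfold ends
  by_cases h4 : x ≤ sInf I
  · exact Or.inr (Or.inl ⟨by linarith [hy.1], h4⟩)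
  by_cases h5 : sSup I ≤ x
  · exact Or.inr (Or.inr ⟨h5, by linarith [hy.2]⟩)
  rw [not_le] at h4 h5
  exact Or.inl (Ioo_sub h1 h2 hb ha ⟨h4, h5⟩)

lemma vol_ends (I : Set ℝ) {δ : ℝ} (hδ : 0 ≤ δ) : volume (ends I δ) ≤ ENNReal.ofReal (2 * δ) := by
  unfold ends
  refine (measure_union_le _ _).trans ?_
  rw [Real.volume_Icc, Real.volume_Icc, ← ENNReal.ofReal_add (by linarith) (by linarith)]
  refine ENNReal.ofReal_le_ofReal ?_
  linarith

lemma thick_biUnion (F : Finset (Set ℝ)) (δ : ℝ) :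
    Metric.cthickening δ (⋃ I ∈ F, I) = ⋃ I ∈ F, Metric.cthickening δ I := by
  classical
  induction F using Finset.induction_on with
  | empty => simp
  | insert I F hI ih =>
    rw [Finset.set_biUnion_insert, Finset.set_biUnion_insert, Metric.cthickening_union, ih]

theorem t_THI : S_THI := by
  classical
  intro F hF
  refine ⟨fun δ hδ => ?_, fun k hbd => ?_⟩
  · by_cases htop : ∃ I ∈ F, volume I = ⊤
    · obtain ⟨I, hI, hIt⟩ := htop
      have h1 : volume (⋃ I ∈ F, I) = ⊤ := by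
        refine top_le_iff.1 ?_
        rw [← hIt]
        exact measure_mono (subset_biUnion_of_mem (u := fun I : Set ℝ => I) hI)
      rw [h1, top_add]
      exact le_top
    push Not at htop
    rw [thick_biUnion]
    have h1 : (⋃ I ∈ F, Metric.cthickening δ I) ⊆ (⋃ I ∈ F, I) ∪ ⋃ I ∈ F, ends I δ := by
      intro x hx
      simp only [mem_iUnion] at hx
      obtain ⟨I, hI, hx⟩ := hx
      obtain ⟨hb, ha⟩ := bdd (hF I hI).1 (hF I hI).2 (htop I hI)
      rcases thick_sub (hF I hI).1 (hF I hI).2 hb ha hδ hx with h2 | h2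
      · exact Or.inl (mem_biUnion (x := I) (t := fun I : Set ℝ => I) hI h2)
      · exact Or.inr (mem_biUnion (x := I) (t := fun I : Set ℝ => ends I δ) hI h2)
    refine (measure_mono h1).trans ((measure_union_le _ _).trans ?_)
    refine add_le_add_right ?_ _
    refine (measure_biUnion_finset_le F _).trans ?_
    refine (Finset.sum_le_sum fun I _ => vol_ends I hδ).trans ?_
    rw [Finset.sum_const, nsmul_eq_mul, mul_comm (2 * δ),
      ENNReal.ofReal_mul (p := (F.card : ℝ)) (by positivity), ENNReal.ofReal_natCast]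
  · have hbd' : Bornology.IsBounded (⋃ I ∈ F, I) :=
      (Bornology.isBounded_biUnion_finset F).2 hbd
    obtain ⟨R, hR⟩ := hbd'.subset_closedBall 0
    have hR' : ∀ x ∈ ⋃ I ∈ F, I, -R ≤ x ∧ x ≤ R := by
      intro x hx
      have h1 := hR hx
      rw [Metric.mem_closedBall, Real.dist_eq, sub_zero, abs_le] at h1
      exact h1
    have hk : (0 : ℝ) < 2 ^ k := by positivity
    set V1 : Finset ℤ := (Finset.Icc ⌊(2:ℝ) ^ k * (-R)⌋ ⌊(2:ℝ) ^ k * R⌋).filter
      (fun c => J k c ⊆ ⋃ I ∈ F, I) with hV1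
    set V2 : Finset ℤ := F.biUnion fun I => {⌊(2:ℝ) ^ k * sInf I⌋, ⌊(2:ℝ) ^ k * sSup I⌋} with hV2
    refine ⟨V1 ∪ V2, ?_, ?_⟩
    · intro x hx
      have hx' := hx
      simp only [mem_iUnion] at hx'
      obtain ⟨I, hI, hxI⟩ := hx'
      refine mem_biUnion (x := ⌊(2:ℝ) ^ k * x⌋) (t := fun c => J k c) ?_ rfl
      rw [Finset.mem_coe, Finset.mem_union]
      by_cases h1 : ⌊(2:ℝ) ^ k * x⌋ ∈ V2
      · exact Or.inr h1
      left
      have hb : BddBelow I := (hbd I hI).bddBelow
      have ha : BddAbove I := (hbd I hI).bddAbove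
      have h2 : ⌊(2:ℝ) ^ k * x⌋ ≠ ⌊(2:ℝ) ^ k * sInf I⌋ ∧ ⌊(2:ℝ) ^ k * x⌋ ≠ ⌊(2:ℝ) ^ k * sSup I⌋ := by
        constructor
        · intro h
          apply h1
          rw [hV2, Finset.mem_biUnion]
          exact ⟨I, hI, by rw [h]; simp⟩
        · intro h
          apply h1
          rw [hV2, Finset.mem_biUnion]
          exact ⟨I, hI, by rw [h]; simp⟩
      obtain ⟨h3, h4⟩ := sub_Icc hb ha hxI
      have h5 : ⌊(2:ℝ) ^ k * sInf I⌋ < ⌊(2:ℝ) ^ k * x⌋ :=
        lt_of_le_of_ne (Int.floor_le_floor (mul_le_mul_of_nonneg_left h3 hk.le)) h2.1.symm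
      have h6 : ⌊(2:ℝ) ^ k * x⌋ < ⌊(2:ℝ) ^ k * sSup I⌋ :=
        lt_of_le_of_ne (Int.floor_le_floor (mul_le_mul_of_nonneg_left h4 hk.le)) h2.2
      rw [hV1, Finset.mem_filter, Finset.mem_Icc]
      refine ⟨⟨Int.floor_le_floor (mul_le_mul_of_nonneg_left (hR' x hx).1 hk.le),
        Int.floor_le_floor (mul_le_mul_of_nonneg_left (hR' x hx).2 hk.le)⟩, ?_⟩
      intro y hy
      have hy' : ⌊(2:ℝ) ^ k * y⌋ = ⌊(2:ℝ) ^ k * x⌋ := hy
      refine mem_biUnion (x := I) (t := fun I : Set ℝ => I) hI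
        (Ioo_sub (hF I hI).1 (hF I hI).2 hb ha ⟨?_, ?_⟩)
      · by_contra hcon
        rw [not_lt] at hcon
        have h7 := Int.floor_le_floor (mul_le_mul_of_nonneg_left hcon hk.le)
        rw [hy'] at h7
        exact absurd h7 (not_le.2 h5)
      · by_contra hcon
        rw [not_lt] at hcon
        have h7 := Int.floor_le_floor (mul_le_mul_of_nonneg_left hcon hk.le)
        rw [hy'] at h7
        exact absurd h7 (not_le.2 h6)
    · have h2 : V2.card ≤ 2 * F.card := by
        refine (Finset.card_biUnion_le).trans ?_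
        refine (Finset.sum_le_sum (g := fun _ => 2) fun I _ => ?_).trans ?_
        · exact Finset.card_le_two
        · rw [Finset.sum_const, smul_eq_mul, mul_comm]
      have h3 : ((V1 ∪ V2).card : ℝ) ≤ V1.card + 2 * F.card := by
        have h4 := Finset.card_union_le V1 V2
        have h5 : (V1 ∪ V2).card ≤ V1.card + 2 * F.card := by omega
        exact_mod_cast h5
      have h4 : ENNReal.ofReal ((V1.card : ℝ) / 2 ^ k) ≤ volume (⋃ I ∈ F, I) := by
        have h5 : volume (⋃ c ∈ V1, J k c) = ENNReal.ofReal ((V1.card : ℝ) / 2 ^ k) := by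
          rw [measure_biUnion_finset (fun a _ b _ hab => PC.J_disj k hab)
            (fun c _ => PC.measurableSet_J k c)]
          rw [Finset.sum_congr rfl fun c _ => vol_J k c, Finset.sum_const, nsmul_eq_mul,
            div_eq_mul_one_div (V1.card : ℝ), ENNReal.ofReal_mul (p := (V1.card : ℝ))
              (by positivity), ENNReal.ofReal_natCast]
        rw [← h5]
        refine measure_mono (iUnion₂_subset fun c hc => ?_)
        exact (Finset.mem_filter.1 hc).2
      refine (ENNReal.ofReal_le_ofReal (div_le_div_of_nonneg_right h3 hk.le)).trans ?_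
      rw [add_div, ENNReal.ofReal_add (by positivity) (by positivity)]
      exact add_le_add_left h4 _

end Pool.Agent.T2h26.TL.THI
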