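import Pool.Agent.T2h26.TL.Stm

set_option autoImplicit false

open MeasureTheory Set
open scoped ENNReal

namespace Pool.Agent.T2h26.TL.UNI

open R109.GT

/-- the number theoretic part: choice of `s₀` -/
lemma choose_s (ε : ℝ) (hε : 0 < ε) (K : ℕ) : ∃ s₀ : ℕ, 1 ≤ s₀ ∧ ∀ s : ℕ, s₀ ≤ s →
    ∃ q : ℕ, 0 ≤ (2:ℝ) ^ q - 2 * ((s:ℝ) + (K + q : ℕ)) ∧
      (1 - ε) * (((s:ℝ) + (K + q : ℕ)) * 2 ^ q) ≤ (s:ℝ) * (2 ^ q - 2 * ((s:ℝ) + (K + q : ℕ))) := by
  set δ := min (ε / 2) (1/2) with hδ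
  have hδ0 : 0 < δ := lt_min (by linarith) (by norm_num)
  have hδ1 : δ ≤ 1/2 := min_le_right _ _
  have hδε : 2 * δ ≤ ε := by
    have := min_le_left (ε / 2) (1/2 : ℝ)
    linarith
  -- eventually `K + 1 + 3 log s ≤ δ s`
  have hlog := Real.isLittleO_log_id_atTop
  have h1 := hlog.def (show (0:ℝ) < δ / 6 by positivity)
  have h2 := h1.and (Filter.eventually_ge_atTop (max (2 * (K + 1) / δ) (max (4 / δ) 1)))
  obtain ⟨B, hB⟩ := Filter.eventually_atTop.1 h2
  refine ⟨⌈max B 1⌉₊, ?_, fun s hs => ?_⟩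
  · have : (1:ℝ) ≤ ⌈max B 1⌉₊ := (le_max_right B 1).trans (Nat.le_ceil _)
    exact_mod_cast this
  have hsB : max B 1 ≤ (s:ℝ) := (Nat.le_ceil _).trans (by exact_mod_cast hs)
  obtain ⟨h3, h4⟩ := hB s ((le_max_left _ _).trans hsB)
  have hs1 : (1:ℝ) ≤ s := (le_max_right _ _).trans hsB
  have hs0 : (0:ℝ) < s := by linarith
  have h5 : 2 * (K + 1) / δ ≤ (s:ℝ) := (le_max_left _ _).trans h4
  have h6 : 4 / δ ≤ (s:ℝ) := ((le_max_left _ _).trans (le_max_right _ _)).trans h4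
  have hlog0 : 0 ≤ Real.log s := Real.log_nonneg hs1
  have h7 : Real.log s ≤ δ / 6 * s := by
    have := h3
    rw [Real.norm_eq_abs, abs_of_nonneg hlog0, id, Real.norm_eq_abs, abs_of_pos hs0] at this
    exact this
  have h8 : (K:ℝ) + 1 ≤ δ / 2 * s := by
    rw [div_le_iff₀ hδ0] at h5
    linarith
  -- choice of q
  obtain ⟨p, hp1, hp2⟩ := exists_nat_pow_near (show (1:ℝ) ≤ (s:ℝ)^2 by nlinarith)
    (show (1:ℝ) < 2 by norm_num)
  have hqlog : ((p:ℝ) + 1) ≤ 1 + 3 * Real.log s := by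
    have h9 := Real.log_le_log (by positivity) hp1
    rw [Real.log_pow, Real.log_pow] at h9
    push_cast at h9
    have h10 : (0.6931471803:ℝ) < Real.log 2 := Real.log_two_gt_d9
    have hp0 : (0:ℝ) ≤ p := Nat.cast_nonneg _
    nlinarith
  refine ⟨p + 1, ?_⟩
  have ht : (((K + (p + 1) : ℕ)) : ℝ) ≤ δ * s := by
    push_cast
    linarith
  set t : ℝ := (((K + (p + 1) : ℕ)) : ℝ) with ht_def
  have ht0 : 0 ≤ t := Nat.cast_nonneg _
  set Q : ℝ := (2:ℝ) ^ (p + 1) with hQ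
  have hQs : (s:ℝ)^2 ≤ Q := hp2.le
  have h4s : 4 ≤ δ * s := by
    rw [div_le_iff₀ hδ0] at h6
    linarith
  have h11 : 2 * ((s:ℝ) + t) ≤ δ * Q := by
    have : 2 * ((s:ℝ) + t) ≤ 4 * s := by nlinarith
    nlinarith
  have hQ0 : 0 < Q := by positivity
  constructor
  · nlinarith
  · -- (1-ε) (s+t) Q ≤ s (Q - 2(s+t))
    have h12 : (1 - δ) * Q ≤ Q - 2 * ((s:ℝ) + t) := by linarith
    have h13 : (1 - δ) * ((s:ℝ) + t) ≤ s := by nlinarith
    have h14 : (1 - δ) * (1 - δ) * (((s:ℝ) + t) * Q) ≤ (s:ℝ) * (Q - 2 * ((s:ℝ) + t)) := by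
      calc (1 - δ) * (1 - δ) * (((s:ℝ) + t) * Q) = ((1 - δ) * ((s:ℝ) + t)) * ((1 - δ) * Q) := by ring
        _ ≤ (s:ℝ) * ((1 - δ) * Q) := by
          refine mul_le_mul_of_nonneg_right h13 ?_
          nlinarith
        _ ≤ _ := mul_le_mul_of_nonneg_left h12 hs0.le
    refine le_trans ?_ h14
    refine mul_le_mul_of_nonneg_right ?_ (by positivity)
    nlinarith

lemma sp_card (w : ℕ → ℤ → ℤ) (n : ℕ) (j : ℤ) : ((sp w n j).card : ℤ) = |slope w n j| := by
  unfold sp lo hi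
  rw [Int.card_Ico]
  rcases le_total 0 (slope w n j) with h | h
  · rw [min_eq_left (by linarith), max_eq_right (by linarith), abs_of_nonneg h]
    omega
  · rw [min_eq_right (by linarith), max_eq_left (by linarith), abs_of_nonpos h]
    omega

lemma hi_sub_lo (w : ℕ → ℤ → ℤ) (n : ℕ) (j : ℤ) : hi w n j - lo w n j = |slope w n j| := by
  unfold lo hi
  rcases le_total 0 (slope w n j) with h | h
  · rw [min_eq_left (by linarith), max_eq_right (by linarith), abs_of_nonneg h]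
    ring
  · rw [min_eq_right (by linarith), max_eq_left (by linarith), abs_of_nonpos h]
    ring

lemma sub_iter {w : ℕ → ℤ → ℤ} {M : ℝ} {A : ℕ → ℤ → Set ℝ} (h : Ext w M A) (n : ℕ) (t : ℕ) :
    ∀ d : ℤ, A (n + t) d ⊆ A n (d / 2 ^ t) := by
  induction t with
  | zero => intro d; simp
  | succ t ih =>
    intro d
    have h1 : A (n + (t + 1)) d ⊆ A (n + t) (d / 2) := by
      have h2 := h.sub (n + t) (d / 2)
      rcases Int.emod_two_eq_zero_or_one d with h3 | h3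
      · have e : 2 * (d / 2) = d := by omega
        have := h2.1
        rwa [e] at this
      · have e : 2 * (d / 2) + 1 = d := by omega
        have := h2.2
        rwa [e] at this
    refine h1.trans ((ih (d / 2)).trans ?_)
    rw [Int.ediv_ediv_of_nonneg (by norm_num), ← pow_succ']

lemma mem_nd_of_div {n t : ℕ} {d j : ℤ} (hj : j ∈ nd n) (h : d / 2 ^ t = j) : d ∈ nd (n + t) := by
  unfold nd at *
  rw [Finset.mem_Ico] at *
  have hp : (0:ℤ) < 2 ^ t := by positivity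
  constructor
  · by_contra hneg
    push Not at hneg
    have : d / 2 ^ t < 0 := Int.ediv_neg_of_neg_of_pos hneg hp
    omega
  · have h2 : d < (d / 2 ^ t + 1) * 2 ^ t := Int.lt_ediv_add_one_mul_self d hp
    rw [h] at h2
    calc d < (j + 1) * 2 ^ t := h2
      _ ≤ 2 ^ n * 2 ^ t := mul_le_mul_of_nonneg_right (by omega) hp.le
      _ = 2 ^ (n + t) := by rw [pow_add]

theorem t_UNI (hSPI : S_SPI) : S_UNI := by
  classical
  intro ε hε K
  obtain ⟨s₀, hs₀, hch⟩ := choose_s ε hε K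
  refine ⟨s₀, hs₀, ?_⟩
  intro w M A hE n j hj hs c hc
  set s : ℕ := (slope w n j).natAbs with hs_def
  have hsabs : |slope w n j| = (s : ℤ) := by rw [hs_def, Int.natCast_natAbs]
  have hss : s₀ ≤ s := by rw [hsabs] at hs; exact_mod_cast hs
  have hs1 : 1 ≤ s := hs₀.trans hss
  have hne : slope w n j ≠ 0 := by
    intro h0
    rw [h0] at hsabs
    simp at hsabs
    omega
  obtain ⟨q, hq0, hq⟩ := hch s hss
  set t := K + q with ht
  have hsR : |(slope w n j : ℝ)| = (s : ℝ) := by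
    have : ((|slope w n j| : ℤ) : ℝ) = ((s : ℤ) : ℝ) := by rw [hsabs]
    push_cast at this
    exact this
  set I : Finset ℤ := Finset.Ico (2 ^ q * c + (s + t)) (2 ^ q * (c + 1) - (s + t)) with hI
  have hp2q : (0:ℤ) < 2 ^ q := by positivity
  -- facts on the cells of `I`
  have hIdiv : ∀ c' ∈ I, c' / 2 ^ q = c := by
    intro c' hc'
    rw [hI, Finset.mem_Ico] at hc'
    have h0s : (0:ℤ) ≤ s := Int.natCast_nonneg s
    have h0t : (0:ℤ) ≤ t := Int.natCast_nonneg t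
    rw [Int.ediv_eq_iff_of_pos hp2q]
    constructor <;> nlinarith [hc'.1, hc'.2]
  have hIsp : ∀ c' ∈ I, c' / 2 ^ t ∈ sp w n j := by
    intro c' hc'
    have e : c' / 2 ^ t = (c' / 2 ^ q) / 2 ^ K := by
      rw [Int.ediv_ediv_of_nonneg hp2q.le, ← pow_add, ht, add_comm K q]
    rw [e, hIdiv c' hc']
    exact hc
  set D : Finset ℤ := I.image (fun c' => dsc w n j t c') with hD
  have hspi := fun c' (hc' : c' ∈ I) => hSPI w hE.sgn n j hne t c' (hIsp c' hc')
  -- counting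
  have hcardle : I.card ≤ D.card * (s + t) := by
    rw [hD]
    have h1 := Finset.card_le_mul_card_image (f := fun c' => dsc w n j t c') I (s + t) (by
      intro d hd
      rw [Finset.mem_image] at hd
      obtain ⟨c', hc', rfl⟩ := hd
      obtain ⟨h1, h2, h3, h4, h5, h6⟩ := hspi c' hc'
      have h7 : (I.filter (fun c'' => dsc w n j t c'' = dsc w n j t c')) ⊆
          sp w (n + t) (dsc w n j t c') := by
        intro c'' hc''
        rw [Finset.mem_filter] at hc''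
        have := (hspi c'' hc''.1).1
        rw [hc''.2] at this
        exact this
      refine (Finset.card_le_card h7).trans ?_
      have h8 := sp_card w (n + t) (dsc w n j t c')
      have h9 : ((sp w (n + t) (dsc w n j t c')).card : ℤ) ≤ s + t := by
        rw [h8]
        have := h5
        rw [hsabs] at this
        exact_mod_cast this
      exact_mod_cast h9)
    rw [mul_comm] 
    exact h1
  have hIcard : (2:ℝ) ^ q - 2 * ((s:ℝ) + (t : ℕ)) ≤ (I.card : ℝ) := by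
    rw [hI, Int.card_Ico]
    have h1 : ((2 ^ q * (c + 1) - (s + t) - (2 ^ q * c + (s + t)) : ℤ)) ≤
        ((2 ^ q * (c + 1) - (s + t) - (2 ^ q * c + (s + t)) : ℤ)).toNat := Int.self_le_toNat _
    have h2 : ((2 ^ q * (c + 1) - (s + t) - (2 ^ q * c + (s + t)) : ℤ) : ℝ) ≤
        (((2 ^ q * (c + 1) - (s + t) - (2 ^ q * c + (s + t)) : ℤ)).toNat : ℝ) := by
      exact_mod_cast h1
    refine le_trans (le_of_eq ?_) h2
    push_cast
    ring
  -- the sets
  have hDsub : ∀ d ∈ D, d ∈ nd (n + t) ∧ A (n + t) d ⊆ A n j ∩ J (n + K) c := by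
    intro d hd
    rw [hD, Finset.mem_image] at hd
    obtain ⟨c', hc', rfl⟩ := hd
    obtain ⟨h1, h2, h3, h4, h5, h6⟩ := hspi c' hc'
    refine ⟨mem_nd_of_div hj h2, ?_⟩
    have hsubj := sub_iter hE n t (dsc w n j t c')
    rw [h2] at hsubj
    refine Set.subset_inter hsubj ?_
    intro y hy
    have hloc := hE.loc (n + t) _ y hy
    have hlh := hi_sub_lo w (n + t) (dsc w n j t c')
    rw [hsabs] at h5
    unfold sp at h1
    rw [Finset.mem_Ico] at h1
    have hc'' := hc'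
    rw [hI, Finset.mem_Ico] at hc''
    have e1 : (n + t) = (n + K) + q := by rw [ht]; ring
    show ⌊(2:ℝ) ^ (n + K) * y⌋ = c
    rw [floor_div (n + K) q y, ← e1]
    set F := ⌊(2:ℝ) ^ (n + t) * y⌋ with hF
    have hF1 : 2 ^ q * c ≤ F := by
      have : (0:ℤ) ≤ t := Int.natCast_nonneg t
      linarith [hloc.1, h1.1, h1.2]
    have hF2 : F < 2 ^ q * (c + 1) := by
      linarith [hloc.2, h1.1, h1.2]
    rw [Int.ediv_eq_iff_of_pos hp2q]
    constructor <;> nlinarith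
  -- the measure
  have hvol : (D.card : ℝ≥0∞) * ENNReal.ofReal (M / 2 ^ (n + t)) ≤ volume (A n j ∩ J (n + K) c) := by
    have h1 : volume (⋃ d ∈ D, A (n + t) d) = ∑ d ∈ D, volume (A (n + t) d) := by
      apply measure_biUnion_finset₀
      · intro a ha b hb hab
        exact hE.disj (n + t) a (hDsub a ha).1 b (hDsub b hb).1 hab
      · intro b _
        exact (hE.meas (n + t) b).nullMeasurableSet
    have h2 : ∑ d ∈ D, volume (A (n + t) d) = (D.card : ℝ≥0∞) * ENNReal.ofReal (M / 2 ^ (n + t)) := by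
      rw [Finset.sum_congr rfl (fun d hd => hE.vol (n + t) d (hDsub d hd).1), Finset.sum_const,
        nsmul_eq_mul]
    rw [← h2, ← h1]
    apply measure_mono
    intro y hy
    simp only [Set.mem_iUnion] at hy
    obtain ⟨d, hd, hy⟩ := hy
    exact (hDsub d hd).2 hy
  have hfin : volume (A n j ∩ J (n + K) c) ≠ ∞ := by
    have h1 : volume (A n j ∩ J (n + K) c) ≤ volume (A n j) := measure_mono Set.inter_subset_left
    rw [hE.vol n j hj] at h1
    exact ne_top_of_le_ne_top ENNReal.ofReal_ne_top h1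
  have hvolR : (D.card : ℝ) * (M / 2 ^ (n + t)) ≤ (volume (A n j ∩ J (n + K) c)).toReal := by
    have h1 := ENNReal.toReal_mono hfin hvol
    rw [ENNReal.toReal_mul, ENNReal.toReal_natCast, ENNReal.toReal_ofReal
      (div_nonneg hE.pos.le (by positivity))] at h1
    exact h1
  refine le_trans ?_ hvolR
  -- the final computation
  have hM := hE.pos
  have hst : (0:ℝ) < (s:ℝ) + (t : ℕ) := by
    have : (1:ℝ) ≤ s := by exact_mod_cast hs1
    have : (0:ℝ) ≤ (t:ℝ) := Nat.cast_nonneg _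
    linarith
  have hs0 : (0:ℝ) < s := by exact_mod_cast hs1
  have hcR : (I.card : ℝ) ≤ (D.card : ℝ) * ((s:ℝ) + (t:ℕ)) := by exact_mod_cast hcardle
  have hDR : (2:ℝ) ^ q - 2 * ((s:ℝ) + (t : ℕ)) ≤ (D.card : ℝ) * ((s:ℝ) + (t:ℕ)) := hIcard.trans hcR
  have hkey : (1 - ε) * 2 ^ q ≤ (s:ℝ) * D.card := by
    have h1 : (1 - ε) * (((s:ℝ) + (t : ℕ)) * 2 ^ q) ≤ (s:ℝ) * ((D.card : ℝ) * ((s:ℝ) + (t:ℕ))) :=
      hq.trans (mul_le_mul_of_nonneg_left hDR hs0.le)
    have h2 : ((1 - ε) * 2 ^ q) * ((s:ℝ) + (t : ℕ)) ≤ ((s:ℝ) * D.card) * ((s:ℝ) + (t:ℕ)) := by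
      linarith
    exact le_of_mul_le_mul_right h2 hst
  rw [hsR, div_le_iff₀ (by positivity)]
  have e2 : (2:ℝ) ^ (n + t) = 2 ^ (n + K) * 2 ^ q := by rw [ht, ← add_assoc, pow_add]
  have e3 : (D.card : ℝ) * (M / 2 ^ (n + t)) * ((s:ℝ) * 2 ^ (n + K)) =
      M * ((s:ℝ) * D.card) / 2 ^ q := by
    rw [e2]
    field_simp
  rw [e3, le_div_iff₀ (by positivity)]
  nlinarith [mul_le_mul_of_nonneg_left hkey hM.le]

end Pool.Agent.T2h26.TL.UNI
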