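import Pool.Agent.T2h26.TL.T_INT

/-! # Project TL, part USC: upper semicontinuity of the finite stages -/

set_option autoImplicit false

open MeasureTheory Set
open scoped ENNReal

namespace Pool.Agent.T2h26.TL.USC

open R109.GT

theorem half_mem {n : ℕ} {j : ℤ} (hj : j ∈ nd (n + 1)) : j / 2 ∈ nd n := by
  unfold nd at hj ⊢
  rw [Finset.mem_Ico] at hj ⊢
  rw [pow_succ] at hj
  omega

theorem slope_congr {w w' : ℕ → ℤ → ℤ} {N : ℕ} (h : ∀ n < N, ∀ j ∈ nd n, w' n j = w n j) (n : ℕ) :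
    n ≤ N → ∀ j ∈ nd n, slope w' n j = slope w n j := by
  induction n with
  | zero =>
    intro _ j _
    rfl
  | succ n ih =>
    intro hn j hj
    have h1 := ih (by omega) (j / 2) (half_mem hj)
    have h2 := h n (by omega) (j / 2) (half_mem hj)
    simp only [R109.GT.slope, h1, h2]

theorem part_congr {w w' : ℕ → ℤ → ℤ} {N : ℕ} (h : ∀ n < N, ∀ j ∈ nd n, w' n j = w n j) {x : ℝ}
    (hx : x ∈ J 0 0) : part w' N x = part w N x := by
  unfold part
  refine Finset.sum_congr rfl fun n hn => ?_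
  rw [h n (Finset.mem_range.1 hn) _ ((INT.mem_nd_iff n x).2 hx)]

theorem sgn_shift {w : ℕ → ℤ → ℤ} (hw : Sgn w) (n : ℕ) : Sgn (fun m => w (n + m)) :=
  fun m j => hw (n + m) j

theorem dist_tak {w w' : ℕ → ℤ → ℤ} (hw : Sgn w) (hw' : Sgn w') {N : ℕ}
    (h : ∀ n < N, ∀ j ∈ nd n, w' n j = w n j) {x : ℝ} (hx : x ∈ J 0 0) :
    dist (tak w' x) (tak w x) ≤ 2 / 2 ^ N := by
  rw [Real.dist_eq, split w' hw' N x, split w hw N x, part_congr h hx]
  have h1 := bound _ (sgn_shift hw N) ((2 : ℝ) ^ N * x)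
  have h2 := bound _ (sgn_shift hw' N) ((2 : ℝ) ^ N * x)
  have h3 : ∀ P a b : ℝ, P + a / 2 ^ N - (P + b / 2 ^ N) = (a - b) / 2 ^ N := by
    intro P a b
    ring
  rw [h3, abs_div, abs_of_pos (by positivity : (0 : ℝ) < 2 ^ N)]
  have h4 := abs_sub (tak (fun m => w' (N + m)) ((2 : ℝ) ^ N * x))
    (tak (fun m => w (N + m)) ((2 : ℝ) ^ N * x))
  have h5 : (0 : ℝ) < 2 ^ N := by positivity
  rw [div_le_div_iff_of_pos_right h5]
  exact h4.trans ((add_le_add h2 h1).trans (by norm_num))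

theorem t_USC (hINT : S_INT) (hTHI : S_THI) : S_USC := by
  classical
  intro w hw m L ε hε
  obtain ⟨F, hF1, hF2, hF3⟩ := hINT w hw m L
  obtain ⟨N, hNL, hN⟩ : ∃ N : ℕ, L < N ∧ ENNReal.ofReal (2 * (2 / 2 ^ N) * F.card) ≤ ε := by
    by_cases htop : ε = ⊤
    · exact ⟨L + 1, by omega, by rw [htop]; exact le_top⟩
    · have hε' : 0 < ε.toReal := ENNReal.toReal_pos hε.ne' htop
      obtain ⟨k, hk⟩ := exists_pow_lt_of_lt_one (div_pos hε' (by positivity : (0 : ℝ) < 4 * F.card + 1))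
        (by norm_num : (1 / 2 : ℝ) < 1)
      refine ⟨L + 1 + k, by omega, ?_⟩
      rw [← ENNReal.ofReal_toReal htop]
      apply ENNReal.ofReal_le_ofReal
      rw [lt_div_iff₀ (by positivity)] at hk
      have h1 : (1 : ℝ) / 2 ^ (L + 1 + k) ≤ (1 / 2) ^ k := by
        rw [one_div_pow]
        exact one_div_le_one_div_of_le (by positivity) (pow_le_pow_right₀ (by norm_num) (by omega))
      have h2 : (0 : ℝ) ≤ 4 * F.card := by positivity
      calc 2 * (2 / 2 ^ (L + 1 + k)) * (F.card : ℝ) = (1 / 2 ^ (L + 1 + k)) * (4 * F.card) := by ring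
        _ ≤ (1 / 2) ^ k * (4 * F.card) := mul_le_mul_of_nonneg_right h1 h2
        _ ≤ (1 / 2) ^ k * (4 * F.card + 1) := by
            apply mul_le_mul_of_nonneg_left _ (by positivity)
            linarith
        _ ≤ ε.toReal := hk.le
  refine ⟨N, fun w' hw' h => ?_⟩
  have hsub : tak w' '' (El w' m L ∩ J 0 0) ⊆ Metric.cthickening (2 / 2 ^ N) (⋃ I ∈ F, I) := by
    rintro _ ⟨x, ⟨hx1, hx2⟩, rfl⟩
    have hx3 : x ∈ El w m L := by
      obtain ⟨T, hT, hT2⟩ := hx1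
      refine ⟨T, hT, fun n hn => ⟨(hT2 n hn).1, ?_⟩⟩
      have h1 := (hT2 n hn).2
      unfold S at h1 ⊢
      rw [← slope_congr h n (by have := (hT2 n hn).1; omega) _ ((INT.mem_nd_iff n x).2 hx2)]
      exact h1
    refine Metric.mem_cthickening_of_dist_le _ (tak w x) _ _ ?_ (dist_tak hw hw' h hx2)
    rw [← hF3]
    exact ⟨x, ⟨hx3, hx2⟩, rfl⟩
  refine (measure_mono hsub).trans (((hTHI F hF2).1 (2 / 2 ^ N) (by positivity)).trans ?_)
  rw [hF3]
  exact add_le_add le_rfl hN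

end Pool.Agent.T2h26.TL.USC
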