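import Pool.Agent.T2h26.TL.T_SPI
import Pool.Agent.T2h26.TL.T_NST
import Pool.Agent.T2h26.TL.T_MAX
import Pool.Agent.T2h26.TL.T_LOW
import Pool.Agent.T2h26.TL.T_HIT
import Pool.Agent.T2h26.TL.T_UNI
import Pool.Agent.T2h26.TL.T_PT
import Pool.Agent.T2h26.TL.T_QB
import Pool.Agent.T2h26.TL.T_PLP
import Pool.Agent.T2h26.TL.T_GOO
import Pool.Agent.T2h26.TL.T_SEL
import Pool.Agent.T2h26.TL.T_MAI
import Pool.Agent.T2h26.TL.T_LOC
import Pool.Agent.T2h26.TL.T_SPL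
import Pool.Agent.T2h26.TL.T_MEA
import Pool.Agent.T2h26.TL.T_SCA
import Pool.Agent.T2h26.TL.T_BND
import Pool.Agent.T2h26.TL.T_TAI
import Pool.Agent.T2h26.TL.T_INT
import Pool.Agent.T2h26.TL.T_THI
import Pool.Agent.T2h26.TL.T_USC
import Pool.Agent.T2h26.TL.T_CPT
import Pool.Agent.T2h26.TL.T_EXT
import Pool.Agent.T2h26.TL.T_FIN

/-! # Project TL: the assembly -/

set_option autoImplicit false

namespace Pool.Agent.T2h26.TL

theorem main : S_FIN := by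
  have hSPI : S_SPI := SPI.t_SPI
  have hINT : S_INT := INT.t_INT
  have hTHI : S_THI := THI.t_THI
  have hMEA : S_MEA := MEA.t_MEA
  have hTAI : S_TAI := TAI.t_TAI
  have hSCA : S_SCA := SCA.t_SCA
  have hUNI : S_UNI := UNI.t_UNI hSPI
  have hUSC : S_USC := USC.t_USC hINT hTHI
  have hCPT : S_CPT := CPT.t_CPT hMEA hTAI hUSC
  have hEXT : S_EXT := EXT.t_EXT LOC.t_LOC SPL.t_SPL hMEA hSCA (BND.t_BND hSCA) hTAI hINT hTHI hCPT
  have hMAI : S_MAI := MAI.t_MAI hSPI NST.t_NST MAX.t_MAX LOW.t_LOW HIT.t_HIT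
    (PT.t_PT hUNI) QB.t_QB (PLP.t_PLP hUNI) GOO.t_GOO SEL.t_SEL
  exact FIN.t_FIN hEXT hMAI

end Pool.Agent.T2h26.TL
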