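import Pool.Agent.T2h26.TL.All

/-!
# MP_cc494f_an, Q1: YES. For every `f` in the class `T_v` almost every level set is finite.

Project TL. Statements and plan: helper26. Proofs of the parts: see the files
`Pool/Agent/T2h26/TL/T_*.lean` (helpers 25, 26, 30, 54, 59, 74, 84, 85).
-/

set_option autoImplicit false

namespace Pool.Agent.T2h26.TL.Final

/-- The distance from `x` to the nearest integer. -/
noncomputable def dist1 (x : ℝ) : ℝ := |x - round x|

/-- `ω` is a family of sign functions as in the definition of the class `T_v`: for each `n`,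
`ω n` takes values in `{-1, 1}` on `[0, 1]` and is constant on each `[j/2^n, (j+1)/2^n)`,
`j = 0, ..., 2^n - 1`. -/
def IsSignFamily (ω : ℕ → ℝ → ℝ) : Prop :=
  ∀ n : ℕ, (∀ x ∈ Set.Icc (0 : ℝ) 1, ω n x = 1 ∨ ω n x = -1) ∧
    ∀ j : ℕ, j < 2 ^ n → ∃ c : ℝ, ∀ x ∈ Set.Ico ((j : ℝ) / 2 ^ n) (((j : ℝ) + 1) / 2 ^ n),
      ω n x = c

/-- The function `f = ∑ ω_n(x) 2^{-n} dist1 (2^n x)`. -/
noncomputable def takagi (ω : ℕ → ℝ → ℝ) (x : ℝ) : ℝ :=
  ∑' n : ℕ, ω n x / 2 ^ n * dist1 (2 ^ n * x)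

/-- The level set `{x ∈ [0,1] : f(x) = y}`. -/
def levelSet (ω : ℕ → ℝ → ℝ) (y : ℝ) : Set ℝ :=
  {x : ℝ | x ∈ Set.Icc (0 : ℝ) 1 ∧ takagi ω x = y}

open Classical in
/-- For every `f` in the class `T_v` the level set `L_f(y)` is finite for Lebesgue-almost
every `y`. -/
theorem result (ω : ℕ → ℝ → ℝ) (hω : IsSignFamily ω) :
    ∀ᵐ y ∂(MeasureTheory.volume : MeasureTheory.Measure ℝ), (levelSet ω y).Finite := by
  let ω' : ℕ → ℝ → ℝ := fun n x => if x ∈ Set.Icc (0 : ℝ) 1 then ω n x else 1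
  have h1 : Pool.Agent.T2h26.TL.IsSignFamily ω' := by
    intro n
    refine ⟨fun x => ?_, fun j hj => ?_⟩
    · by_cases hx : x ∈ Set.Icc (0 : ℝ) 1
      · have : ω' n x = ω n x := if_pos hx
        rw [this]
        exact (hω n).1 x hx
      · exact Or.inl (if_neg hx)
    · obtain ⟨c, hc⟩ := (hω n).2 j hj
      refine ⟨c, fun x hx => ?_⟩
      have hx' : x ∈ Set.Icc (0 : ℝ) 1 := by
        constructor
        · exact le_trans (by positivity) hx.1
        · refine hx.2.le.trans ?_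
          rw [div_le_one (by positivity)]
          exact_mod_cast hj
      have : ω' n x = ω n x := if_pos hx'
      rw [this]
      exact hc x hx
  have h2 := Pool.Agent.T2h26.TL.main ω' h1
  filter_upwards [h2] with y hy
  refine hy.subset ?_
  rintro x ⟨hx, hxy⟩
  refine ⟨hx, ?_⟩
  rw [← hxy]
  unfold Pool.Agent.T2h26.TL.takagi takagi
  refine tsum_congr fun n => ?_
  have : ω' n x = ω n x := if_pos hx
  rw [this]
  rfl

end Pool.Agent.T2h26.TL.Final
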