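import Pool.Agent.R109.GT.DD

/-!
# Project TL (helper26): level sets of the generalised Takagi functions (MP_cc494f_an, Q1)

Definitions and statements of the parts. The library `Pool.Agent.R109.GT` gives the functions
`tak w` (sign array `w`), slopes and values of the partial sums at the dyadic intervals `J n j`, and
reduces the problem to: the image of the set `Z w` of the points with infinitely many zero slopes
is a null set.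
-/

set_option autoImplicit false

open MeasureTheory Set
open scoped ENNReal

namespace Pool.Agent.T2h26.TL

open R109.GT

/-! ### The tree -/

/-- the nodes of level `n` -/
noncomputable def nd (n : ℕ) : Finset ℤ := Finset.Ico 0 (2 ^ n)

/-- the descendants of the node `j`, `t` levels below: `i / 2 ^ t = j` -/
noncomputable def ds (t : ℕ) (j : ℤ) : Finset ℤ := Finset.Ico (2 ^ t * j) (2 ^ t * (j + 1))

/-- lower end of the span of the node (unit `2 ^ (-n)`) -/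
noncomputable def lo (w : ℕ → ℤ → ℤ) (n : ℕ) (j : ℤ) : ℤ := min (val w n j) (val w n j + slope w n j)

/-- upper end of the span of the node (unit `2 ^ (-n)`) -/
noncomputable def hi (w : ℕ → ℤ → ℤ) (n : ℕ) (j : ℤ) : ℤ := max (val w n j) (val w n j + slope w n j)

/-- the span of the node: the cells of the `y`-axis between the values at the two ends. The cell `c`
of level `n` is `J n c = [c / 2 ^ n, (c + 1) / 2 ^ n)`. -/
noncomputable def sp (w : ℕ → ℤ → ℤ) (n : ℕ) (j : ℤ) : Finset ℤ := Finset.Ico (lo w n j) (hi w n j)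

/-- the spine: `dsc w n j t c` is the descendant of `(n, j)` of level `n + t` which one reaches by
going always to the child the span of which contains (the cell of its level containing) `c` -/
noncomputable def dsc (w : ℕ → ℤ → ℤ) (n : ℕ) (j : ℤ) : ℕ → ℤ → ℤ
  | 0, _ => j
  | t + 1, c => if c ∈ sp w (n + t + 1) (2 * dsc w n j t (c / 2)) then 2 * dsc w n j t (c / 2)
      else 2 * dsc w n j t (c / 2) + 1

/-! ### The extremal situation -/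

/-- An extremal function: every node has a set `A n j` of values of measure `M / 2 ^ n`; the sets of
different nodes of a level are disjoint. -/
structure Ext (w : ℕ → ℤ → ℤ) (M : ℝ) (A : ℕ → ℤ → Set ℝ) : Prop where
  sgn : Sgn w
  pos : 0 < M
  meas : ∀ n j, MeasurableSet (A n j)
  vol : ∀ n, ∀ j ∈ nd n, volume (A n j) = ENNReal.ofReal (M / 2 ^ n)
  sub : ∀ n j, A (n + 1) (2 * j) ⊆ A n j ∧ A (n + 1) (2 * j + 1) ⊆ A n j
  cov : ∀ n, A 0 0 ⊆ ⋃ j ∈ nd n, A n j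
  disj : ∀ n, ∀ i ∈ nd n, ∀ j ∈ nd n, i ≠ j → volume (A n i ∩ A n j) = 0
  loc : ∀ n j, ∀ y ∈ A n j, lo w n j - 1 ≤ ⌊(2 : ℝ) ^ n * y⌋ ∧ ⌊(2 : ℝ) ^ n * y⌋ < hi w n j + 1
  pla : ∀ ε : ℝ, 0 < ε → ∃ K : ℕ, ∀ n, ∀ j ∈ nd n, slope w n j = 0 → ∃ V : Finset ℤ,
    (V.card : ℝ) / 2 ^ (n + K) ≤ (1 + ε) * M / 2 ^ n ∧
    volume (A n j \ ⋃ c ∈ V, J (n + K) c) ≤ ENNReal.ofReal (ε * M / 2 ^ n)

/-! ### Part 1: the tree -/

/-- **SPI.** The spine. -/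
def S_SPI : Prop := ∀ (w : ℕ → ℤ → ℤ), Sgn w → ∀ (n : ℕ) (j : ℤ), slope w n j ≠ 0 →
  ∀ (t : ℕ) (c : ℤ), c / 2 ^ t ∈ sp w n j →
    c ∈ sp w (n + t) (dsc w n j t c) ∧ dsc w n j t c / 2 ^ t = j ∧
    (∀ t' ≤ t, dsc w n j t c / 2 ^ (t - t') = dsc w n j t' (c / 2 ^ (t - t'))) ∧
    slope w (n + t) (dsc w n j t c) ≠ 0 ∧
    |slope w (n + t) (dsc w n j t c)| ≤ |slope w n j| + t ∧
    ∀ c' ∈ sp w (n + t) (dsc w n j t c), c' / 2 ^ t ∈ sp w n j ∧ dsc w n j t c' = dsc w n j t c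

/-- **NST.** The spans of the descendants. -/
def S_NST : Prop := ∀ (w : ℕ → ℤ → ℤ), Sgn w → ∀ (n : ℕ) (j : ℤ) (t : ℕ), ∀ i ∈ ds t j,
  2 ^ t * (lo w n j - 1) + 1 ≤ lo w (n + t) i ∧ hi w (n + t) i + 1 ≤ 2 ^ t * (hi w n j + 1)

open Classical in
/-- **MAX.** Maximal inequality for the slopes along the spines (for a uniformly chosen cell the
slopes are a walk with `s → s ± 1` with probabilities `(s ± 1) / (2 s)`; `s_t ^ 2 - 3 t` is a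
martingale). -/
def S_MAX : Prop := ∀ (w : ℕ → ℤ → ℤ), Sgn w → ∀ (n : ℕ) (j : ℤ) (t Λ : ℕ),
  (((Finset.Ico (2 ^ t * lo w n j) (2 ^ t * hi w n j)).filter (fun c => ∃ t' ≤ t,
    (Λ : ℤ) ≤ |slope w (n + t') (dsc w n j t' (c / 2 ^ (t - t')))|)).card : ℤ) * (Λ : ℤ) ^ 2 ≤
      (slope w n j ^ 2 + 3 * t) * |slope w n j| * 2 ^ t

open Classical in
/-- **LOW.** Few nodes have a small slope (central binomial coefficient). -/
def S_LOW : Prop := ∃ C : ℝ, 0 < C ∧ ∀ (w : ℕ → ℤ → ℤ), Sgn w → ∀ n : ℕ, 1 ≤ n → ∀ a : ℕ,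
  (((nd n).filter (fun i => |slope w n i| < (a : ℤ))).card : ℝ) ≤ C * (a + 1) / √n * 2 ^ n

open Classical in
/-- **HIT.** A positive proportion of the paths has a zero slope between the levels `n` and
`C₁ n`. -/
def S_HIT : Prop := ∃ p₀ : ℝ, 0 < p₀ ∧ ∃ C₁ : ℕ, 1 ≤ C₁ ∧ ∀ k : ℕ, ∃ n₀ : ℕ, k ≤ n₀ ∧
  ∀ n, n₀ ≤ n → ∀ (w : ℕ → ℤ → ℤ), Sgn w → ∀ j ∈ nd k,
    p₀ * 2 ^ (C₁ * n - k) ≤ (((ds (C₁ * n - k) j).filter (fun i => ∃ m, n ≤ m ∧ m ≤ C₁ * n ∧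
      slope w m (i / 2 ^ (C₁ * n - m)) = 0)).card : ℝ)

/-! ### Part 2: consequences of extremality -/

/-- **UNI.** A node with a large slope spreads its mass uniformly over its span. -/
def S_UNI : Prop := ∀ ε : ℝ, 0 < ε → ∀ K : ℕ, ∃ s₀ : ℕ, 1 ≤ s₀ ∧
  ∀ (w : ℕ → ℤ → ℤ) (M : ℝ) (A : ℕ → ℤ → Set ℝ), Ext w M A → ∀ n, ∀ j ∈ nd n,
    (s₀ : ℤ) ≤ |slope w n j| → ∀ c : ℤ, c / 2 ^ K ∈ sp w n j →
      (1 - ε) * M / (|(slope w n j : ℝ)| * 2 ^ (n + K)) ≤ (volume (A n j ∩ J (n + K) c)).toReal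

open Classical in
/-- **PT.** The total weight of the steep branches above a cell. -/
def S_PT : Prop := ∀ ε : ℝ, 0 < ε → ∃ s₀ : ℕ, 1 ≤ s₀ ∧
  ∀ (w : ℕ → ℤ → ℤ) (M : ℝ) (A : ℕ → ℤ → Set ℝ), Ext w M A → ∀ (n : ℕ) (c : ℤ),
    ∑ j ∈ (nd n).filter (fun j => c ∈ sp w n j ∧ (s₀ : ℤ) ≤ |slope w n j|),
      1 / |(slope w n j : ℝ)| ≤ (1 + ε) / M

open Classical in
/-- **QB.** The number of the branches of small slope above a cell. -/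
def S_QB : Prop := ∀ (w : ℕ → ℤ → ℤ) (M : ℝ) (A : ℕ → ℤ → Set ℝ), Ext w M A →
  ∀ (n : ℕ) (c : ℤ) (s₀ : ℕ),
    (((nd n).filter (fun j => c ∈ sp w n j ∧ |slope w n j| < (s₀ : ℤ))).card : ℝ) * M ≤ 2 * s₀

open Classical in
/-- **PLP.** Above most of the values of a plateau there is almost no weight of steep branches. -/
def S_PLP : Prop := ∀ (w : ℕ → ℤ → ℤ) (M : ℝ) (A : ℕ → ℤ → Set ℝ), Ext w M A →
  ∀ η : ℝ, 0 < η → ∃ K s₀ : ℕ, 1 ≤ s₀ ∧ ∀ n, ∀ j ∈ nd n, slope w n j = 0 → ∃ G : Finset ℤ,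
    (∀ c ∈ G, ∑ i ∈ (nd n).filter (fun i => c / 2 ^ K ∈ sp w n i ∧ (s₀ : ℤ) ≤ |slope w n i|),
      1 / |(slope w n i : ℝ)| ≤ η) ∧
    M / 2 ^ n / 2 ≤ (volume (A n j ∩ ⋃ c ∈ G, J (n + K) c)).toReal

open Classical in
/-- **GOO.** A neighbourhood of the set of the values. -/
def S_GOO : Prop := ∀ (w : ℕ → ℤ → ℤ) (M : ℝ) (A : ℕ → ℤ → Set ℝ), Ext w M A →
  ∀ η : ℝ, 0 < η → ∃ (k : ℕ) (U : Finset ℤ), (U.card : ℝ) ≤ (1 + η) * M * 2 ^ k ∧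
    (1 - η) * 2 ^ k ≤
      (((nd k).filter (fun j => Finset.Ico (lo w k j - 1) (hi w k j + 1) ⊆ U)).card : ℝ)

open Classical in
/-- **SEL.** The selection of the plateaus with a level between `n` and `C₁ n` which are the first on
their path after level `n`: the cells above which the weight of the steep branches is small at
some level between `n` and `C₁ n`. -/
def S_SEL : Prop := ∀ (w : ℕ → ℤ → ℤ) (M : ℝ) (A : ℕ → ℤ → Set ℝ), Ext w M A →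
  ∀ (K : ℕ) (P : ℕ → ℤ → Prop),
  (∀ n, ∀ j ∈ nd n, slope w n j = 0 → ∃ G : Finset ℤ, (∀ c ∈ G, P n (c / 2 ^ K)) ∧
    M / 2 ^ n / 2 ≤ (volume (A n j ∩ ⋃ c ∈ G, J (n + K) c)).toReal) →
  ∀ (p₀ : ℝ) (k n L : ℕ) (U : Finset ℤ) (D : Finset ℤ), k ≤ n → n ≤ L → D ⊆ nd k →
    (∀ j ∈ D, Finset.Ico (lo w k j - 1) (hi w k j + 1) ⊆ U) →
    (∀ j ∈ D, p₀ * 2 ^ (L - k) ≤ (((ds (L - k) j).filter (fun i => ∃ m, n ≤ m ∧ m ≤ L ∧
      slope w m (i / 2 ^ (L - m)) = 0)).card : ℝ)) →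
    ∃ G : Finset ℤ, (∀ c ∈ G, c / 2 ^ (L + K - k) ∈ U ∧ ∃ m, n ≤ m ∧ m ≤ L ∧
        P m (c / 2 ^ (L + K - m))) ∧
      M / 2 * (p₀ * D.card / 2 ^ k) ≤ (G.card : ℝ) / 2 ^ (L + K)

/-- **MAI.** The main part: there is no extremal function. -/
def S_MAI : Prop := ∀ (w : ℕ → ℤ → ℤ) (M : ℝ) (A : ℕ → ℤ → Set ℝ), ¬ Ext w M A

/-! ### Part 3: existence of an extremal function -/

/-- the points with at least `m` zero slopes at levels from `N` on -/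
def Es (w : ℕ → ℤ → ℤ) (N m : ℕ) : Set ℝ :=
  {x | ∃ T : Finset ℕ, T.card = m ∧ ∀ n ∈ T, N ≤ n ∧ S w n x = 0}

/-- the points with at least `m` zero slopes at levels at most `L` -/
def El (w : ℕ → ℤ → ℤ) (m L : ℕ) : Set ℝ :=
  {x | ∃ T : Finset ℕ, T.card = m ∧ ∀ n ∈ T, n ≤ L ∧ S w n x = 0}

/-- the values at the points of the node with at least `m` zero slopes at levels from `N` on -/
def GG (w : ℕ → ℤ → ℤ) (N : ℕ) (j : ℤ) (m : ℕ) : Set ℝ := tak w '' (Es w N m ∩ J N j)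

/-- the essential values at the node -/
def AA (w : ℕ → ℤ → ℤ) (N : ℕ) (j : ℤ) : Set ℝ := ⋂ m, GG w N j m

/-- the signs below the node `(n, i)` -/
def sub (w : ℕ → ℤ → ℤ) (n : ℕ) (i : ℤ) : ℕ → ℤ → ℤ := fun m l => w (n + m) (2 ^ m * i + l)

/-- **LOC.** The values at the points of a node. -/
def S_LOC : Prop := ∀ (w : ℕ → ℤ → ℤ), Sgn w → (∀ x, |tak w x| ≤ 3 / 4) ∧
  ∀ (n : ℕ) (j : ℤ), ∀ x ∈ J n j,
    lo w n j - 1 ≤ ⌊(2 : ℝ) ^ n * tak w x⌋ ∧ ⌊(2 : ℝ) ^ n * tak w x⌋ < hi w n j + 1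

/-- **SPL.** Additivity. -/
def S_SPL : Prop := ∀ (w : ℕ → ℤ → ℤ), Sgn w → ∀ (N : ℕ) (j : ℤ),
  AA w N j = AA w (N + 1) (2 * j) ∪ AA w (N + 1) (2 * j + 1)

/-- **MEA.** Measurability. -/
def S_MEA : Prop := ∀ (w : ℕ → ℤ → ℤ), Sgn w → ∀ (N : ℕ) (j : ℤ) (m L : ℕ),
  MeasurableSet (GG w N j m) ∧ MeasurableSet (tak w '' (El w m L ∩ J N j))

/-- **SCA.** Self-similarity at a plateau. -/
def S_SCA : Prop := ∀ (w : ℕ → ℤ → ℤ), Sgn w → ∀ (n : ℕ) (i : ℤ), slope w n i = 0 →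
  Sgn (sub w n i) ∧
  (∀ m, GG w n i m = (fun v : ℝ => ((val w n i : ℝ) + v) / 2 ^ n) '' GG (sub w n i) 0 0 m) ∧
  AA w n i = (fun v : ℝ => ((val w n i : ℝ) + v) / 2 ^ n) '' AA (sub w n i) 0 0

/-- **BND.** A bound for plateaus gives a bound for all nodes. -/
def S_BND : Prop := ∀ (m : ℕ), 1 ≤ m → ∀ C : ℝ≥0∞,
  (∀ w' : ℕ → ℤ → ℤ, Sgn w' → volume (GG w' 0 0 m) ≤ C) →
  ∀ (w : ℕ → ℤ → ℤ), Sgn w → ∀ (N : ℕ) (j : ℤ), volume (GG w N j m) ≤ C * volume (J N j)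

/-- **TAI.** The tails are uniformly small. -/
def S_TAI : Prop := ∀ (m : ℕ) (ε : ℝ≥0∞), 0 < ε → ∃ L : ℕ, ∀ (w : ℕ → ℤ → ℤ), Sgn w →
  volume (tak w '' ((Es w 0 m \ El w m L) ∩ J 0 0)) ≤ ε

/-- **FIN1.** The finite stages: the values are a union of at most `2 ^ (L + 1)` intervals. -/
def S_INT : Prop := ∀ (w : ℕ → ℤ → ℤ), Sgn w → ∀ (m L : ℕ), ∃ F : Finset (Set ℝ),
  F.card ≤ 2 ^ (L + 1) ∧ (∀ I ∈ F, I.OrdConnected ∧ I.Nonempty) ∧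
    tak w '' (El w m L ∩ J 0 0) = ⋃ I ∈ F, I

/-- **THI.** Thickenings and coverings by cells of a union of intervals. -/
def S_THI : Prop := ∀ F : Finset (Set ℝ), (∀ I ∈ F, I.OrdConnected ∧ I.Nonempty) →
  (∀ δ : ℝ, 0 ≤ δ → volume (Metric.cthickening δ (⋃ I ∈ F, I)) ≤
    volume (⋃ I ∈ F, I) + ENNReal.ofReal (2 * δ * F.card)) ∧
  ∀ (k : ℕ), (∀ I ∈ F, Bornology.IsBounded I) → ∃ V : Finset ℤ, (⋃ I ∈ F, I) ⊆ (⋃ c ∈ V, J k c) ∧
    ENNReal.ofReal ((V.card : ℝ) / 2 ^ k) ≤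
      volume (⋃ I ∈ F, I) + ENNReal.ofReal (2 * F.card / 2 ^ k)

/-- **USC.** Upper semicontinuity of the finite stages. -/
def S_USC : Prop := ∀ (w : ℕ → ℤ → ℤ), Sgn w → ∀ (m L : ℕ) (ε : ℝ≥0∞), 0 < ε → ∃ N : ℕ,
  ∀ w' : ℕ → ℤ → ℤ, Sgn w' → (∀ n < N, ∀ j ∈ nd n, w' n j = w n j) →
    volume (tak w' '' (El w' m L ∩ J 0 0)) ≤ volume (tak w '' (El w m L ∩ J 0 0)) + ε

/-- the supremum of the measures -/
noncomputable def Mm (m : ℕ) : ℝ≥0∞ := ⨆ w : {w : ℕ → ℤ → ℤ // Sgn w}, volume (GG w.1 0 0 m)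

/-- the limit of the suprema -/
noncomputable def MM : ℝ≥0∞ := ⨅ m, Mm m

/-- **CPT.** Compactness. -/
def S_CPT : Prop := ∃ w : ℕ → ℤ → ℤ, Sgn w ∧ ∀ m, MM ≤ volume (GG w 0 0 m)

/-- **EXT.** An extremal function. -/
def S_EXT : Prop := MM ≠ 0 → ∃ (w : ℕ → ℤ → ℤ) (M : ℝ) (A : ℕ → ℤ → Set ℝ), Ext w M A

/-! ### The final theorem -/

/-- The distance from `x` to the nearest integer. -/
noncomputable def dist1 (x : ℝ) : ℝ := |x - round x|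

/-- `ω` is a family of sign functions as in the definition of the class `T_v`: for each `n`,
`ω n` takes values in `{-1, 1}` and is constant on each `[j/2^n, (j+1)/2^n)`,
`j = 0, ..., 2^n - 1`. -/
def IsSignFamily (ω : ℕ → ℝ → ℝ) : Prop :=
  ∀ n : ℕ, (∀ x : ℝ, ω n x = 1 ∨ ω n x = -1) ∧
    ∀ j : ℕ, j < 2 ^ n → ∃ c : ℝ, ∀ x ∈ Set.Ico ((j : ℝ) / 2 ^ n) (((j : ℝ) + 1) / 2 ^ n),
      ω n x = c

/-- The generalised Takagi function `∑ ω_n(x) 2^{-n} dist1 (2^n x)`. -/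
noncomputable def takagi (ω : ℕ → ℝ → ℝ) (x : ℝ) : ℝ :=
  ∑' n : ℕ, ω n x / 2 ^ n * dist1 (2 ^ n * x)

/-- **FIN.** The final theorem. -/
def S_FIN : Prop := ∀ ω : ℕ → ℝ → ℝ, IsSignFamily ω →
  ∀ᵐ y ∂(volume : Measure ℝ), {x : ℝ | x ∈ Set.Icc (0 : ℝ) 1 ∧ takagi ω x = y}.Finite

end Pool.Agent.T2h26.TL
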