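import Pool.Agent.T2h26.TL.Stm

/-! # Project TL, part SPI: the spine -/

set_option autoImplicit false

open MeasureTheory Set
open scoped ENNReal

namespace Pool.Agent.T2h26.TL.SPI

open R109.GT

theorem slope_even (w : ℕ → ℤ → ℤ) (n : ℕ) (j : ℤ) : slope w (n + 1) (2 * j) = slope w n j + w n j := by
  have h1 : (2 * j) / 2 = j := by omega
  have h2 : (2 * j) % 2 = 0 := by omega
  simp only [R109.GT.slope, h1, h2, if_true, mul_one]

theorem slope_odd (w : ℕ → ℤ → ℤ) (n : ℕ) (j : ℤ) : slope w (n + 1) (2 * j + 1) = slope w n j - w n j := by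
  have h1 : (2 * j + 1) / 2 = j := by omega
  have h2 : (2 * j + 1) % 2 = 1 := by omega
  simp only [R109.GT.slope, h1, h2]
  norm_num
  ring

theorem val_even (w : ℕ → ℤ → ℤ) (n : ℕ) (j : ℤ) : val w (n + 1) (2 * j) = 2 * val w n j := by
  have h1 : (2 * j) / 2 = j := by omega
  have h2 : (2 * j) % 2 = 0 := by omega
  simp only [R109.GT.val, h1, h2, if_true, add_zero]

theorem val_odd (w : ℕ → ℤ → ℤ) (n : ℕ) (j : ℤ) :
    val w (n + 1) (2 * j + 1) = 2 * val w n j + (slope w n j + w n j) := by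
  have h1 : (2 * j + 1) / 2 = j := by omega
  have h2 : (2 * j + 1) % 2 = 1 := by omega
  simp only [R109.GT.val, h1, h2]
  norm_num

theorem mem_sp (w : ℕ → ℤ → ℤ) (n : ℕ) (j c : ℤ) : c ∈ sp w n j ↔
    min (val w n j) (val w n j + slope w n j) ≤ c ∧ c < max (val w n j) (val w n j + slope w n j) := by
  unfold sp lo hi
  rw [Finset.mem_Ico]

theorem step (w : ℕ → ℤ → ℤ) (hw : Sgn w) (n : ℕ) (j : ℤ) (c : ℤ)
    (hc : c / 2 ∈ sp w n j) (b : ℤ) (hb : b = if c ∈ sp w (n + 1) (2 * j) then 2 * j else 2 * j + 1) :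
    c ∈ sp w (n + 1) b ∧ b / 2 = j ∧ slope w (n + 1) b ≠ 0 ∧
    |slope w (n + 1) b| ≤ |slope w n j| + 1 ∧
    ∀ c' ∈ sp w (n + 1) b, c' / 2 ∈ sp w n j ∧
      (if c' ∈ sp w (n + 1) (2 * j) then 2 * j else 2 * j + 1) = b := by
  have he := hw n j
  rw [mem_sp] at hc
  have habs : |w n j| = 1 := by rcases he with h | h <;> simp [h]
  by_cases h : c ∈ sp w (n + 1) (2 * j)
  · rw [if_pos h] at hb
    rw [hb]
    refine ⟨h, by omega, ?_, ?_, ?_⟩
    · rw [mem_sp] at h
      intro h0
      rw [h0] at h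
      omega
    · rw [slope_even]
      have := abs_add_le (slope w n j) (w n j)
      rw [habs] at this
      exact this
    · intro c' hc'
      refine ⟨?_, if_pos hc'⟩
      rw [mem_sp] at hc' ⊢
      rw [val_even, slope_even] at hc'
      omega
  · rw [if_neg h] at hb
    rw [hb]
    rw [mem_sp, val_even, slope_even] at h
    refine ⟨?_, by omega, ?_, ?_, ?_⟩
    · rw [mem_sp, val_odd, slope_odd]
      omega
    · rw [slope_odd]
      omega
    · rw [slope_odd]
      have := abs_sub (slope w n j) (w n j)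
      rw [habs] at this
      exact this
    · intro c' hc'
      rw [mem_sp, val_odd, slope_odd] at hc'
      have h5 : ¬ c' ∈ sp w (n + 1) (2 * j) := by
        rw [mem_sp, val_even, slope_even]
        omega
      refine ⟨?_, if_neg h5⟩
      rw [mem_sp]
      omega

theorem div_two_pow (c : ℤ) (t : ℕ) : c / 2 ^ (t + 1) = (c / 2) / 2 ^ t := by
  rw [pow_succ', Int.ediv_ediv_of_nonneg (by norm_num : (0 : ℤ) ≤ 2)]

theorem t_SPI : S_SPI := by
  intro w hw n j hs t
  induction t with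
  | zero =>
    intro c hc
    rw [pow_zero, Int.ediv_one] at hc
    refine ⟨hc, by simp [dsc], ?_, hs, by simp [dsc], ?_⟩
    · intro t' ht'
      have : t' = 0 := by omega
      subst this
      simp [dsc]
    · intro c' hc'
      rw [pow_zero, Int.ediv_one]
      exact ⟨hc', rfl⟩
  | succ t ih =>
    intro c hc
    rw [div_two_pow] at hc
    obtain ⟨h1, h2, h3, h4, h5, h6⟩ := ih (c / 2) hc
    obtain ⟨d, hd⟩ : ∃ d, d = dsc w n j t (c / 2) := ⟨_, rfl⟩
    rw [← hd] at h1 h2 h3 h4 h5 h6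
    have hb : dsc w n j (t + 1) c = if c ∈ sp w (n + t + 1) (2 * d) then 2 * d else 2 * d + 1 := by
      rw [hd]
      rfl
    obtain ⟨k1, k2, k3, k4, k5⟩ := step w hw (n + t) d c h1 _ hb
    refine ⟨k1, ?_, ?_, k3, ?_, ?_⟩
    · rw [div_two_pow, k2, h2]
    · intro t' ht'
      rcases Nat.lt_or_ge t t' with h | h
      · have : t' = t + 1 := by omega
        subst this
        simp
      · have e1 : t + 1 - t' = (t - t') + 1 := by omega
        rw [e1, div_two_pow, k2, h3 t' h, div_two_pow]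
    · push_cast
      have e1 : slope w (n + (t + 1)) (dsc w n j (t + 1) c) =
        slope w (n + t + 1) (dsc w n j (t + 1) c) := rfl
      rw [e1]
      linarith
    · intro c' hc'
      obtain ⟨m1, m2⟩ := k5 c' hc'
      obtain ⟨m3, m4⟩ := h6 (c' / 2) m1
      rw [div_two_pow]
      refine ⟨m3, ?_⟩
      rw [← m2]
      show (if c' ∈ sp w (n + t + 1) (2 * dsc w n j t (c' / 2)) then 2 * dsc w n j t (c' / 2)
        else 2 * dsc w n j t (c' / 2) + 1) = _
      rw [m4]

end Pool.Agent.T2h26.TL.SPI
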