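import Pool.Agent.T2h26.TL.Stm

/-! Project TL, part SPL: additivity of the sets of the essential values. -/

set_option autoImplicit false

open MeasureTheory Set
open scoped ENNReal

namespace Pool.Agent.T2h26.TL.SPL

open R109.GT

theorem Es_anti (w : ℕ → ℤ → ℤ) (N : ℕ) {m m' : ℕ} (h : m ≤ m') : Es w N m' ⊆ Es w N m := by
  rintro x ⟨T, hT, hx⟩
  obtain ⟨T', hT', hc⟩ := Finset.exists_subset_card_eq (hT ▸ h : m ≤ T.card)
  exact ⟨T', hc, fun n hn => hx n (hT' hn)⟩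

theorem GG_anti (w : ℕ → ℤ → ℤ) (N : ℕ) (j : ℤ) : Antitone (GG w N j) := fun _ _ h =>
  image_mono (inter_subset_inter_left _ (Es_anti w N h))

theorem J_split (N : ℕ) (j : ℤ) : J N j = J (N + 1) (2 * j) ∪ J (N + 1) (2 * j + 1) := by
  ext x
  have h := floor_div N 1 x
  rw [pow_one] at h
  constructor
  · intro hx
    have hx' : ⌊(2:ℝ) ^ N * x⌋ = j := hx
    have h1 : ⌊(2:ℝ) ^ (N + 1) * x⌋ = 2 * j ∨ ⌊(2:ℝ) ^ (N + 1) * x⌋ = 2 * j + 1 := by omega
    exact h1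
  · intro hx
    have h1 : ⌊(2:ℝ) ^ (N + 1) * x⌋ = 2 * j ∨ ⌊(2:ℝ) ^ (N + 1) * x⌋ = 2 * j + 1 := hx
    have : ⌊(2:ℝ) ^ N * x⌋ = j := by omega
    exact this

theorem S_of_J (w : ℕ → ℤ → ℤ) {n : ℕ} {i : ℤ} {x : ℝ} (hx : x ∈ J n i) :
    S w n x = slope w n i := by
  have h : ⌊(2:ℝ) ^ n * x⌋ = i := hx
  unfold S
  rw [h]

theorem Es_zero (w : ℕ → ℤ → ℤ) (N : ℕ) (j : ℤ) (m : ℕ) (h0 : slope w N j = 0) :
    Es w N (m + 1) ∩ J N j = Es w (N + 1) m ∩ J N j := by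
  ext x
  constructor
  · rintro ⟨⟨T, hT, hx⟩, hJ⟩
    refine ⟨?_, hJ⟩
    have hc : m ≤ (T.erase N).card := by
      have := Finset.pred_card_le_card_erase (s := T) (a := N)
      omega
    obtain ⟨T', hT', hc'⟩ := Finset.exists_subset_card_eq hc
    refine ⟨T', hc', fun n hn => ?_⟩
    have h1 := Finset.mem_erase.1 (hT' hn)
    have h2 := hx n h1.2
    exact ⟨by have := h1.1; omega, h2.2⟩
  · rintro ⟨⟨T, hT, hx⟩, hJ⟩
    refine ⟨⟨insert N T, ?_, ?_⟩, hJ⟩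
    · rw [Finset.card_insert_of_notMem, hT]
      intro hN
      have := (hx N hN).1
      omega
    · intro n hn
      rcases Finset.mem_insert.1 hn with rfl | hn
      · exact ⟨le_rfl, by rw [S_of_J w hJ, h0]⟩
      · exact ⟨by have := (hx n hn).1; omega, (hx n hn).2⟩

theorem Es_ne (w : ℕ → ℤ → ℤ) (N : ℕ) (j : ℤ) (m : ℕ) (h0 : slope w N j ≠ 0) :
    Es w N m ∩ J N j = Es w (N + 1) m ∩ J N j := by
  ext x
  constructor
  · rintro ⟨⟨T, hT, hx⟩, hJ⟩
    refine ⟨⟨T, hT, fun n hn => ?_⟩, hJ⟩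
    have h2 := hx n hn
    refine ⟨?_, h2.2⟩
    rcases Nat.eq_or_lt_of_le h2.1 with h | h
    · exfalso
      apply h0
      rw [← S_of_J w hJ, h, h2.2]
    · exact h
  · rintro ⟨⟨T, hT, hx⟩, hJ⟩
    exact ⟨⟨T, hT, fun n hn => ⟨by have := (hx n hn).1; omega, (hx n hn).2⟩⟩, hJ⟩

theorem GG_split (w : ℕ → ℤ → ℤ) (N : ℕ) (j : ℤ) (m : ℕ) :
    tak w '' (Es w (N + 1) m ∩ J N j) =
      GG w (N + 1) (2 * j) m ∪ GG w (N + 1) (2 * j + 1) m := by
  rw [J_split, inter_union_distrib_left, image_union]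
  rfl

theorem iInter_union_anti {A B : ℕ → Set ℝ} (hA : Antitone A) (hB : Antitone B) :
    ⋂ m, (A m ∪ B m) = (⋂ m, A m) ∪ ⋂ m, B m := by
  apply Subset.antisymm
  · intro y hy
    by_contra hcon
    rw [mem_union, not_or, mem_iInter, mem_iInter] at hcon
    obtain ⟨h1, h2⟩ := hcon
    push Not at h1 h2
    obtain ⟨a, ha⟩ := h1
    obtain ⟨b, hb⟩ := h2
    rcases mem_iInter.1 hy (max a b) with h | h
    · exact ha (hA (le_max_left a b) h)
    · exact hb (hB (le_max_right a b) h)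
  · rintro y (hy | hy)
    · exact mem_iInter.2 fun m => Or.inl (mem_iInter.1 hy m)
    · exact mem_iInter.2 fun m => Or.inr (mem_iInter.1 hy m)

theorem iInter_succ {A : ℕ → Set ℝ} (hA : Antitone A) : ⋂ m, A m = ⋂ m, A (m + 1) := by
  apply Subset.antisymm
  · exact subset_iInter fun m => iInter_subset _ _
  · exact subset_iInter fun m => (iInter_subset _ m).trans (hA (Nat.le_succ m))

theorem t_SPL : S_SPL := by
  intro w _ N j
  unfold AA
  rw [← iInter_union_anti (GG_anti w _ _) (GG_anti w _ _)]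
  by_cases h0 : slope w N j = 0
  · rw [iInter_succ (GG_anti w N j)]
    congr 1
    funext m
    rw [← GG_split, ← Es_zero w N j m h0]
    rfl
  · congr 1
    funext m
    rw [← GG_split, ← Es_ne w N j m h0]
    rfl

end Pool.Agent.T2h26.TL.SPL
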